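import Pool.Agent.H306R2.SM.Defs

set_option autoImplicit false

namespace Pool.Agent.H800R2.SM4a

open Finset Filter Topology MeasureTheory Complex
open Pool.Agent.H306R2 Pool.Agent.H306R2.SM

noncomputable section

/-- the dominant part of `X` on the critical line -/
def Am (t : ℝ) : ℂ :=
  (2 * (Real.pi : ℂ)) ^ (-(cl t)) * Complex.Gamma (cl t) * Complex.exp (-((Real.pi : ℂ) * I * cl t / 2))

lemma cl_re (t : ℝ) : (cl t).re = 1 / 2 := by simp [cl]
lemma cl_im (t : ℝ) : (cl t).im = t := by simp [cl]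

lemma norm_two_pi (t : ℝ) : ‖(2 * (Real.pi : ℂ)) ^ (-(cl t))‖ ^ 2 = 1 / (2 * Real.pi) := by
  have h : (2 * (Real.pi : ℂ)) = ((2 * Real.pi : ℝ) : ℂ) := by push_cast; ring
  have hp : (0 : ℝ) < 2 * Real.pi := by positivity
  rw [h, Complex.norm_cpow_eq_rpow_re_of_pos hp, Complex.neg_re, cl_re]
  rw [← Real.rpow_natCast, ← Real.rpow_mul hp.le]
  norm_num
  rw [Real.rpow_neg_one]
  simp

lemma norm_gamma_sq (t : ℝ) : ‖Complex.Gamma (cl t)‖ ^ 2 = Real.pi / Real.cosh (Real.pi * t) := by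
  have h1 : 1 - cl t = (starRingEnd ℂ) (cl t) := by
    apply Complex.ext
    · simp [cl]; norm_num
    · simp [cl]
  have h2 := Complex.Gamma_mul_Gamma_one_sub (cl t)
  rw [h1, Complex.Gamma_conj, Complex.mul_conj] at h2
  have h3 : Complex.sin ((Real.pi : ℂ) * cl t) = ((Real.cosh (Real.pi * t) : ℝ) : ℂ) := by
    have : (Real.pi : ℂ) * cl t = ((Real.pi * t : ℝ) : ℂ) * I + (Real.pi : ℂ) / 2 := by
      simp [cl]; ring
    rw [this, Complex.sin_add_pi_div_two, Complex.cos_mul_I, ← Complex.ofReal_cosh]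
  rw [h3, Complex.normSq_eq_norm_sq] at h2
  exact_mod_cast h2

lemma norm_Am (t : ℝ) : ‖Am t‖ ≤ 1 := by
  have h : ‖Am t‖ ^ 2 ≤ 1 := by
    unfold Am
    rw [norm_mul, norm_mul, mul_pow, mul_pow, norm_two_pi, norm_gamma_sq, Complex.norm_exp]
    have h1 : (-((Real.pi : ℂ) * I * cl t / 2)).re = Real.pi * t / 2 := by
      have : (-((Real.pi : ℂ) * I * cl t / 2)) = ((Real.pi * t / 2 : ℝ) : ℂ) +
          ((-(Real.pi / 4) : ℝ) : ℂ) * I := by
        simp only [cl]
        push_cast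
        linear_combination (-(Real.pi : ℂ) * t / 2) * I_mul_I
      rw [this]; simp
    rw [h1, ← Real.exp_nat_mul]
    have hc : 0 < Real.cosh (Real.pi * t) := Real.cosh_pos _
    have h2 : Real.exp (Real.pi * t) ≤ 2 * Real.cosh (Real.pi * t) := by
      rw [Real.cosh_eq]
      have := Real.exp_pos (-(Real.pi * t))
      linarith
    have hpi := Real.pi_pos
    have h3 : ((2 : ℕ) : ℝ) * (Real.pi * t / 2) = Real.pi * t := by push_cast; ring
    rw [h3]
    have : 1 / (2 * Real.pi) * (Real.pi / Real.cosh (Real.pi * t)) * Real.exp (Real.pi * t) =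
        Real.exp (Real.pi * t) / (2 * Real.cosh (Real.pi * t)) := by
      field_simp
    rw [this, div_le_one (by positivity)]
    exact h2
  have h0 := norm_nonneg (Am t)
  nlinarith

/-- `om X = om A (1 + e^{iπs})` -/
lemma Xf_eq (t : ℝ) : Xf (cl t) = Am t * (1 + Complex.exp ((Real.pi : ℂ) * I * cl t)) := by
  unfold Xf Am
  have h : 2 * Complex.cos ((Real.pi : ℂ) * cl t / 2) =
      Complex.exp (-((Real.pi : ℂ) * I * cl t / 2)) * (1 + Complex.exp ((Real.pi : ℂ) * I * cl t)) := by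
    rw [Complex.cos, mul_add, ← Complex.exp_add]
    have e1 : (Real.pi : ℂ) * cl t / 2 * I = -((Real.pi : ℂ) * I * cl t / 2) +
      (Real.pi : ℂ) * I * cl t := by ring
    have e2 : -((Real.pi : ℂ) * cl t / 2) * I = -((Real.pi : ℂ) * I * cl t / 2) := by ring
    rw [e1, e2]
    ring
  calc 2 * (2 * (Real.pi : ℂ)) ^ (-cl t) * Complex.Gamma (cl t) * Complex.cos ((Real.pi : ℂ) * cl t / 2)
      = (2 * (Real.pi : ℂ)) ^ (-cl t) * Complex.Gamma (cl t) *
        (2 * Complex.cos ((Real.pi : ℂ) * cl t / 2)) := by ring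
    _ = _ := by rw [h]; ring

lemma norm_exp_pi (t : ℝ) : ‖Complex.exp ((Real.pi : ℂ) * I * cl t)‖ = Real.exp (-(Real.pi * t)) := by
  rw [Complex.norm_exp]
  congr 1
  simp [cl]

/-- the logarithm of `1 - iδ` -/
def el (δ : ℝ) : ℂ := Complex.log (1 + (-(I * δ)))

lemma el_sub (δ : ℝ) (h0 : 0 < δ) (h1 : δ ≤ 1 / 2) : ‖el δ + I * δ‖ ≤ δ ^ 2 := by
  have hn : ‖(-(I * (δ : ℂ)))‖ = δ := by
    rw [norm_neg, norm_mul, Complex.norm_I, Complex.norm_real, one_mul, Real.norm_of_nonneg h0.le]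
  have h := Complex.norm_log_one_add_sub_self_le (z := -(I * (δ : ℂ))) (by rw [hn]; linarith)
  rw [hn, sub_neg_eq_add] at h
  refine h.trans ?_
  have : (1 - δ)⁻¹ ≤ 2 := by
    rw [inv_le_comm₀ (by linarith) (by norm_num)]
    linarith
  nlinarith [sq_nonneg δ]

lemma el_re (δ : ℝ) : 0 ≤ (el δ).re := by
  unfold el
  rw [Complex.log_re]
  apply Real.log_nonneg
  calc (1 : ℝ) = |(1 + (-(I * (δ : ℂ)))).re| := by simp
    _ ≤ _ := Complex.abs_re_le_norm _

lemma el_im (δ : ℝ) (h0 : 0 < δ) (h1 : δ ≤ 1 / 2) : (el δ).im ≤ -(δ / 2) := by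
  have h := el_sub δ h0 h1
  have h2 : |(el δ + I * δ).im| ≤ δ ^ 2 := (Complex.abs_im_le_norm _).trans h
  have h3 : (el δ + I * δ).im = (el δ).im + δ := by simp
  rw [h3] at h2
  have := (abs_le.1 h2).2
  nlinarith

lemma log_eq (δ : ℝ) :
    Complex.log (2 * Real.pi * Complex.I + 2 * Real.pi * δ) =
      Complex.log (2 * (Real.pi : ℂ)) + (Real.pi : ℂ) / 2 * I + el δ := by
  have hne : (1 + (-(I * (δ : ℂ)))) ≠ 0 := by
    intro h
    have := congrArg Complex.re h
    simp at this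
  have hpi : (2 * (Real.pi : ℂ)) ≠ 0 := by
    have := Real.pi_ne_zero
    simp [this]
  have harg : |(el δ).im| < Real.pi / 2 := by
    unfold el
    rw [Complex.log_im, Complex.abs_arg_lt_pi_div_two_iff]
    left
    simp
  have him : (Complex.log (2 * (Real.pi : ℂ))).im = 0 := by
    rw [Complex.log_im]
    have h : (2 * (Real.pi : ℂ)) = ((2 * Real.pi : ℝ) : ℂ) := by push_cast; ring
    rw [h, Complex.arg_ofReal_of_nonneg (by positivity)]
  have h1 : (Complex.log (2 * (Real.pi : ℂ)) + (Real.pi : ℂ) / 2 * I + el δ).im =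
      Real.pi / 2 + (el δ).im := by
    rw [Complex.add_im, Complex.add_im, him]
    have : ((Real.pi : ℂ) / 2 * I).im = Real.pi / 2 := by
      have : (Real.pi : ℂ) / 2 = ((Real.pi / 2 : ℝ) : ℂ) := by push_cast; ring
      rw [this]; simp
    rw [this]; ring
  have hp := Real.pi_pos
  rw [abs_lt] at harg
  rw [← Complex.log_exp (x := Complex.log (2 * (Real.pi : ℂ)) + (Real.pi : ℂ) / 2 * I + el δ)
    (by rw [h1]; linarith [harg.1]) (by rw [h1]; linarith [harg.2])]
  congr 1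
  rw [Complex.exp_add, Complex.exp_add, Complex.exp_log hpi]
  have h2 : Complex.exp (el δ) = 1 + (-(I * (δ : ℂ))) := Complex.exp_log hne
  have h3 : Complex.exp ((Real.pi : ℂ) / 2 * I) = I := Complex.exp_pi_div_two_mul_I
  rw [h2, h3]
  linear_combination (2 * (Real.pi : ℂ) * δ) * I_mul_I

lemma Gamma_add_nat (s : ℂ) (hs : 0 < s.re) (k : ℕ) :
    Complex.Gamma (s + k) = Complex.Gamma s * ∏ j ∈ range k, (s + j) := by
  induction k with
  | zero => simp
  | succ k ih =>
    rw [prod_range_succ]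
    have h1 : s + ((k + 1 : ℕ) : ℂ) = (s + k) + 1 := by push_cast; ring
    rw [h1, Complex.Gamma_add_one, ih]
    · ring
    · intro h
      have := congrArg Complex.re h
      simp at this
      have h2 : (0 : ℝ) ≤ k := Nat.cast_nonneg k
      linarith

def Pk (k : ℕ) (t : ℝ) : ℂ := ∏ j ∈ range k, ((t : ℂ) - I * (1 / 2 + (j : ℂ)))

lemma Gf_eq (k : ℕ) (δ t : ℝ) :
    Gf k δ (cl t) = ((δ ^ (k + 1) / (k.factorial : ℝ) : ℝ) : ℂ) * Am t *
      (Pk k t * Complex.exp (-(el δ * (cl t + k)))) := by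
  unfold Gf
  rw [Gamma_add_nat (cl t) (by rw [cl_re]; norm_num)]
  have hw : (2 * Real.pi * Complex.I + 2 * Real.pi * δ : ℂ) ≠ 0 := by
    intro h
    have := congrArg Complex.im h
    simp at this
  have hpi : (2 * (Real.pi : ℂ)) ≠ 0 := by
    have := Real.pi_ne_zero
    simp [this]
  rw [Complex.cpow_def_of_ne_zero hw, log_eq δ]
  have e1 : (Complex.log (2 * (Real.pi : ℂ)) + (Real.pi : ℂ) / 2 * I + el δ) * (-cl t - (k : ℂ)) =
      Complex.log (2 * (Real.pi : ℂ)) * (-cl t) + (k : ℂ) * (-Complex.log (2 * (Real.pi : ℂ))) +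
      (-((Real.pi : ℂ) * I * cl t / 2)) + (k : ℂ) * (-((Real.pi : ℂ) / 2 * I)) +
      (-(el δ * (cl t + k))) := by ring
  rw [e1, Complex.exp_add, Complex.exp_add, Complex.exp_add, Complex.exp_add, Complex.exp_nat_mul,
    Complex.exp_nat_mul]
  have e2 : Complex.exp (-Complex.log (2 * (Real.pi : ℂ))) = (2 * (Real.pi : ℂ))⁻¹ := by
    rw [Complex.exp_neg, Complex.exp_log hpi]
  have e3 : Complex.exp (-((Real.pi : ℂ) / 2 * I)) = -I := by
    rw [Complex.exp_neg, Complex.exp_pi_div_two_mul_I, Complex.inv_I]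
  have e4 : Complex.exp (Complex.log (2 * (Real.pi : ℂ)) * (-cl t)) = (2 * (Real.pi : ℂ)) ^ (-cl t) := by
    rw [Complex.cpow_def_of_ne_zero hpi]
  rw [e2, e3, e4]
  have e5 : Pk k t = (∏ j ∈ range k, (cl t + (j : ℂ))) * (-I) ^ k := by
    unfold Pk
    rw [← Finset.card_range k, ← Finset.prod_const, Finset.card_range, ← Finset.prod_mul_distrib]
    apply Finset.prod_congr rfl
    intro j _
    simp only [cl]
    linear_combination (t : ℂ) * I_mul_I
  rw [e5]
  unfold Am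
  have e6 : (((δ ^ (k + 1) * (2 * Real.pi) ^ k / (k.factorial : ℝ) : ℝ)) : ℂ) =
      ((δ ^ (k + 1) / (k.factorial : ℝ) : ℝ) : ℂ) * (2 * (Real.pi : ℂ)) ^ k := by
    push_cast; ring
  rw [e6]
  have e7 : (2 * (Real.pi : ℂ)) ^ k * ((2 * (Real.pi : ℂ))⁻¹) ^ k = 1 := by
    rw [← mul_pow, mul_inv_cancel₀ hpi, one_pow]
  linear_combination (((δ ^ (k + 1) / (k.factorial : ℝ) : ℝ) : ℂ) * (2 * (Real.pi : ℂ)) ^ (-cl t) *
    Complex.Gamma (cl t) * Complex.exp (-((Real.pi : ℂ) * I * cl t / 2)) *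
    ((∏ j ∈ range k, (cl t + (j : ℂ))) * (-I) ^ k) * Complex.exp (-(el δ * (cl t + k)))) * e7


lemma diff_eq (k : ℕ) (δ t : ℝ) :
    (om k δ t : ℂ) * Xf (cl t) - Gf k δ (cl t) =
      ((δ ^ (k + 1) / (k.factorial : ℝ) : ℝ) : ℂ) * Am t *
      (((t ^ k * Real.exp (-(δ * t)) : ℝ) : ℂ) * (1 + Complex.exp ((Real.pi : ℂ) * I * cl t)) -
        Pk k t * Complex.exp (-(el δ * (cl t + k)))) := by
  rw [Gf_eq k δ t, Xf_eq]
  have : ((om k δ t : ℝ) : ℂ) = ((δ ^ (k + 1) / (k.factorial : ℝ) : ℝ) : ℂ) *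
      ((t ^ k * Real.exp (-(δ * t)) : ℝ) : ℂ) := by
    unfold om
    rw [← Complex.ofReal_mul]
    congr 1
    ring
  rw [this]
  ring

lemma norm_Pk (k : ℕ) (t : ℝ) (ht : 0 < t) : ‖Pk k t‖ ≤ (t + k) ^ k := by
  unfold Pk
  refine (Finset.norm_prod_le _ _).trans ?_
  calc ∏ j ∈ range k, ‖((t : ℂ) - I * (1 / 2 + (j : ℂ)))‖ ≤ ∏ _j ∈ range k, (t + k) := by
        apply Finset.prod_le_prod
        · intro j _; exact norm_nonneg _
        · intro j hj
          have hj' : ((j : ℝ) + 1) ≤ k := by exact_mod_cast Finset.mem_range.1 hj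
          have h1 : ‖(I * (1 / 2 + (j : ℂ)))‖ = 1 / 2 + j := by
            rw [norm_mul, Complex.norm_I, one_mul]
            have : (1 / 2 + (j : ℂ)) = ((1 / 2 + (j : ℝ) : ℝ) : ℂ) := by push_cast; ring
            rw [this, Complex.norm_real, Real.norm_of_nonneg (by positivity)]
          calc ‖((t : ℂ) - I * (1 / 2 + (j : ℂ)))‖ ≤ ‖(t : ℂ)‖ + ‖I * (1 / 2 + (j : ℂ))‖ :=
                norm_sub_le _ _
            _ = t + (1 / 2 + j) := by rw [h1, Complex.norm_real, Real.norm_of_nonneg ht.le]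
            _ ≤ t + k := by linarith
    _ = (t + k) ^ k := by simp

lemma norm_R (k : ℕ) (δ t : ℝ) (h0 : 0 < δ) (h1 : δ ≤ 1 / 2) (ht : 0 < t) :
    ‖Complex.exp (-(el δ * (cl t + k)))‖ ≤ Real.exp (-(t * δ / 2)) := by
  rw [Complex.norm_exp]
  apply Real.exp_le_exp.2
  have h2 : (-(el δ * (cl t + k))).re = -((el δ).re * (1 / 2 + k)) + (el δ).im * t := by
    simp [cl]
    ring
  rw [h2]
  have h3 := el_re δ
  have h4 := el_im δ h0 h1
  have h5 : 0 ≤ (el δ).re * (1 / 2 + k) := by positivity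
  nlinarith

lemma gen_bound (k : ℕ) (δ t : ℝ) (h0 : 0 < δ) (h1 : δ ≤ 1 / 2) (ht : 0 < t) :
    ‖(om k δ t : ℂ) * Xf (cl t) - Gf k δ (cl t)‖ ≤
      3 * (δ ^ (k + 1) / (k.factorial : ℝ)) * ((t + k) ^ k * Real.exp (-(t * δ / 2))) := by
  rw [diff_eq k δ t, norm_mul, norm_mul]
  have hc : ‖((δ ^ (k + 1) / (k.factorial : ℝ) : ℝ) : ℂ)‖ = δ ^ (k + 1) / (k.factorial : ℝ) := by
    rw [Complex.norm_real, Real.norm_of_nonneg (by positivity)]
  rw [hc]
  have hA := norm_Am t
  have hmain : ‖(((t ^ k * Real.exp (-(δ * t)) : ℝ) : ℂ) *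
      (1 + Complex.exp ((Real.pi : ℂ) * I * cl t)) -
        Pk k t * Complex.exp (-(el δ * (cl t + k))))‖ ≤
      3 * ((t + k) ^ k * Real.exp (-(t * δ / 2))) := by
    have e1 : ‖(1 + Complex.exp ((Real.pi : ℂ) * I * cl t))‖ ≤ 2 := by
      calc ‖(1 + Complex.exp ((Real.pi : ℂ) * I * cl t))‖ ≤ ‖(1 : ℂ)‖ +
            ‖Complex.exp ((Real.pi : ℂ) * I * cl t)‖ := norm_add_le _ _
        _ = 1 + Real.exp (-(Real.pi * t)) := by rw [norm_one, norm_exp_pi]
        _ ≤ 2 := by
          have : Real.exp (-(Real.pi * t)) ≤ 1 := by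
            apply Real.exp_le_one_iff.2
            have := mul_pos Real.pi_pos ht
            linarith
          linarith
    have e2 : ‖((t ^ k * Real.exp (-(δ * t)) : ℝ) : ℂ)‖ ≤ (t + k) ^ k * Real.exp (-(t * δ / 2)) := by
      rw [Complex.norm_real, Real.norm_of_nonneg (by positivity)]
      apply mul_le_mul
      · apply pow_le_pow_left₀ ht.le
        have : (0 : ℝ) ≤ k := Nat.cast_nonneg k
        linarith
      · apply Real.exp_le_exp.2
        nlinarith [mul_pos ht h0]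
      · exact (Real.exp_pos _).le
      · positivity
    calc ‖(((t ^ k * Real.exp (-(δ * t)) : ℝ) : ℂ) *
      (1 + Complex.exp ((Real.pi : ℂ) * I * cl t)) -
        Pk k t * Complex.exp (-(el δ * (cl t + k))))‖ ≤
        ‖((t ^ k * Real.exp (-(δ * t)) : ℝ) : ℂ)‖ * ‖(1 + Complex.exp ((Real.pi : ℂ) * I * cl t))‖ +
        ‖Pk k t‖ * ‖Complex.exp (-(el δ * (cl t + k)))‖ := by
          rw [← norm_mul, ← norm_mul]
          exact norm_sub_le _ _
      _ ≤ ((t + k) ^ k * Real.exp (-(t * δ / 2))) * 2 + (t + k) ^ k * Real.exp (-(t * δ / 2)) := by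
          apply add_le_add
          · apply mul_le_mul e2 e1 (norm_nonneg _)
            positivity
          · apply mul_le_mul (norm_Pk k t ht) (norm_R k δ t h0 h1 ht) (norm_nonneg _)
            positivity
      _ = _ := by ring
  have h3 : 0 ≤ δ ^ (k + 1) / (k.factorial : ℝ) := by positivity
  calc δ ^ (k + 1) / (k.factorial : ℝ) * ‖Am t‖ * ‖(((t ^ k * Real.exp (-(δ * t)) : ℝ) : ℂ) *
      (1 + Complex.exp ((Real.pi : ℂ) * I * cl t)) -
        Pk k t * Complex.exp (-(el δ * (cl t + k))))‖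
      ≤ δ ^ (k + 1) / (k.factorial : ℝ) * 1 * (3 * ((t + k) ^ k * Real.exp (-(t * δ / 2)))) := by
        gcongr
    _ = _ := by ring

/-- `P = t^k (1 + p)` with `|p| ≤ k²/t` -/
lemma Pk_near (k : ℕ) (t : ℝ) (ht : 0 < t) (hk : (k : ℝ) ^ 2 ≤ 2 * t) :
    ∃ p : ℂ, Pk k t = ((t ^ k : ℝ) : ℂ) * (1 + p) ∧ ‖p‖ ≤ (k : ℝ) ^ 2 / t := by
  have htc : (t : ℂ) ≠ 0 := by exact_mod_cast ht.ne'
  refine ⟨(∏ j ∈ range k, (1 + (-(I * (1 / 2 + (j : ℂ)) / t)))) - 1, ?_, ?_⟩
  · rw [add_sub_cancel]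
    unfold Pk
    have : ((t ^ k : ℝ) : ℂ) = ∏ _j ∈ range k, (t : ℂ) := by simp
    rw [this, ← Finset.prod_mul_distrib]
    apply Finset.prod_congr rfl
    intro j _
    field_simp
    ring
  · refine (Finset.norm_prod_one_add_sub_one_le _ _).trans ?_
    have h1 : ∀ j ∈ range k, ‖(-(I * (1 / 2 + (j : ℂ)) / (t : ℂ)))‖ = (1 / 2 + j) / t := by
      intro j _
      rw [norm_neg, norm_div, norm_mul, Complex.norm_I, one_mul, Complex.norm_real,
        Real.norm_of_nonneg ht.le]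
      have : (1 / 2 + (j : ℂ)) = ((1 / 2 + (j : ℝ) : ℝ) : ℂ) := by push_cast; ring
      rw [this, Complex.norm_real, Real.norm_of_nonneg (by positivity)]
    rw [Finset.sum_congr rfl h1]
    have h2 : ∑ j ∈ range k, (1 / 2 + (j : ℝ)) / t = (k : ℝ) ^ 2 / (2 * t) := by
      rw [← Finset.sum_div]
      have : ∑ j ∈ range k, (1 / 2 + (j : ℝ)) = (k : ℝ) ^ 2 / 2 := by
        clear h1 hk
        induction k with
        | zero => simp
        | succ k ih => rw [Finset.sum_range_succ, ih]; push_cast; ring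
      rw [this]
      field_simp
    rw [h2]
    have hx : (k : ℝ) ^ 2 / (2 * t) ≤ 1 := by
      rw [div_le_one (by positivity)]; exact hk
    have hx0 : 0 ≤ (k : ℝ) ^ 2 / (2 * t) := by positivity
    have h3 := Real.abs_exp_sub_one_le (x := (k : ℝ) ^ 2 / (2 * t)) (by rw [abs_of_nonneg hx0]; exact hx)
    rw [abs_of_nonneg hx0] at h3
    have h4 : 2 * ((k : ℝ) ^ 2 / (2 * t)) = (k : ℝ) ^ 2 / t := by field_simp
    linarith [le_abs_self (Real.exp ((k : ℝ) ^ 2 / (2 * t)) - 1)]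

lemma R_near (k : ℕ) (δ t : ℝ) (h0 : 0 < δ) (h1 : δ ≤ 1 / 2) (ht : 0 < t)
    (hr : δ ^ 2 * (t + k + 1) + δ * (k + 1 / 2) ≤ 1) :
    ∃ r : ℂ, Complex.exp (-(el δ * (cl t + k))) = ((Real.exp (-(δ * t)) : ℝ) : ℂ) * (1 + r) ∧
      ‖r‖ ≤ 2 * (δ ^ 2 * (t + k + 1) + δ * (k + 1 / 2)) := by
  set w : ℂ := -((el δ + I * δ) * (cl t + k)) + I * δ * (k + 1 / 2) with hw
  have hwn : ‖w‖ ≤ δ ^ 2 * (t + k + 1) + δ * (k + 1 / 2) := by
    have e1 : ‖cl t + k‖ ≤ t + k + 1 := by
      have : cl t + k = ((t : ℝ) : ℂ) * I + (((k : ℝ) + 1 / 2 : ℝ) : ℂ) := by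
        simp [cl]; ring
      rw [this]
      refine (norm_add_le _ _).trans ?_
      rw [norm_mul, Complex.norm_I, Complex.norm_real, Complex.norm_real,
        Real.norm_of_nonneg ht.le, Real.norm_of_nonneg (by positivity)]
      linarith
    have e2 : ‖I * (δ : ℂ) * (k + 1 / 2)‖ = δ * (k + 1 / 2) := by
      have : I * (δ : ℂ) * (k + 1 / 2) = ((δ * (k + 1 / 2) : ℝ) : ℂ) * I := by push_cast; ring
      rw [this, norm_mul, Complex.norm_I, mul_one, Complex.norm_real,
        Real.norm_of_nonneg (by positivity)]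
    calc ‖w‖ ≤ ‖-((el δ + I * δ) * (cl t + k))‖ + ‖I * (δ : ℂ) * (k + 1 / 2)‖ := norm_add_le _ _
      _ = ‖el δ + I * δ‖ * ‖cl t + k‖ + δ * (k + 1 / 2) := by rw [norm_neg, norm_mul, e2]
      _ ≤ δ ^ 2 * (t + k + 1) + δ * (k + 1 / 2) := by
        gcongr
        exact el_sub δ h0 h1
  refine ⟨Complex.exp w - 1, ?_, ?_⟩
  · rw [add_sub_cancel, Complex.ofReal_exp, ← Complex.exp_add]
    congr 1
    rw [hw]
    simp only [cl]
    push_cast
    linear_combination ((δ : ℂ) * t) * I_mul_I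
  · have := Complex.norm_exp_sub_one_le (x := w) (hwn.trans hr)
    linarith

lemma A_bound (k : ℕ) (δ t : ℝ) (h0 : 0 < δ) (h1 : δ ≤ 1 / 2) (ht : 0 < t)
    (hk : (k : ℝ) ^ 2 ≤ 2 * t) (hr : δ ^ 2 * (t + k + 1) + δ * (k + 1 / 2) ≤ 1) :
    ‖(om k δ t : ℂ) * Xf (cl t) - Gf k δ (cl t)‖ ≤ om k δ t * (Real.exp (-(Real.pi * t)) +
      (k : ℝ) ^ 2 / t + 2 * (δ ^ 2 * (t + k + 1) + δ * (k + 1 / 2)) +
      (k : ℝ) ^ 2 / t * (2 * (δ ^ 2 * (t + k + 1) + δ * (k + 1 / 2)))) := by
  obtain ⟨p, hp, hpn⟩ := Pk_near k t ht hk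
  obtain ⟨r, hr1, hrn⟩ := R_near k δ t h0 h1 ht hr
  rw [diff_eq k δ t, hp, hr1]
  have e : ((δ ^ (k + 1) / (k.factorial : ℝ) : ℝ) : ℂ) * Am t *
      (((t ^ k * Real.exp (-(δ * t)) : ℝ) : ℂ) * (1 + Complex.exp ((Real.pi : ℂ) * I * cl t)) -
        ((t ^ k : ℝ) : ℂ) * (1 + p) * (((Real.exp (-(δ * t)) : ℝ) : ℂ) * (1 + r))) =
      (om k δ t : ℂ) * (Am t * (Complex.exp ((Real.pi : ℂ) * I * cl t) - p - r - p * r)) := by
    unfold om
    push_cast
    ring
  rw [e, norm_mul]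
  have hom : 0 ≤ om k δ t := by unfold om; positivity
  rw [Complex.norm_real, Real.norm_of_nonneg hom]
  apply mul_le_mul_of_nonneg_left _ hom
  rw [norm_mul]
  calc ‖Am t‖ * ‖Complex.exp ((Real.pi : ℂ) * I * cl t) - p - r - p * r‖
      ≤ 1 * (‖Complex.exp ((Real.pi : ℂ) * I * cl t)‖ + ‖p‖ + ‖r‖ + ‖p‖ * ‖r‖) := by
        apply mul_le_mul (norm_Am t) _ (norm_nonneg _) zero_le_one
        rw [← norm_mul p r]
        refine (norm_sub_le _ _).trans ?_
        gcongr
        refine (norm_sub_le _ _).trans ?_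
        gcongr
        exact norm_sub_le _ _
    _ ≤ _ := by
        rw [one_mul, norm_exp_pi]
        gcongr


/-- far regions: bound by a `k`-th power -/
lemma far_bound (k : ℕ) (T t : ℝ) (hT : 0 < T) (hk : 1 ≤ k) (h1 : (k : ℝ) / T ≤ 1 / 3) (ht : 0 < t) :
    ‖(om k (k / T) t : ℂ) * Xf (cl t) - Gf k (k / T) (cl t)‖ ≤
      (Real.exp 1 * ((t + k) / T) * Real.exp (-(t / T / 2))) ^ k := by
  have hk0 : (0 : ℝ) < k := by exact_mod_cast hk
  have h0 : 0 < (k : ℝ) / T := by positivity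
  refine (gen_bound k (k / T) t h0 (by linarith) ht).trans ?_
  have hf : (k : ℝ) ^ k / (k.factorial : ℝ) ≤ Real.exp k := Real.pow_div_factorial_le_exp (k : ℝ) hk0.le k
  have e1 : 3 * (((k : ℝ) / T) ^ (k + 1) / (k.factorial : ℝ)) *
      ((t + k) ^ k * Real.exp (-(t * (k / T) / 2))) =
      (3 * ((k : ℝ) / T)) * (((k : ℝ) ^ k / (k.factorial : ℝ)) *
        (((t + k) / T) ^ k * Real.exp (-(t * (k / T) / 2)))) := by
    rw [pow_succ, div_pow, div_pow]
    ring
  have e2 : (Real.exp 1 * ((t + k) / T) * Real.exp (-(t / T / 2))) ^ k =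
      Real.exp k * (((t + k) / T) ^ k * Real.exp (-(t * (k / T) / 2))) := by
    rw [mul_pow, mul_pow, ← Real.exp_nat_mul, ← Real.exp_nat_mul, mul_one, mul_assoc]
    congr 3
    ring
  rw [e1, e2]
  have h3 : 0 ≤ ((t + k) / T) ^ k * Real.exp (-(t * (k / T) / 2)) := by positivity
  have h4 : 0 ≤ (k : ℝ) ^ k / (k.factorial : ℝ) := by positivity
  calc (3 * ((k : ℝ) / T)) * (((k : ℝ) ^ k / (k.factorial : ℝ)) *
        (((t + k) / T) ^ k * Real.exp (-(t * (k / T) / 2))))
      ≤ 1 * (((k : ℝ) ^ k / (k.factorial : ℝ)) *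
        (((t + k) / T) ^ k * Real.exp (-(t * (k / T) / 2)))) := by
        apply mul_le_mul_of_nonneg_right _ (mul_nonneg h4 h3)
        linarith
    _ = ((k : ℝ) ^ k / (k.factorial : ℝ)) *
        (((t + k) / T) ^ k * Real.exp (-(t * (k / T) / 2))) := one_mul _
    _ ≤ _ := by
        apply mul_le_mul_of_nonneg_right hf h3

lemma core (x : ℝ) (hx : 1000 ≤ x) (hx4 : 133 * x ^ 4 ≤ Real.exp (0.15 * x)) (k : ℕ)
    (hk1 : x ^ 2 ≤ k) (hk2 : (k : ℝ) ≤ 4 * x ^ 2) (t : ℝ) (ht : 0 < t) :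
    ‖(om k (k / Real.exp x) t : ℂ) * Xf (cl t) - Gf k (k / Real.exp x) (cl t)‖ ≤
      (Real.exp x) ^ (-(3 / 4) : ℝ) * om k (k / Real.exp x) t +
        (Real.exp x) ^ (-20 : ℝ) * (1 + t) ^ (-20 : ℝ) := by
  set T := Real.exp x with hTdef
  have hT : 0 < T := Real.exp_pos x
  have hx0 : 0 < x := by linarith
  have hk0 : (0 : ℝ) < k := lt_of_lt_of_le (by positivity) hk1
  have hkn : 1 ≤ k := by
    have : 0 < k := by exact_mod_cast hk0
    omega
  have hx1 : 1 ≤ x := by linarith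
  have hx2 : x ^ 2 ≤ x ^ 4 := pow_le_pow_right₀ hx1 (by norm_num)
  have hx2' : 1 ≤ x ^ 2 := one_le_pow₀ hx1
  have hexp : ∀ a : ℝ, 0.15 ≤ a → Real.exp (0.15 * x) ≤ Real.exp (a * x) := by
    intro a ha
    apply Real.exp_le_exp.2
    nlinarith
  have hom : 0 ≤ om k (k / T) t := by unfold om; positivity
  have hT1 : 0 ≤ T ^ (-(3 / 4) : ℝ) := by positivity
  have hT2 : 0 ≤ T ^ (-20 : ℝ) * (1 + t) ^ (-20 : ℝ) := by positivity
  have hδ : (k : ℝ) / T ≤ 1 / 3 := by
    rw [div_le_iff₀ hT]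
    have h1 := hexp 1 (by norm_num)
    rw [one_mul] at h1
    have : (133 : ℝ) * x ^ 4 ≤ T := hx4.trans h1
    nlinarith
  have hT20 : T ^ (-20 : ℝ) = Real.exp (-20 * x) := by
    rw [hTdef, ← Real.exp_mul]; ring_nf
  rcases le_total t (Real.exp (0.9 * x)) with hB | hB
  · -- region B
    have hmain := far_bound k T t hT hkn hδ ht
    have hq : Real.exp 1 * ((t + k) / T) * Real.exp (-(t / T / 2)) ≤ Real.exp (-0.05 * x) := by
      have h1 : (t + k) / T ≤ 2 * Real.exp (-0.1 * x) := by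
        rw [div_le_iff₀ hT]
        have h2 : (k : ℝ) ≤ Real.exp (0.9 * x) := by
          have := hexp 0.9 (by norm_num)
          nlinarith
        have h3 : 2 * Real.exp (-0.1 * x) * T = 2 * Real.exp (0.9 * x) := by
          rw [hTdef, mul_assoc, ← Real.exp_add]; ring_nf
        rw [h3]; linarith
      have h4 : Real.exp (-(t / T / 2)) ≤ 1 := by
        apply Real.exp_le_one_iff.2
        have : 0 ≤ t / T / 2 := by positivity
        linarith
      have h5 : 2 * Real.exp 1 ≤ Real.exp (0.05 * x) := by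
        have h6 : Real.exp 2 ≤ Real.exp (0.05 * x) := by
          apply Real.exp_le_exp.2; linarith
        have h7 : (2 : ℝ) ≤ Real.exp 1 := by linarith [Real.add_one_le_exp (1 : ℝ)]
        have h8 : Real.exp 2 = Real.exp 1 * Real.exp 1 := by rw [← Real.exp_add]; norm_num
        nlinarith [Real.exp_pos (1 : ℝ)]
      calc Real.exp 1 * ((t + k) / T) * Real.exp (-(t / T / 2)) ≤
          Real.exp 1 * (2 * Real.exp (-0.1 * x)) * 1 := by
            gcongr
        _ = (2 * Real.exp 1) * Real.exp (-0.1 * x) := by ring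
        _ ≤ Real.exp (0.05 * x) * Real.exp (-0.1 * x) := by gcongr
        _ = Real.exp (-0.05 * x) := by rw [← Real.exp_add]; ring_nf
    have hq2 : (Real.exp 1 * ((t + k) / T) * Real.exp (-(t / T / 2))) ^ k ≤ Real.exp (-40 * x) := by
      calc (Real.exp 1 * ((t + k) / T) * Real.exp (-(t / T / 2))) ^ k ≤ (Real.exp (-0.05 * x)) ^ k := by
            apply pow_le_pow_left₀ (by positivity) hq
        _ = Real.exp (k * (-0.05 * x)) := by rw [← Real.exp_nat_mul]
        _ ≤ Real.exp (-40 * x) := by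
            apply Real.exp_le_exp.2
            nlinarith
    have hr : Real.exp (-40 * x) ≤ T ^ (-20 : ℝ) * (1 + t) ^ (-20 : ℝ) := by
      have h1 : 1 + t ≤ T := by
        have h2 : Real.exp (0.9 * x) * 2 ≤ T := by
          have : T = Real.exp (0.9 * x) * Real.exp (0.1 * x) := by
            rw [hTdef, ← Real.exp_add]; ring_nf
          rw [this]
          gcongr
          linarith [Real.add_one_le_exp (0.1 * x)]
        have h3 : 1 ≤ Real.exp (0.9 * x) := Real.one_le_exp (by positivity)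
        linarith
      have h4 : T ^ (-20 : ℝ) ≤ (1 + t) ^ (-20 : ℝ) :=
        Real.rpow_le_rpow_of_nonpos (by linarith) h1 (by norm_num)
      calc Real.exp (-40 * x) = T ^ (-20 : ℝ) * T ^ (-20 : ℝ) := by
            rw [hT20, ← Real.exp_add]; ring_nf
        _ ≤ _ := by gcongr
    have := mul_nonneg hT1 hom
    linarith
  · rcases le_total t (Real.exp (1.1 * x)) with hA | hC
    · -- region A
      have hk4 : (k : ℝ) ^ 2 ≤ 16 * x ^ 4 := by
        calc (k : ℝ) ^ 2 ≤ (4 * x ^ 2) ^ 2 := by gcongr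
          _ = 16 * x ^ 4 := by ring
      set u := Real.exp (-0.9 * x) with hu
      have hu0 : 0 < u := Real.exp_pos _
      have hu1 : u * Real.exp (0.9 * x) = 1 := by
        rw [hu, ← Real.exp_add]; ring_nf; simp
      have hut : 1 / t ≤ u := by
        rw [div_le_iff₀ ht]
        nlinarith
      have hxu : 133 * x ^ 4 * u ≤ Real.exp (-0.75 * x) := by
        calc 133 * x ^ 4 * u ≤ Real.exp (0.15 * x) * u := by gcongr
          _ = Real.exp (-0.75 * x) := by rw [hu, ← Real.exp_add]; ring_nf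
      have hxu1 : 133 * x ^ 4 * u ≤ 1 := by
        refine hxu.trans ?_
        apply Real.exp_le_one_iff.2
        linarith
      have h1 : (k : ℝ) ^ 2 / t ≤ 16 * x ^ 4 * u := by
        calc (k : ℝ) ^ 2 / t = (k : ℝ) ^ 2 * (1 / t) := by ring
          _ ≤ 16 * x ^ 4 * u := by gcongr
      have h2 : (k : ℝ) ^ 2 ≤ 2 * t := by
        have : (k : ℝ) ^ 2 / t ≤ 1 := by
          have : 0 ≤ x ^ 4 * u := by positivity
          linarith
        rw [div_le_one ht] at this
        linarith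
      have hδ2 : ((k : ℝ) / T) ^ 2 * (t + k + 1) ≤ 32 * x ^ 4 * u := by
        have h3 : t + k + 1 ≤ 2 * Real.exp (1.1 * x) := by
          have := hexp 1.1 (by norm_num)
          nlinarith
        calc ((k : ℝ) / T) ^ 2 * (t + k + 1) = (k : ℝ) ^ 2 * (t + k + 1) * (1 / T ^ 2) := by
              field_simp
          _ ≤ (16 * x ^ 4) * (2 * Real.exp (1.1 * x)) * (1 / T ^ 2) := by gcongr
          _ = 32 * x ^ 4 * (Real.exp (1.1 * x) * (1 / T ^ 2)) := by ring
          _ = 32 * x ^ 4 * u := by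
              congr 1
              rw [hTdef, hu, ← Real.exp_nat_mul, one_div, ← Real.exp_neg, ← Real.exp_add]
              congr 1
              push_cast
              ring
      have hδ1 : ((k : ℝ) / T) * (k + 1 / 2) ≤ 18 * x ^ 4 * u := by
        have h3 : 1 / T ≤ u := by
          rw [hTdef, hu, one_div, ← Real.exp_neg]
          apply Real.exp_le_exp.2
          linarith
        have h4 : (k : ℝ) * (k + 1 / 2) ≤ 18 * x ^ 4 := by
          have : (k : ℝ) * (1 / 2) ≤ 2 * x ^ 4 := by linarith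
          nlinarith
        calc ((k : ℝ) / T) * (k + 1 / 2) = (k : ℝ) * (k + 1 / 2) * (1 / T) := by ring
          _ ≤ 18 * x ^ 4 * u := by gcongr
      have hpos : 0 ≤ x ^ 4 * u := by positivity
      have hr : ((k : ℝ) / T) ^ 2 * (t + k + 1) + ((k : ℝ) / T) * (k + 1 / 2) ≤ 1 := by
        linarith
      have hmain := A_bound k (k / T) t (by positivity) (by linarith) ht h2 hr
      refine hmain.trans ?_
      have hex : Real.exp (-(Real.pi * t)) ≤ x ^ 4 * u := by
        have h5 : Real.exp (-(Real.pi * t)) ≤ 1 / t := by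
          rw [Real.exp_neg, one_div]
          apply inv_anti₀ ht
          have h6 : t + 1 ≤ Real.exp t := Real.add_one_le_exp t
          have h7 : Real.exp t ≤ Real.exp (Real.pi * t) := by
            apply Real.exp_le_exp.2
            nlinarith [Real.pi_gt_three]
          linarith
        have h8 : u ≤ x ^ 4 * u := by
          have : 1 ≤ x ^ 4 := one_le_pow₀ hx1
          nlinarith
        linarith
      have hpr : (k : ℝ) ^ 2 / t * (2 * (((k : ℝ) / T) ^ 2 * (t + k + 1) + ((k : ℝ) / T) * (k + 1 / 2))) ≤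
          16 * x ^ 4 * u := by
        calc (k : ℝ) ^ 2 / t * (2 * (((k : ℝ) / T) ^ 2 * (t + k + 1) + ((k : ℝ) / T) * (k + 1 / 2)))
            ≤ (16 * x ^ 4 * u) * 1 := by
              apply mul_le_mul h1 _ (by positivity) (by positivity)
              linarith
          _ = _ := by ring
      have hsum : Real.exp (-(Real.pi * t)) + (k : ℝ) ^ 2 / t +
          2 * (((k : ℝ) / T) ^ 2 * (t + k + 1) + ((k : ℝ) / T) * (k + 1 / 2)) +
          (k : ℝ) ^ 2 / t * (2 * (((k : ℝ) / T) ^ 2 * (t + k + 1) + ((k : ℝ) / T) * (k + 1 / 2))) ≤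
          T ^ (-(3 / 4) : ℝ) := by
        have : T ^ (-(3 / 4) : ℝ) = Real.exp (-0.75 * x) := by
          rw [hTdef, ← Real.exp_mul]; ring_nf
        rw [this]
        linarith
      calc _ ≤ om k (k / T) t * T ^ (-(3 / 4) : ℝ) := mul_le_mul_of_nonneg_left hsum hom
        _ ≤ _ := by linarith
    · -- region C
      have hmain := far_bound k T t hT hkn hδ ht
      set v := t / T with hv
      have hvT : t = v * T := by rw [hv]; field_simp
      have hv1 : Real.exp (0.1 * x) ≤ v := by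
        rw [hv, le_div_iff₀ hT, hTdef, ← Real.exp_add]
        refine le_trans (le_of_eq ?_) hC
        ring_nf
      have hv100 : 100 ≤ v := by
        have := Real.add_one_le_exp (0.1 * x)
        linarith
      have hkt : (k : ℝ) ≤ t := by
        have := hexp 0.9 (by norm_num)
        nlinarith
      have hq : Real.exp 1 * ((t + k) / T) * Real.exp (-(v / 2)) ≤ Real.exp (-(v / 4)) := by
        have h1 : (t + k) / T ≤ 2 * v := by
          rw [hv, div_le_iff₀ hT]
          have : 2 * (t / T) * T = 2 * t := by field_simp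
          rw [this]; linarith
        have h2 : 2 * Real.exp 1 * v ≤ Real.exp (v / 4) := by
          have h3 : v / 12 ≤ Real.exp (v / 12) := by linarith [Real.add_one_le_exp (v / 12)]
          have h4 : Real.exp (v / 4) = Real.exp (v / 12) ^ 3 := by
            rw [← Real.exp_nat_mul]; congr 1; push_cast; ring
          have h5 : (v / 12) ^ 3 ≤ Real.exp (v / 12) ^ 3 := by gcongr
          rw [h4]
          refine le_trans ?_ h5
          have h6 : Real.exp 1 < 2.7182818286 := Real.exp_one_lt_d9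
          have h7 : (v / 12) ^ 3 = v * (v ^ 2 / 1728) := by ring
          rw [h7]
          have h8 : (10000 : ℝ) ≤ v ^ 2 := by nlinarith
          nlinarith
        calc Real.exp 1 * ((t + k) / T) * Real.exp (-(v / 2)) ≤
            Real.exp 1 * (2 * v) * Real.exp (-(v / 2)) := by gcongr
          _ = (2 * Real.exp 1 * v) * Real.exp (-(v / 2)) := by ring
          _ ≤ Real.exp (v / 4) * Real.exp (-(v / 2)) := by gcongr
          _ = Real.exp (-(v / 4)) := by rw [← Real.exp_add]; ring_nf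
      have hq2 : (Real.exp 1 * ((t + k) / T) * Real.exp (-(v / 2))) ^ k ≤
          Real.exp (-40 * x - 20 * v) := by
        calc (Real.exp 1 * ((t + k) / T) * Real.exp (-(v / 2))) ^ k ≤ (Real.exp (-(v / 4))) ^ k := by
              apply pow_le_pow_left₀ (by positivity) hq
          _ = Real.exp (k * (-(v / 4))) := by rw [← Real.exp_nat_mul]
          _ ≤ Real.exp (-40 * x - 20 * v) := by
              apply Real.exp_le_exp.2
              have h1 : x ^ 2 * (v / 4) ≤ k * (v / 4) := by gcongr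
              have h2 : (40 * x + 20) * v ≤ x ^ 2 / 4 * v := by
                apply mul_le_mul_of_nonneg_right _ (by linarith)
                nlinarith
              have h3 : 40 * x ≤ 40 * x * v := by nlinarith
              nlinarith
      have hr : Real.exp (-40 * x - 20 * v) ≤ T ^ (-20 : ℝ) * (1 + t) ^ (-20 : ℝ) := by
        have h1 : 1 + t ≤ Real.exp (x + v) := by
          rw [Real.exp_add, hvT]
          have h2 : 2 * v ≤ Real.exp v := by
            have h3 : v / 2 ≤ Real.exp (v / 2) := by linarith [Real.add_one_le_exp (v / 2)]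
            have h4 : Real.exp v = Real.exp (v / 2) ^ 2 := by
              rw [← Real.exp_nat_mul]; congr 1; push_cast; ring
            rw [h4]
            nlinarith
          have h5 : 1 ≤ v * T := by
            have : 1 ≤ T := Real.one_le_exp hx0.le
            nlinarith
          nlinarith
        have h4 : (Real.exp (x + v)) ^ (-20 : ℝ) ≤ (1 + t) ^ (-20 : ℝ) :=
          Real.rpow_le_rpow_of_nonpos (by linarith) h1 (by norm_num)
        calc Real.exp (-40 * x - 20 * v) = T ^ (-20 : ℝ) * (Real.exp (x + v)) ^ (-20 : ℝ) := by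
              rw [hT20, ← Real.exp_mul, ← Real.exp_add]; ring_nf
          _ ≤ _ := by gcongr
      have := mul_nonneg hT1 hom
      linarith

/-- T4a -/
theorem Gf_approx : ∀ᶠ T : ℝ in atTop, ∀ k : ℕ, Real.log T ^ 2 ≤ k → (k : ℝ) ≤ 4 * Real.log T ^ 2 →
      ∀ t : ℝ, 0 < t → ‖(om k (k / T) t : ℂ) * Xf (cl t) - Gf k (k / T) (cl t)‖ ≤
        T ^ (-(3 / 4) : ℝ) * om k (k / T) t + T ^ (-20 : ℝ) * (1 + t) ^ (-20 : ℝ) := by
  have h1 : ∀ᶠ x : ℝ in atTop, 133 * x ^ 4 ≤ Real.exp (0.15 * x) := by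
    have h := (isLittleO_pow_exp_pos_mul_atTop 4 (b := 0.15) (by norm_num)).bound
      (c := 1 / 133) (by norm_num)
    filter_upwards [h, eventually_ge_atTop 0] with x hx hx0
    rw [Real.norm_of_nonneg (by positivity), Real.norm_of_nonneg (by positivity)] at hx
    linarith
  have h2 := Real.tendsto_log_atTop.eventually (h1.and (eventually_ge_atTop (1000 : ℝ)))
  filter_upwards [h2, eventually_gt_atTop 0] with T hT hT0
  intro k hk1 hk2 t ht
  have := core (Real.log T) hT.2 hT.1 k hk1 hk2 t ht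
  rw [Real.exp_log hT0] at this
  exact this

end

end Pool.Agent.H800R2.SM4a
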