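import Pool.Agent.H800R2.Front

set_option autoImplicit false

open Set Filter Topology

namespace Pool.Agent.H800R2

open scoped RealInnerProductSpace ContDiff

namespace Ball

variable {n : ℕ}

theorem gradient_normSq (x : Euc n) :
    gradient (fun y : Euc n => ‖y‖ ^ 2 - 1) x = (2 : ℝ) • x := by
  refine HasGradientAt.gradient ?_
  rw [hasGradientAt_iff_hasFDerivAt]
  have h1 := (hasStrictFDerivAt_norm_sq x).hasFDerivAt.sub_const 1
  refine h1.congr_fderiv ?_
  ext w
  simp

theorem isDefFun (x : Euc n) (hx : ‖x‖ = 1) :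
    IsDefFun (Metric.ball (0 : Euc n) 1) x (fun y => ‖y‖ ^ 2 - 1) := by
  refine ⟨(contDiff_norm_sq ℝ).sub contDiff_const, ?_, Eventually.of_forall fun y => ?_⟩
  · rw [gradient_normSq]
    intro h
    have : x = 0 := by simpa using h
    rw [this, norm_zero] at hx
    norm_num at hx
  · rw [mem_ball_zero_iff, sub_neg, sq_lt_one_iff₀ (norm_nonneg _)]

theorem isOuterNormal (x : Euc n) (hx : ‖x‖ = 1) :
    IsOuterNormal (Metric.ball (0 : Euc n) 1) x x := by
  refine ⟨_, isDefFun x hx, ?_⟩
  rw [gradient_normSq, norm_smul, hx, smul_smul]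
  norm_num

theorem mem_frontier_iff (x : Euc n) (_ : 0 < n) :
    x ∈ frontier (Metric.ball (0 : Euc n) 1) ↔ ‖x‖ = 1 := by
  rw [frontier_ball _ one_ne_zero, mem_sphere_zero_iff_norm]

theorem isOuterNormal_eq {x ν : Euc n} (hn : 0 < n) (hx : ‖x‖ = 1)
    (h : IsOuterNormal (Metric.ball (0 : Euc n) 1) x ν) : ν = x := by
  obtain ⟨F, hF, rfl⟩ := h
  rw [hF.normal_unique (isDefFun x hx) Metric.isOpen_ball ((mem_frontier_iff x hn).2 hx),
    gradient_normSq, norm_smul, hx, smul_smul]
  norm_num

/-- the isometric plane spanned by two orthonormal vectors -/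
noncomputable def pl (a b : Euc n) (z : ℂ) : Euc n := z.re • a + z.im • b

section
variable {a b : Euc n} (ha : ‖a‖ = 1) (hb : ‖b‖ = 1) (hab : ⟪a, b⟫ = 0)
include ha hb hab

theorem inner_pl (z w : ℂ) : ⟪pl a b z, pl a b w⟫ = z.re * w.re + z.im * w.im := by
  have hba : ⟪b, a⟫ = 0 := by rw [real_inner_comm]; exact hab
  unfold pl
  rw [inner_add_left, inner_add_right, inner_add_right]
  simp only [real_inner_smul_left, real_inner_smul_right, real_inner_self_eq_norm_sq, ha, hb, hab,
    hba]
  ring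

theorem norm_pl (z : ℂ) : ‖pl a b z‖ = ‖z‖ := by
  have h := inner_pl ha hb hab z z
  rw [real_inner_self_eq_norm_sq] at h
  have h2 : ‖z‖ ^ 2 = z.re * z.re + z.im * z.im := by
    rw [← Complex.normSq_eq_norm_sq, Complex.normSq_apply]
  rw [← h2] at h
  exact (sq_eq_sq₀ (norm_nonneg _) (norm_nonneg _)).1 h

omit ha hb hab in
theorem pl_add (z w : ℂ) : pl a b (z + w) = pl a b z + pl a b w := by
  unfold pl
  rw [Complex.add_re, Complex.add_im, add_smul, add_smul]
  abel

omit ha hb hab in
theorem pl_sub (z w : ℂ) : pl a b (z - w) = pl a b z - pl a b w := by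
  unfold pl
  rw [Complex.sub_re, Complex.sub_im, sub_smul, sub_smul]
  abel

omit ha hb hab in
theorem pl_smul (r : ℝ) (w : ℂ) : pl a b (r * w) = r • pl a b w := by
  unfold pl
  rw [Complex.re_ofReal_mul, Complex.im_ofReal_mul, smul_add, smul_smul, smul_smul]

omit ha hb hab in
theorem norm_sq_chord (s m : ℝ) (u : ℂ) (hu : ‖u‖ = 1) :
    ‖((s : ℂ) - m * Complex.I) * u‖ ^ 2 = s ^ 2 + m ^ 2 := by
  rw [norm_mul, hu, mul_one, ← Complex.normSq_eq_norm_sq, Complex.normSq_apply]
  simp
  ring

/-- Explicit billiard in the unit ball: `c = cos χ`, `m = sin χ`, chord with direction `u`. -/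
theorem flight (hn : 0 < n) {c m : ℝ} (hc : 0 < c) (hcm : c ^ 2 + m ^ 2 = 1) (k : ℕ) :
    ∀ (s s' : ℝ) (u : ℂ), ‖u‖ = 1 → -c ≤ s → s < c → -c < s' → s' < c → (k = 0 → s ≤ s') →
      Photon (Metric.ball (0 : Euc n) 1) (pl a b ((s - m * Complex.I) * u)) (pl a b u)
        (2 * k * c + s' - s)
        (pl a b ((s' - m * Complex.I) * ((-(c - m * Complex.I) ^ 2) ^ k * u))) := by
  have hcmC : (c : ℂ) ^ 2 + (m : ℂ) ^ 2 = 1 := by exact_mod_cast hcm
  have hline : ∀ (s σ : ℝ) (u : ℂ), pl a b ((s - m * Complex.I) * u) + σ • pl a b u =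
      pl a b ((((s + σ : ℝ) : ℂ) - m * Complex.I) * u) := by
    intro s σ u
    rw [← pl_smul, ← pl_add]
    congr 1
    push_cast
    ring
  have hin : ∀ (s σ : ℝ) (u : ℂ), ‖u‖ = 1 → -c < s + σ → s + σ < c →
      pl a b ((s - m * Complex.I) * u) + σ • pl a b u ∈ Metric.ball (0 : Euc n) 1 := by
    intro s σ u hu h1 h2
    rw [hline, mem_ball_zero_iff, norm_pl ha hb hab, ← sq_lt_one_iff₀ (norm_nonneg _),
      norm_sq_chord _ _ _ hu]
    nlinarith
  induction k with
  | zero =>
    intro s s' u hu h1 h2 h3 h4 h5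
    have h6 : s ≤ s' := h5 rfl
    have h := Photon.fly (Ω := Metric.ball (0 : Euc n) 1) (pl a b ((s - m * Complex.I) * u))
      (pl a b u) (s' - s) (by linarith) (fun σ hσ => hin s σ u hu (by linarith [hσ.1])
        (by linarith [hσ.2]))
    rw [hline] at h
    convert h using 1
    · push_cast
      ring
    · congr 1
      push_cast
      ring
  | succ k ih =>
    intro s s' u hu h1 h2 h3 h4 _
    have hw : ‖-((c : ℂ) - m * Complex.I) ^ 2‖ = 1 := by
      have h := norm_sq_chord c m 1 (by simp)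
      rw [mul_one, hcm] at h
      rw [norm_neg, norm_pow, h]
    have hu' : ‖-((c : ℂ) - m * Complex.I) ^ 2 * u‖ = 1 := by rw [norm_mul, hw, hu, mul_one]
    have hnu : ‖pl a b (((c : ℂ) - m * Complex.I) * u)‖ = 1 := by
      rw [norm_pl ha hb hab, ← sq_eq_sq₀ (norm_nonneg _) zero_le_one, norm_sq_chord _ _ _ hu, hcm,
        one_pow]
    have hpt : pl a b ((s - m * Complex.I) * u) + (c - s) • pl a b u =
        pl a b (((c : ℂ) - m * Complex.I) * u) := by
      rw [hline]
      congr 3
      simp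
    have hinn : ⟪pl a b u, pl a b (((c : ℂ) - m * Complex.I) * u)⟫ = c := by
      rw [inner_pl ha hb hab]
      have h7 : u.re * u.re + u.im * u.im = 1 := by
        rw [← Complex.normSq_apply, Complex.normSq_eq_norm_sq, hu, one_pow]
      simp
      linear_combination c * h7
    have hih := ih (-c) s' (-((c : ℂ) - m * Complex.I) ^ 2 * u) hu' le_rfl (by linarith) h3 h4
      (fun _ => h3.le)
    have h := Photon.bounce (Ω := Metric.ball (0 : Euc n) 1) (pl a b ((s - m * Complex.I) * u))
      (pl a b u) (pl a b (((c : ℂ) - m * Complex.I) * u))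
      (pl a b ((s' - m * Complex.I) * ((-(c - m * Complex.I) ^ 2) ^ (k + 1) * u)))
      (c - s) (2 * k * c + s' - (-c)) (by linarith)
      (fun σ hσ => hin s σ u hu (by linarith [hσ.1]) (by linarith [hσ.2]))
      (by rw [hpt]; exact (mem_frontier_iff _ hn).2 hnu)
      (by rw [hpt]; exact isOuterNormal _ hnu)
      (by rw [hinn]; exact hc)
      (by
        rw [hpt, hinn]
        have e1 : pl a b (((c : ℂ) - m * Complex.I) * u) =
            pl a b ((((-c : ℝ) : ℂ) - m * Complex.I) * (-((c : ℂ) - m * Complex.I) ^ 2 * u)) := by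
          congr 1
          push_cast
          linear_combination (-((c : ℂ) - m * Complex.I) * u) * hcmC +
            ((c : ℂ) - m * Complex.I) * u * ((m : ℂ) ^ 2) * Complex.I_sq
        have e2 : pl a b u - (2 * c) • pl a b (((c : ℂ) - m * Complex.I) * u) =
            pl a b (-((c : ℂ) - m * Complex.I) ^ 2 * u) := by
          rw [← pl_smul, ← pl_sub]
          congr 1
          push_cast
          linear_combination (-u) * hcmC + u * (m : ℂ) ^ 2 * Complex.I_sq
        rw [e2]
        conv => arg 2; rw [e1]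
        convert hih using 2
        ring)
    convert h using 1
    push_cast
    ring

end

end Ball

end Pool.Agent.H800R2
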