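import Pool.Agent.H800R2.BallHit

set_option autoImplicit false

open Set Filter Topology

namespace Pool.Agent.H800R2.Ball

theorem mono_of_hasDeriv {f f' : ℝ → ℝ} {a b : ℝ} (h : ∀ x ∈ Icc a b, HasDerivAt f (f' x) x)
    (h0 : ∀ x ∈ Icc a b, 0 ≤ f' x) : ∀ x ∈ Icc a b, ∀ y ∈ Icc a b, x ≤ y → f x ≤ f y := by
  intro x hx y hy hxy
  refine monotoneOn_of_deriv_nonneg (convex_Icc a b)
    (fun z hz => (h z hz).continuousAt.continuousWithinAt)
    (fun z hz => (h z (interior_subset hz)).differentiableAt.differentiableWithinAt)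
    (fun z hz => ?_) hx hy hxy
  rw [(h z (interior_subset hz)).deriv]
  exact h0 z (interior_subset hz)

theorem hasDeriv_a (x : ℝ) (hx : Real.cos x ≠ 0) :
    HasDerivAt (fun x => 1 / (2 * Real.cos x)) (Real.sin x / (2 * Real.cos x ^ 2)) x := by
  have h1 := ((Real.hasDerivAt_cos x).const_mul 2).fun_inv (by positivity)
  simp only [one_div]
  refine h1.congr_deriv ?_
  field_simp

theorem hasDeriv_g (κ x : ℝ) (hx : Real.cos x ≠ 0) :
    HasDerivAt (fun x => (κ - x) / Real.cos x)
      (((κ - x) * Real.sin x - Real.cos x) / Real.cos x ^ 2) x := by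
  have h1 := (((hasDerivAt_id' x).const_sub κ).fun_div (Real.hasDerivAt_cos x) hx)
  refine h1.congr_deriv ?_
  congr 1
  simp
  ring

set_option maxHeartbeats 1000000 in
theorem planar_real {ρ δ η : ℝ} (hρ0 : 0 < ρ) (hδ : 0 < δ) (hδ1 : δ ≤ 1) (hδρ : δ < ρ)
    (hη : 0 < η) (hη1 : 4 * η ≤ 1) :
    ∃ (j : ℕ) (T : ℝ), ∀ t ≥ T, ∀ s' ∈ Icc (0 : ℝ) 1, ∀ φ : ℝ, ∃ x ∈ Ioo 0 δ, ∃ k l : ℤ,
      t + Real.sqrt (ρ ^ 2 - Real.sin x ^ 2) - s' = 2 * k * Real.cos x ∧
      |Real.arcsin (Real.sin x / ρ) + 2 * k * (Real.pi * (j + 1 / 2) - x) -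
        (φ + 2 * Real.pi * l)| ≤ 4 * η := by
  have hpi := Real.pi_gt_three
  obtain ⟨j, x1, x2, hx1, hx12, hx2, hJ⟩ := exists_interval hδ hδ1 hη
  set κ := Real.pi * (j + 1 / 2) with hκ
  set a : ℝ → ℝ := fun x => 1 / (2 * Real.cos x) with ha
  set g : ℝ → ℝ := fun x => (κ - x) / Real.cos x with hg
  set S : ℝ → ℝ := fun x => Real.sqrt (ρ ^ 2 - Real.sin x ^ 2) with hS
  set al : ℝ → ℝ := fun x => Real.arcsin (Real.sin x / ρ) with hal
  have hcos : ∀ x ∈ Icc x1 x2, 0 < Real.cos x := fun x hx =>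
    Real.cos_pos_of_mem_Ioo ⟨by linarith [hx.1], by linarith [hx.2]⟩
  have hsin : ∀ x ∈ Icc x1 x2, 0 < Real.sin x := fun x hx =>
    Real.sin_pos_of_pos_of_lt_pi (by linarith [hx.1]) (by linarith [hx.2])
  have hsinρ : ∀ x ∈ Icc x1 x2, Real.sin x < ρ := fun x hx => by
    have : Real.sin x < x := Real.sin_lt (by linarith [hx.1])
    linarith [hx.2]
  have hsq : ∀ x ∈ Icc x1 x2, 0 < ρ ^ 2 - Real.sin x ^ 2 := fun x hx => by
    nlinarith [hsin x hx, hsinρ x hx]
  have hc0 : 0 < Real.sin x1 / 2 := by linarith [hsin x1 ⟨le_rfl, hx12.le⟩]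
  set c0 := Real.sin x1 / 2 with hc0d
  have hF1 : ∀ x ∈ Icc x1 x2, ∀ y ∈ Icc x1 x2, x ≤ y → c0 * (y - x) ≤ a y - a x := by
    intro x hx y hy hxy
    have h1 := mono_of_hasDeriv (f := fun x => a x - c0 * x)
      (f' := fun x => Real.sin x / (2 * Real.cos x ^ 2) - c0 * 1) (a := x1) (b := x2)
      (fun z hz => (hasDeriv_a z (hcos z hz).ne').sub ((hasDerivAt_id z).const_mul c0))
      (fun z hz => ?_) x hx y hy hxy
    · linarith
    · have h2 : Real.sin x1 ≤ Real.sin z :=
        Real.sin_le_sin_of_le_of_le_pi_div_two (by linarith) (by linarith [hz.2]) hz.1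
      have h3 : Real.cos z ^ 2 ≤ 1 := by nlinarith [Real.cos_le_one z, hcos z hz]
      have h4 : 0 < Real.cos z ^ 2 := by have := hcos z hz; positivity
      have h5 : Real.sin x1 / 2 ≤ Real.sin z / (2 * Real.cos z ^ 2) := by
        rw [div_le_div_iff₀ (by norm_num) (by positivity)]
        nlinarith [hsin z hz, hsin x1 ⟨le_rfl, hx12.le⟩]
      linarith
  have hgmono : ∀ x ∈ Icc x1 x2, ∀ y ∈ Icc x1 x2, x ≤ y → g x ≤ g y :=
    mono_of_hasDeriv (fun z hz => hasDeriv_g κ z (hcos z hz).ne')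
      (fun z hz => div_nonneg (hJ z hz).1.le (sq_nonneg _))
  have hF2 : ∀ x ∈ Icc x1 x2, ∀ y ∈ Icc x1 x2, x ≤ y → g y - g x ≤ 2 * η * (a y - a x) := by
    intro x hx y hy hxy
    have h1 := mono_of_hasDeriv (f := fun x => 2 * η * a x - g x)
      (f' := fun x => 2 * η * (Real.sin x / (2 * Real.cos x ^ 2)) -
        ((κ - x) * Real.sin x - Real.cos x) / Real.cos x ^ 2) (a := x1) (b := x2)
      (fun z hz => ((hasDeriv_a z (hcos z hz).ne').const_mul (2 * η)).sub
        (hasDeriv_g κ z (hcos z hz).ne'))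
      (fun z hz => ?_) x hx y hy hxy
    · linarith
    · have h4 : 0 < Real.cos z ^ 2 := by have := hcos z hz; positivity
      have h5 : 2 * η * (Real.sin z / (2 * Real.cos z ^ 2)) = η * Real.sin z / Real.cos z ^ 2 := by
        field_simp
      rw [h5, ← sub_div]
      exact div_nonneg (by linarith [(hJ z hz).2]) h4.le
  have hF3 : 0 < g x2 - g x1 := by
    have h1 : StrictMonoOn g (Icc x1 x2) := by
      refine strictMonoOn_of_deriv_pos (convex_Icc x1 x2)
        (fun z hz => (hasDeriv_g κ z (hcos z hz).ne').continuousAt.continuousWithinAt)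
        (fun z hz => ?_)
      have hz' := interior_subset hz
      rw [(hasDeriv_g κ z (hcos z hz').ne').deriv]
      have h4 : 0 < Real.cos z ^ 2 := by have := hcos z hz'; positivity
      exact div_pos (hJ z hz').1 h4
    exact sub_pos.2 (h1 ⟨le_rfl, hx12.le⟩ ⟨hx12.le, le_rfl⟩ hx12)
  -- Lipschitz constants
  have hCa : ∀ x ∈ Icc x1 x2, ContDiffAt ℝ 1 a x := fun x hx =>
    contDiffAt_const.div (contDiffAt_const.mul Real.contDiff_cos.contDiffAt)
      (by have := hcos x hx; positivity)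
  have hCg : ∀ x ∈ Icc x1 x2, ContDiffAt ℝ 1 g x := fun x hx =>
    (contDiffAt_const.sub contDiffAt_id).div Real.contDiff_cos.contDiffAt (hcos x hx).ne'
  have hCS : ∀ x ∈ Icc x1 x2, ContDiffAt ℝ 1 S x := fun x hx =>
    (contDiffAt_const.sub (Real.contDiff_sin.contDiffAt.pow 2)).sqrt (hsq x hx).ne'
  have hCal : ∀ x ∈ Icc x1 x2, ContDiffAt ℝ 1 al x := by
    intro x hx
    have h1 : Real.sin x / ρ < 1 := by rw [div_lt_one hρ0]; exact hsinρ x hx
    have h2 : 0 < Real.sin x / ρ := div_pos (hsin x hx) hρ0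
    have h3 : ContDiffAt ℝ 1 Real.arcsin (Real.sin x / ρ) :=
      Real.contDiffAt_arcsin (by linarith) h1.ne
    exact ContDiffAt.comp (g := Real.arcsin) x h3 (Real.contDiff_sin.contDiffAt.div_const ρ)
  obtain ⟨M1, hM1, hL1⟩ := exists_lip hCa
  obtain ⟨M2, hM2, hL2⟩ := exists_lip hCg
  obtain ⟨M3, hM3, hL3⟩ := exists_lip (fun x hx => (hCS x hx).mul (hCa x hx))
  obtain ⟨M4, hM4, hL4⟩ := exists_lip (fun x hx => (hCal x hx).add ((hCS x hx).mul (hCg x hx)))
  set M := M1 + M2 + M3 + M4 with hM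
  have hM0 : 0 ≤ M := by positivity
  refine ⟨j, max ((M + 4 * η * M) / (2 * η * c0)) ((2 * Real.pi + 4 * η + M * (x2 - x1)) /
    (g x2 - g x1)), fun t ht s' hs' φ => ?_⟩
  have ht1 : M + 4 * η * M ≤ t * (2 * η * c0) := by
    have := (le_max_left _ _).trans ht
    rwa [div_le_iff₀ (by positivity)] at this
  have ht2 : 2 * Real.pi + 4 * η + M * (x2 - x1) ≤ t * (g x2 - g x1) := by
    have := (le_max_right _ _).trans ht
    rwa [div_le_iff₀ hF3] at this
  have ht0 : 0 ≤ t := by
    by_contra hcon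
    push Not at hcon
    have h1 : t * (2 * η * c0) < 0 := mul_neg_of_neg_of_pos hcon (by positivity)
    have h2 : 0 ≤ M + 4 * η * M := by positivity
    linarith
  set A : ℝ → ℝ := fun x => t * a x + S x * a x - s' * a x with hA
  set Φ : ℝ → ℝ := fun x => t * g x + (al x + S x * g x) - s' * g x with hΦ
  have hdA : ∀ x ∈ Icc x1 x2, ∀ y ∈ Icc x1 x2, x ≤ y →
      |(A y - A x) - t * (a y - a x)| ≤ M * (y - x) := by
    intro x hx y hy hxy
    have e : (A y - A x) - t * (a y - a x) = (S y * a y - S x * a x) - s' * (a y - a x) := by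
      simp only [hA]
      ring
    rw [e]
    have h1 := hL3 x hx y hy
    have h2 := hL1 x hx y hy
    rw [abs_of_nonneg (sub_nonneg.2 hxy)] at h1 h2
    have h3 : |s' * (a y - a x)| ≤ M1 * (y - x) := by
      rw [abs_mul, abs_of_nonneg hs'.1]
      exact (mul_le_of_le_one_left (abs_nonneg _) hs'.2).trans h2
    have hMe : M * (y - x) = M1 * (y - x) + M2 * (y - x) + M3 * (y - x) + M4 * (y - x) := by
      rw [hM]
      ring
    have h4 := mul_nonneg hM2 (sub_nonneg.2 hxy)
    have h5 := mul_nonneg hM4 (sub_nonneg.2 hxy)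
    have h6 : |S y * a y - S x * a x| ≤ M3 * (y - x) := h1
    refine (abs_sub _ _).trans ?_
    linarith
  have hdΦ : ∀ x ∈ Icc x1 x2, ∀ y ∈ Icc x1 x2, x ≤ y →
      |(Φ y - Φ x) - t * (g y - g x)| ≤ M * (y - x) := by
    intro x hx y hy hxy
    have e : (Φ y - Φ x) - t * (g y - g x) = ((al y + S y * g y) - (al x + S x * g x)) -
        s' * (g y - g x) := by
      simp only [hΦ]
      ring
    rw [e]
    have h1 := hL4 x hx y hy
    have h2 := hL2 x hx y hy
    rw [abs_of_nonneg (sub_nonneg.2 hxy)] at h1 h2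
    have h3 : |s' * (g y - g x)| ≤ M2 * (y - x) := by
      rw [abs_mul, abs_of_nonneg hs'.1]
      exact (mul_le_of_le_one_left (abs_nonneg _) hs'.2).trans h2
    have hMe : M * (y - x) = M1 * (y - x) + M2 * (y - x) + M3 * (y - x) + M4 * (y - x) := by
      rw [hM]
      ring
    have h4 := mul_nonneg hM1 (sub_nonneg.2 hxy)
    have h5 := mul_nonneg hM3 (sub_nonneg.2 hxy)
    have h6 : |(al y + S y * g y) - (al x + S x * g x)| ≤ M4 * (y - x) := h1
    refine (abs_sub _ _).trans ?_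
    linarith
  have hAc : ContinuousOn A (Icc x1 x2) := fun x hx =>
    (((continuousAt_const.mul (hCa x hx).continuousAt).add
      ((hCS x hx).continuousAt.mul (hCa x hx).continuousAt)).sub
      (continuousAt_const.mul (hCa x hx).continuousAt)).continuousWithinAt
  have hΦc : ContinuousOn Φ (Icc x1 x2) := fun x hx =>
    (((continuousAt_const.mul (hCg x hx).continuousAt).add
      ((hCal x hx).continuousAt.add ((hCS x hx).continuousAt.mul (hCg x hx).continuousAt))).sub
      (continuousAt_const.mul (hCg x hx).continuousAt)).continuousWithinAt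
  obtain ⟨x, hx, k, l, hk, hl⟩ := hit hx12.le hAc hΦc (by positivity : 0 < 4 * η) hη1
    (fun x hx y hy hxy => by
      have h1 := hdA x hx y hy hxy
      have h2 := hdΦ x hx y hy hxy
      have h3 := hF1 x hx y hy hxy
      have h4 := hF2 x hx y hy hxy
      have h5 := hgmono x hx y hy hxy
      rw [abs_le] at h1 h2
      have hxy0 := sub_nonneg.2 hxy
      have h6 : t * (g y - g x) ≤ t * (2 * η * (a y - a x)) := mul_le_mul_of_nonneg_left h4 ht0
      have h7 : 0 ≤ t * (g y - g x) := mul_nonneg ht0 (sub_nonneg.2 h5)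
      have h8 : (M + 4 * η * M) * (y - x) ≤ t * (2 * η * (a y - a x)) := by
        calc (M + 4 * η * M) * (y - x) ≤ t * (2 * η * c0) * (y - x) :=
              mul_le_mul_of_nonneg_right ht1 hxy0
          _ = t * (2 * η) * (c0 * (y - x)) := by ring
          _ ≤ t * (2 * η) * (a y - a x) := mul_le_mul_of_nonneg_left h3 (by positivity)
          _ = _ := by ring
      have h9 : 4 * η * (t * (a y - a x) - M * (y - x)) ≤ 4 * η * (A y - A x) :=
        mul_le_mul_of_nonneg_left (by linarith) (by positivity)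
      have h10 : 4 * η * (t * (a y - a x) - M * (y - x)) =
        2 * (t * (2 * η * (a y - a x))) - 4 * η * M * (y - x) := by ring
      have h11 : (M + 4 * η * M) * (y - x) = M * (y - x) + 4 * η * M * (y - x) := by ring
      rw [abs_le]
      constructor
      · linarith
      · linarith)
    (by
      have h2 := hdΦ x1 ⟨le_rfl, hx12.le⟩ x2 ⟨hx12.le, le_rfl⟩ hx12.le
      rw [abs_le] at h2
      linarith [h2.1]) φ
  refine ⟨x, ⟨by linarith [hx.1], by linarith [hx.2]⟩, k, l, ?_, ?_⟩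
  · have h1 : A x = (t + S x - s') * a x := by
      simp only [hA]
      ring
    rw [h1] at hk
    simp only [ha] at hk
    have := hcos x hx
    field_simp at hk
    linarith
  · have h1 : A x = (t + S x - s') * a x := by
      simp only [hA]
      ring
    have h2 : Φ x = al x + 2 * k * (κ - x) := by
      rw [← hk, h1]
      simp only [hΦ, hg, ha]
      have := hcos x hx
      field_simp
      ring
    rw [← h2]
    exact hl

end Pool.Agent.H800R2.Ball
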