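import Pool.Agent.H800R2.Ball
import Pool.Agent.H800R2.BallPlanar

set_option autoImplicit false

open Set Filter Topology

namespace Pool.Agent.H800R2.Ball

open scoped RealInnerProductSpace

theorem norm_exp_sub_exp_le (x y : ℝ) :
    ‖Complex.exp (x * Complex.I) - Complex.exp (y * Complex.I)‖ ≤ |x - y| := by
  have h1 : Complex.exp (x * Complex.I) - Complex.exp (y * Complex.I) =
      Complex.exp (y * Complex.I) * (Complex.exp (((x - y : ℝ) : ℂ) * Complex.I) - 1) := by
    rw [mul_sub, ← Complex.exp_add, mul_one]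
    congr 2
    push_cast
    ring
  rw [h1, norm_mul, Complex.norm_exp_ofReal_mul_I, one_mul, mul_comm]
  exact Real.norm_exp_I_mul_ofReal_sub_one_le

/-- the planar statement: the photon from `ρ` comes close to each point of the disk at each large
time -/
theorem planar {ρ ε : ℝ} (hρ0 : 0 < ρ) (hρ1 : ρ < 1) (hε : 0 < ε) (hε1 : ε ≤ 1) :
    ∃ T : ℝ, ∀ t ≥ T, ∀ r ∈ Icc (0 : ℝ) 1, ∀ φ : ℝ, ∃ (c m s s' : ℝ) (u : ℂ) (k : ℕ),
      0 < c ∧ c ^ 2 + m ^ 2 = 1 ∧ 1 ≤ k ∧ ‖u‖ = 1 ∧ -c ≤ s ∧ s < c ∧ -c < s' ∧ s' < c ∧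
      (s - m * Complex.I) * u = ρ ∧ 2 * k * c + s' - s = t ∧
      ‖(s' - m * Complex.I) * ((-(c - m * Complex.I) ^ 2) ^ k * u) -
        r * Complex.exp (φ * Complex.I)‖ < ε := by
  set δ := min (ε / 4) (ρ / 2) with hδ
  have hδ0 : 0 < δ := lt_min (by linarith) (by linarith)
  have hδ1 : δ ≤ ε / 4 := min_le_left _ _
  have hδ2 : δ ≤ ρ / 2 := min_le_right _ _
  obtain ⟨j, T, hT⟩ := planar_real (ρ := ρ) (δ := δ) (η := ε / 16) hρ0 hδ0 (by linarith)
    (by linarith) (by linarith) (by linarith)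
  refine ⟨max T 4, fun t ht r hr φ => ?_⟩
  have hs'1 : (1 - ε / 4) * r ∈ Icc (0 : ℝ) 1 := by
    constructor
    · exact mul_nonneg (by linarith) hr.1
    · nlinarith [hr.1, hr.2]
  obtain ⟨x, hx, k, l, h1, h2⟩ := hT t ((le_max_left _ _).trans ht) _ hs'1 φ
  have ht4 : 4 ≤ t := (le_max_right _ _).trans ht
  have hsx : Real.sin x < x := Real.sin_lt hx.1
  have hpi := Real.pi_gt_three
  have hs0 : 0 < Real.sin x := Real.sin_pos_of_pos_of_lt_pi hx.1 (by linarith [hx.2])
  have hc0 : 0 < Real.cos x := Real.cos_pos_of_mem_Ioo ⟨by linarith [hx.1], by linarith [hx.2]⟩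
  have hc1 : 1 - ε / 4 < Real.cos x := by
    have h3 := Real.one_sub_sq_div_two_le_cos (x := x)
    have h4 : x ^ 2 ≤ ε / 4 := by nlinarith [hx.1, hx.2]
    nlinarith [hx.1]
  set S := Real.sqrt (ρ ^ 2 - Real.sin x ^ 2) with hS
  have hSsq : S ^ 2 = ρ ^ 2 - Real.sin x ^ 2 := Real.sq_sqrt (by nlinarith [hx.2])
  have hS0 : 0 ≤ S := Real.sqrt_nonneg _
  have hcs : Real.cos x ^ 2 + Real.sin x ^ 2 = 1 := Real.cos_sq_add_sin_sq x
  have hSc : S < Real.cos x := by nlinarith
  have hk0 : 0 < k := by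
    by_contra hcon
    push Not at hcon
    have h3 : (k : ℝ) ≤ 0 := by exact_mod_cast hcon
    have h4 : 2 * (k : ℝ) * Real.cos x ≤ 0 := by nlinarith
    linarith [hs'1.2]
  obtain ⟨k', rfl⟩ : ∃ k' : ℕ, k = k' := ⟨k.toNat, (Int.toNat_of_nonneg hk0.le).symm⟩
  have hk' : 1 ≤ k' := by exact_mod_cast hk0
  set al := Real.arcsin (Real.sin x / ρ) with hal
  have hsinal : Real.sin al = Real.sin x / ρ :=
    Real.sin_arcsin (by have : 0 < Real.sin x / ρ := by positivity
                        linarith) (by rw [div_le_one hρ0]; linarith [hx.2])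
  have hcosal : Real.cos al = S / ρ := by
    rw [hal, Real.cos_arcsin, hS]
    have h3 : 1 - (Real.sin x / ρ) ^ 2 = (ρ ^ 2 - Real.sin x ^ 2) / ρ ^ 2 := by
      field_simp
    rw [h3, Real.sqrt_div (by rw [← hSsq]; positivity), Real.sqrt_sq hρ0.le]
  refine ⟨Real.cos x, Real.sin x, S, (1 - ε / 4) * r, Complex.exp (al * Complex.I), k', hc0, hcs,
    hk', Complex.norm_exp_ofReal_mul_I _, by linarith, hSc, by linarith [hs'1.1], ?_, ?_, ?_, ?_⟩
  · nlinarith [hr.1, hr.2]
  · rw [Complex.exp_mul_I, ← Complex.ofReal_cos, ← Complex.ofReal_sin, hsinal, hcosal]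
    push_cast
    have hρC : (ρ : ℂ) ≠ 0 := by exact_mod_cast hρ0.ne'
    have hSC : (S : ℂ) ^ 2 = (ρ : ℂ) ^ 2 - (Real.sin x : ℂ) ^ 2 := by exact_mod_cast hSsq
    push_cast at hSC
    field_simp
    linear_combination hSC - (Complex.sin x) ^ 2 * Complex.I_sq
  · have h3 : ((k' : ℤ) : ℝ) = (k' : ℝ) := by norm_cast
    rw [h3] at h1
    linarith
  · have hrot : (-((Real.cos x : ℂ) - Real.sin x * Complex.I) ^ 2) ^ k' *
        Complex.exp (al * Complex.I) =
        Complex.exp (((al + 2 * (k' : ℝ) * (Real.pi * (j + 1 / 2) - x) - 2 * Real.pi * l : ℝ) : ℂ) *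
          Complex.I) := by
      have e1 : (Real.cos x : ℂ) - Real.sin x * Complex.I = Complex.exp (-(x * Complex.I)) := by
        rw [← neg_mul, ← Complex.ofReal_neg, Complex.exp_mul_I, ← Complex.ofReal_cos,
          ← Complex.ofReal_sin, Real.cos_neg, Real.sin_neg]
        push_cast
        ring
      have e2 : -(Complex.exp (-(x * Complex.I))) ^ 2 =
          Complex.exp (Real.pi * Complex.I - 2 * x * Complex.I) := by
        rw [← Complex.exp_nat_mul, sub_eq_add_neg, Complex.exp_add, Complex.exp_pi_mul_I]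
        rw [neg_one_mul]
        congr 2
        push_cast
        ring
      rw [e1, e2, ← Complex.exp_nat_mul, ← Complex.exp_add]
      rw [Complex.exp_eq_exp_iff_exists_int]
      refine ⟨l - k' * j, ?_⟩
      push_cast
      ring
    rw [hrot]
    set Φ := al + 2 * (k' : ℝ) * (Real.pi * (j + 1 / 2) - x) - 2 * Real.pi * l with hΦ
    have h3 : |Φ - φ| ≤ ε / 4 := by
      have e3 : Φ - φ = al + 2 * ((k' : ℤ) : ℝ) * (Real.pi * (j + 1 / 2) - x) -
        (φ + 2 * Real.pi * l) := by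
        rw [hΦ]
        push_cast
        ring
      rw [e3]
      refine h2.trans (by linarith)
    have h4 := norm_exp_sub_exp_le Φ φ
    have e4 : ((((1 - ε / 4) * r : ℝ) : ℂ) - Real.sin x * Complex.I) *
        Complex.exp (Φ * Complex.I) - r * Complex.exp (φ * Complex.I) =
        r * (Complex.exp (Φ * Complex.I) - Complex.exp (φ * Complex.I)) -
        ((ε / 4 * r : ℝ) : ℂ) * Complex.exp (Φ * Complex.I) -
        ((Real.sin x : ℝ) : ℂ) * Complex.I * Complex.exp (Φ * Complex.I) := by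
      push_cast
      ring
    rw [e4]
    have n1 : ‖(r : ℂ) * (Complex.exp (Φ * Complex.I) - Complex.exp (φ * Complex.I))‖ ≤ ε / 4 := by
      rw [norm_mul, Complex.norm_real, Real.norm_of_nonneg hr.1]
      exact (mul_le_of_le_one_left (norm_nonneg _) hr.2).trans (h4.trans h3)
    have n2 : ‖((ε / 4 * r : ℝ) : ℂ) * Complex.exp (Φ * Complex.I)‖ ≤ ε / 4 := by
      rw [norm_mul, Complex.norm_real, Complex.norm_exp_ofReal_mul_I, mul_one,
        Real.norm_of_nonneg (mul_nonneg (by linarith) hr.1)]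
      exact mul_le_of_le_one_right (by linarith) hr.2
    have n3 : ‖((Real.sin x : ℝ) : ℂ) * Complex.I * Complex.exp (Φ * Complex.I)‖ < ε / 4 := by
      rw [norm_mul, norm_mul, Complex.norm_real, Complex.norm_exp_ofReal_mul_I, Complex.norm_I,
        mul_one, mul_one, Real.norm_of_nonneg hs0.le]
      linarith [hx.2]
    calc _ ≤ ‖(r : ℂ) * (Complex.exp (Φ * Complex.I) - Complex.exp (φ * Complex.I)) -
          ((ε / 4 * r : ℝ) : ℂ) * Complex.exp (Φ * Complex.I)‖ +
          ‖((Real.sin x : ℝ) : ℂ) * Complex.I * Complex.exp (Φ * Complex.I)‖ := norm_sub_le _ _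
      _ ≤ (ε / 4 + ε / 4) + ‖((Real.sin x : ℝ) : ℂ) * Complex.I * Complex.exp (Φ * Complex.I)‖ := by
          gcongr
          exact (norm_sub_le _ _).trans (add_le_add n1 n2)
      _ < ε := by linarith

variable {n : ℕ}

/-- an orthonormal pair adapted to two vectors -/
theorem exists_pair (hn : 2 ≤ n) (P x : Euc n) (hP : P ≠ 0) :
    ∃ a b : Euc n, ‖a‖ = 1 ∧ ‖b‖ = 1 ∧ ⟪a, b⟫ = 0 ∧ P = pl a b (‖P‖ : ℝ) ∧
      ∃ z : ℂ, x = pl a b z := by
  have hP0 : 0 < ‖P‖ := norm_pos_iff.2 hP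
  set a : Euc n := ‖P‖⁻¹ • P with ha
  have ha1 : ‖a‖ = 1 := by rw [ha, norm_smul, norm_inv, norm_norm, inv_mul_cancel₀ hP0.ne']
  have hPa : P = ‖P‖ • a := by rw [ha, smul_smul, mul_inv_cancel₀ hP0.ne', one_smul]
  set y : Euc n := x - ⟪a, x⟫ • a with hy
  have hay : ⟪a, y⟫ = 0 := by
    rw [hy, inner_sub_right, real_inner_smul_right, real_inner_self_eq_norm_sq, ha1]
    ring
  have hPpl : ∀ b : Euc n, P = pl a b (‖P‖ : ℝ) := by
    intro b
    unfold pl
    rw [Complex.ofReal_re, Complex.ofReal_im, zero_smul, add_zero]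
    exact hPa
  by_cases hy0 : y = 0
  · -- x is a multiple of a; any orthogonal unit vector works
    obtain ⟨w, hw0, hw⟩ : ∃ w : Euc n, w ≠ 0 ∧ ⟪a, w⟫ = 0 := by
      have hfin : Module.finrank ℝ (Euc n) = n := by simp
      have h1 : Module.finrank ℝ (Submodule.span ℝ {a}) ≤ 1 := by
        have := finrank_span_le_card (R := ℝ) ({a} : Set (Euc n))
        simpa using this
      have h2 : (Submodule.span ℝ {a})ᗮ ≠ ⊥ := by
        intro h
        have h3 := Submodule.finrank_add_finrank_orthogonal (Submodule.span ℝ {a})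
        rw [h, finrank_bot, hfin] at h3
        omega
      obtain ⟨w, hw, hw0⟩ := Submodule.exists_mem_ne_zero_of_ne_bot h2
      exact ⟨w, hw0, Submodule.mem_orthogonal_singleton_iff_inner_right.1 hw⟩
    have hw1 : 0 < ‖w‖ := norm_pos_iff.2 hw0
    refine ⟨a, ‖w‖⁻¹ • w, ha1, ?_, ?_, hPpl _, (⟪a, x⟫ : ℝ), ?_⟩
    · rw [norm_smul, norm_inv, norm_norm, inv_mul_cancel₀ hw1.ne']
    · rw [real_inner_smul_right, hw, mul_zero]
    · unfold pl
      rw [Complex.ofReal_re, Complex.ofReal_im, zero_smul, add_zero]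
      rw [hy, sub_eq_zero] at hy0
      exact hy0
  · have hy1 : 0 < ‖y‖ := norm_pos_iff.2 hy0
    refine ⟨a, ‖y‖⁻¹ • y, ha1, ?_, ?_, hPpl _, ⟨⟪a, x⟫, ‖y‖⟩, ?_⟩
    · rw [norm_smul, norm_inv, norm_norm, inv_mul_cancel₀ hy1.ne']
    · rw [real_inner_smul_right, hay, mul_zero]
    · show x = ⟪a, x⟫ • a + ‖y‖ • (‖y‖⁻¹ • y)
      rw [smul_smul ‖y‖, mul_inv_cancel₀ hy1.ne', one_smul, hy]
      abel

theorem dense_of_ne {P : Euc n} (hn : 2 ≤ n) (hP1 : ‖P‖ < 1) (hP : P ≠ 0) :
    FrontsBecomeDense (Metric.ball (0 : Euc n) 1) P := by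
  intro ε hε
  obtain ⟨T, hT⟩ := planar (ρ := ‖P‖) (ε := min ε 1) (norm_pos_iff.2 hP) hP1
    (lt_min hε one_pos) (min_le_right _ _)
  refine ⟨T, fun t ht x hx => ?_⟩
  obtain ⟨a, b, ha, hb, hab, hPab, z, hz⟩ := exists_pair hn P x hP
  have hz1 : ‖z‖ ≤ 1 := by
    rw [mem_ball_zero_iff, hz, norm_pl ha hb hab] at hx
    exact hx.le
  obtain ⟨c, m, s, s', u, k, hc, hcm, hk, hu, h1, h2, h3, h4, h5, h6, h7⟩ :=
    hT t ht ‖z‖ ⟨norm_nonneg _, hz1⟩ (Complex.arg z)
  have hfl := flight ha hb hab (by omega : 0 < n) hc hcm k s s' u hu h1 h2 h3 h4 (by omega)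
  rw [h5, h6] at hfl
  refine ⟨pl a b ((s' - m * Complex.I) * ((-(c - m * Complex.I) ^ 2) ^ k * u)),
    ⟨pl a b u, ?_, ?_⟩, ?_⟩
  · rw [norm_pl ha hb hab, hu]
  · rw [← hPab] at hfl
    exact hfl
  · rw [hz, dist_comm, dist_eq_norm, ← pl_sub, norm_pl ha hb hab]
    rw [Complex.norm_mul_exp_arg_mul_I] at h7
    exact h7.trans_le (min_le_left _ _)

/-- photons from the centre -/
theorem centre (hn : 0 < n) {p v : Euc n} {t : ℝ} {q : Euc n}
    (h : Photon (Metric.ball (0 : Euc n) 1) p v t q) :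
    ∀ s : ℝ, -1 ≤ s → s < 1 → p = s • v → ‖v‖ = 1 →
      ∃ (k : ℤ) (w : Euc n), ‖w‖ = 1 ∧ q = (s + t - 2 * k) • w ∧ |s + t - 2 * k| ≤ 1 := by
  induction h with
  | fly p v t ht hin =>
    intro s hs1 hs2 hp hv
    refine ⟨0, v, hv, ?_, ?_⟩
    · rw [hp, ← add_smul]
      simp
    · rcases ht.eq_or_lt with h | h
      · rw [← h]
        simp
        rw [abs_le]
        constructor <;> linarith
      · have h1 := hin t ⟨h, le_rfl⟩
        rw [hp, ← add_smul, mem_ball_zero_iff, norm_smul, hv, mul_one, Real.norm_eq_abs] at h1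
        simpa using h1.le
  | bounce p v ν q τ t hτ hin hb hν hv0 hph ih =>
    intro s hs1 hs2 hp hv
    have h1 : ‖p + τ • v‖ = 1 := (mem_frontier_iff _ hn).1 hb
    have h2 : p + τ • v = (s + τ) • v := by rw [hp, ← add_smul]
    have h3 : s + τ = 1 := by
      rw [h2, norm_smul, hv, mul_one, Real.norm_eq_abs, abs_eq zero_le_one] at h1
      rcases h1 with h1 | h1
      · exact h1
      · linarith
    have h4 : ν = v := by
      rw [isOuterNormal_eq hn h1 hν, h2, h3, one_smul]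
    have h5 : v - (2 * ⟪v, ν⟫) • ν = -v := by
      rw [h4, real_inner_self_eq_norm_sq, hv]
      norm_num
      rw [two_smul]
      abel
    obtain ⟨k, w, hw, hq, hk⟩ := ih (-1) le_rfl (by norm_num)
      (by rw [h5, h2, h3, one_smul, neg_smul, one_smul, neg_neg]) (by rw [h5, norm_neg, hv])
    have e : s + (τ + t) - 2 * ((k + 1 : ℤ) : ℝ) = -1 + t - 2 * (k : ℝ) := by
      push_cast
      linarith
    exact ⟨k + 1, w, hw, by rw [e]; exact hq, by rw [e]; exact hk⟩

theorem not_dense_centre (hn : 0 < n) :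
    ¬ FrontsBecomeDense (Metric.ball (0 : Euc n) 1) 0 := by
  intro h
  obtain ⟨T, hT⟩ := h (1 / 4) (by norm_num)
  obtain ⟨N, hN⟩ := exists_nat_ge T
  set x : Euc n := EuclideanSpace.single ⟨0, hn⟩ (1 / 2 : ℝ) with hx
  have hxn : ‖x‖ = 1 / 2 := by
    rw [hx]
    simp
  obtain ⟨q, ⟨v, hv, hq⟩, hd⟩ := hT (2 * N) (by
    have : (0 : ℝ) ≤ N := Nat.cast_nonneg N
    linarith) x (by rw [mem_ball_zero_iff, hxn]; norm_num)
  obtain ⟨k, w, hw, hqw, hk⟩ := centre hn hq 0 (by norm_num) (by norm_num) (by simp) hv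
  have h1 : (0 : ℝ) + 2 * N - 2 * k = ((2 * (N - k) : ℤ) : ℝ) := by
    push_cast
    ring
  rw [h1] at hk hqw
  have h2 : |(2 * ((N : ℤ) - k))| ≤ 1 := by exact_mod_cast hk
  have h3 : (2 * ((N : ℤ) - k)) = 0 := by
    rw [abs_le] at h2
    omega
  rw [h3] at hqw
  have h4 : q = 0 := by rw [hqw]; simp
  rw [h4, dist_zero_right, hxn] at hd
  norm_num at hd

/-- defining function of a general ball -/
theorem isDefFun_ball {c x : Euc n} {r : ℝ} (hr : 0 < r) (hx : ‖x - c‖ = r) :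
    IsDefFun (Metric.ball c r) x (fun y => ‖y - c‖ ^ 2 - r ^ 2) ∧
      gradient (fun y : Euc n => ‖y - c‖ ^ 2 - r ^ 2) x = (2 : ℝ) • (x - c) := by
  have hg : gradient (fun y : Euc n => ‖y - c‖ ^ 2 - r ^ 2) x = (2 : ℝ) • (x - c) := by
    refine HasGradientAt.gradient ?_
    rw [hasGradientAt_iff_hasFDerivAt]
    have h0 : HasFDerivAt (fun y : Euc n => y - c) (ContinuousLinearMap.id ℝ (Euc n)) x :=
      (hasFDerivAt_id x).sub_const c
    have h1 := (h0.norm_sq).sub_const (r ^ 2)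
    refine h1.congr_fderiv ?_
    ext w
    simp
  refine ⟨⟨((contDiff_id.sub contDiff_const).norm_sq ℝ).sub contDiff_const, ?_,
    Eventually.of_forall fun y => ?_⟩, hg⟩
  · rw [hg]
    intro h
    have h1 : x - c = 0 := by simpa using h
    rw [h1, norm_zero] at hx
    linarith
  · rw [mem_ball_iff_norm, sub_neg, sq_lt_sq₀ (norm_nonneg _) hr.le]

theorem isOuterNormal_ball {c x : Euc n} {r : ℝ} (hr : 0 < r) (hx : ‖x - c‖ = r) :
    IsOuterNormal (Metric.ball c r) x (r⁻¹ • (x - c)) := by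
  refine ⟨_, (isDefFun_ball hr hx).1, ?_⟩
  rw [(isDefFun_ball hr hx).2, norm_smul, hx, smul_smul]
  congr 1
  norm_num
  field_simp

theorem isOuterNormal_ball_eq {c x ν : Euc n} {r : ℝ} (hr : 0 < r) (hx : ‖x - c‖ = r)
    (h : IsOuterNormal (Metric.ball c r) x ν) : ν = r⁻¹ • (x - c) := by
  obtain ⟨F, hF, rfl⟩ := h
  have hfr : x ∈ frontier (Metric.ball c r) := by
    rw [frontier_ball _ hr.ne', mem_sphere_iff_norm, hx]
  rw [hF.normal_unique (isDefFun_ball hr hx).1 Metric.isOpen_ball hfr, (isDefFun_ball hr hx).2,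
    norm_smul, hx, smul_smul]
  congr 1
  norm_num
  field_simp

/-- similarity between balls -/
theorem photon_scale {c c' : Euc n} {r a : ℝ} (hr : 0 < r) (ha : 0 < a) {p v q : Euc n} {t : ℝ}
    (h : Photon (Metric.ball c r) p v t q) :
    Photon (Metric.ball c' (a * r)) (c' + a • (p - c)) v (a * t) (c' + a • (q - c)) := by
  have hmem : ∀ x : Euc n, x ∈ Metric.ball c r → c' + a • (x - c) ∈ Metric.ball c' (a * r) := by
    intro x hx
    rw [mem_ball_iff_norm] at hx ⊢
    rw [add_sub_cancel_left, norm_smul, Real.norm_of_nonneg ha.le]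
    exact mul_lt_mul_of_pos_left hx ha
  have hline : ∀ (p v : Euc n) (s : ℝ), c' + a • (p - c) + (a * s) • v =
      c' + a • (p + s • v - c) := by
    intro p v s
    rw [mul_smul]
    module
  induction h with
  | fly p v t ht hin =>
    have h1 := Photon.fly (Ω := Metric.ball c' (a * r)) (c' + a • (p - c)) v (a * t)
      (by positivity) (fun s hs => by
        have h2 : s = a * (s / a) := by field_simp
        rw [h2, hline]
        exact hmem _ (hin (s / a) ⟨div_pos hs.1 ha, by rw [div_le_iff₀ ha]; linarith [hs.2]⟩))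
    rwa [hline] at h1
  | bounce p v ν q τ t hτ hin hb hν hv0 hph ih =>
    have hx : ‖p + τ • v - c‖ = r := by
      rw [frontier_ball _ hr.ne', mem_sphere_iff_norm] at hb
      exact hb
    have hx' : ‖c' + a • (p + τ • v - c) - c'‖ = a * r := by
      rw [add_sub_cancel_left, norm_smul, Real.norm_of_nonneg ha.le, hx]
    have hν' := isOuterNormal_ball_eq hr hx hν
    have hνs : IsOuterNormal (Metric.ball c' (a * r)) (c' + a • (p + τ • v - c)) ν := by
      have h2 := isOuterNormal_ball (mul_pos ha hr) hx'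
      rw [add_sub_cancel_left, smul_smul] at h2
      have h3 : (a * r)⁻¹ * a = r⁻¹ := by field_simp
      rw [h3, ← hν'] at h2
      exact h2
    rw [mul_add]
    refine Photon.bounce _ v ν _ (a * τ) (a * t) (by positivity) (fun s hs => ?_) ?_ ?_ hv0 ?_
    · have h2 : s = a * (s / a) := by field_simp
      rw [h2, hline]
      exact hmem _ (hin (s / a) ⟨div_pos hs.1 ha, by rw [div_lt_iff₀ ha]; linarith [hs.2]⟩)
    · rw [hline, frontier_ball _ (mul_pos ha hr).ne', mem_sphere_iff_norm, hx']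
    · rw [hline]
      exact hνs
    · rw [hline]
      exact ih

theorem dense_scale {c c' P : Euc n} {r a : ℝ} (hr : 0 < r) (ha : 0 < a)
    (h : FrontsBecomeDense (Metric.ball c r) P) :
    FrontsBecomeDense (Metric.ball c' (a * r)) (c' + a • (P - c)) := by
  intro ε hε
  obtain ⟨T, hT⟩ := h (ε / a) (by positivity)
  refine ⟨a * T, fun t ht x hx => ?_⟩
  have ht' : T ≤ t / a := by rw [le_div_iff₀ ha]; linarith
  have hx' : c + a⁻¹ • (x - c') ∈ Metric.ball c r := by
    rw [mem_ball_iff_norm] at hx ⊢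
    rw [add_sub_cancel_left, norm_smul, norm_inv, Real.norm_of_nonneg ha.le, inv_mul_lt_iff₀ ha]
    exact hx
  obtain ⟨q, ⟨v, hv, hq⟩, hd⟩ := hT (t / a) ht' _ hx'
  have h1 := photon_scale (c' := c') hr ha hq
  have h2 : a * (t / a) = t := by field_simp
  rw [h2] at h1
  refine ⟨_, ⟨v, hv, h1⟩, ?_⟩
  have h3 : x - (c' + a • (q - c)) = a • (c + a⁻¹ • (x - c') - q) := by
    have h4 : a • (a⁻¹ • (x - c')) = x - c' := by
      rw [smul_smul, mul_inv_cancel₀ ha.ne', one_smul]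
    rw [smul_sub a (c + _) q, smul_add, h4, smul_sub]
    abel
  rw [dist_eq_norm] at hd ⊢
  rw [h3, norm_smul, Real.norm_of_nonneg ha.le]
  rw [lt_div_iff₀ ha] at hd
  linarith

/-- **Balls.** -/
theorem dense_iff (hn : 2 ≤ n) {c P : Euc n} {r : ℝ} (hP : P ∈ Metric.ball c r) :
    FrontsBecomeDense (Metric.ball c r) P ↔ P ≠ c := by
  have hr : 0 < r := Metric.pos_of_mem_ball hP
  constructor
  · rintro h rfl
    have h1 := dense_scale (c' := (0 : Euc n)) hr (inv_pos.2 hr) h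
    rw [inv_mul_cancel₀ hr.ne', sub_self, smul_zero, add_zero] at h1
    exact not_dense_centre (by omega) h1
  · intro h
    have h1 : FrontsBecomeDense (Metric.ball (0 : Euc n) 1) (r⁻¹ • (P - c)) := by
      refine dense_of_ne hn ?_ ?_
      · rw [mem_ball_iff_norm] at hP
        rw [norm_smul, norm_inv, Real.norm_of_nonneg hr.le, inv_mul_lt_iff₀ hr, mul_one]
        exact hP
      · intro h0
        rw [smul_eq_zero, sub_eq_zero] at h0
        rcases h0 with h0 | h0
        · exact (inv_pos.2 hr).ne' h0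
        · exact h h0
    have h2 := dense_scale (c' := c) one_pos hr h1
    rw [mul_one, sub_zero, smul_smul, mul_inv_cancel₀ hr.ne', one_smul, add_sub_cancel] at h2
    exact h2

end Pool.Agent.H800R2.Ball
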