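import Mathlib

set_option autoImplicit false

open Set Filter Topology

namespace Pool.Agent.H800R2.Ball

/-- a function with slowly growing phase hits each phase at an integer time -/
theorem hit {A Φ : ℝ → ℝ} {a b η : ℝ} (hab : a ≤ b) (hA : ContinuousOn A (Icc a b))
    (hΦ : ContinuousOn Φ (Icc a b)) (hη : 0 < η) (hη1 : η ≤ 1)
    (hinc : ∀ x ∈ Icc a b, ∀ y ∈ Icc a b, x ≤ y → |Φ y - Φ x| ≤ η * (A y - A x))
    (hbig : 2 * Real.pi + η ≤ Φ b - Φ a) (φ : ℝ) :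
    ∃ x ∈ Icc a b, ∃ k l : ℤ, A x = k ∧ |Φ x - (φ + 2 * Real.pi * l)| ≤ η := by
  have ha : a ∈ Icc a b := ⟨le_rfl, hab⟩
  have hb : b ∈ Icc a b := ⟨hab, le_rfl⟩
  have hpi := Real.pi_gt_three
  have hmono : ∀ x ∈ Icc a b, ∀ y ∈ Icc a b, x ≤ y → A x ≤ A y := by
    intro x hx y hy hxy
    have h1 := (abs_nonneg _).trans (hinc x hx y hy hxy)
    have h2 := nonneg_of_mul_nonneg_right h1 hη
    linarith
  have h1 : 1 ≤ A b - A a := by
    have h2 := (le_abs_self _).trans (hinc a ha b hb hab)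
    have h3 := hmono a ha b hb hab
    nlinarith
  have hk1 : (⌈A a⌉ : ℝ) ∈ Icc (A a) (A b) :=
    ⟨Int.le_ceil _, by linarith [Int.ceil_lt_add_one (A a)]⟩
  obtain ⟨x1, hx1, hAx1⟩ := intermediate_value_Icc hab hA hk1
  have h2 : |Φ x1 - Φ a| ≤ η := by
    refine (hinc a ha x1 hx1 hx1.1).trans ?_
    rw [hAx1]
    have : (⌈A a⌉ : ℝ) - A a ≤ 1 := by linarith [Int.ceil_lt_add_one (A a)]
    nlinarith
  have h3 : 2 * Real.pi ≤ Φ b - Φ x1 := by linarith [le_abs_self (Φ x1 - Φ a)]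
  set l := ⌈(Φ x1 - φ) / (2 * Real.pi)⌉ with hl
  have h2pi : 0 < 2 * Real.pi := by positivity
  have hl1 : Φ x1 ≤ φ + 2 * Real.pi * l := by
    have := Int.le_ceil ((Φ x1 - φ) / (2 * Real.pi))
    rw [div_le_iff₀ h2pi] at this
    rw [← hl] at this
    linarith
  have hl2 : φ + 2 * Real.pi * l ≤ Φ b := by
    have := Int.ceil_lt_add_one ((Φ x1 - φ) / (2 * Real.pi))
    rw [← hl, ← sub_lt_iff_lt_add, lt_div_iff₀ h2pi] at this
    linarith
  have hsub : Icc x1 b ⊆ Icc a b := Icc_subset_Icc hx1.1 le_rfl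
  obtain ⟨x2, hx2, hΦx2⟩ := intermediate_value_Icc hx1.2 (hΦ.mono hsub) ⟨hl1, hl2⟩
  have hx2' := hsub hx2
  have hk : (⌊A x2⌋ : ℝ) ∈ Icc (A x1) (A x2) := by
    refine ⟨?_, Int.floor_le _⟩
    rw [hAx1]
    have : ⌈A a⌉ ≤ ⌊A x2⌋ := Int.le_floor.2 (by rw [← hAx1]; exact hmono x1 hx1 x2 hx2' hx2.1)
    exact_mod_cast this
  have hsub2 : Icc x1 x2 ⊆ Icc a b := Icc_subset_Icc hx1.1 hx2.2
  obtain ⟨x3, hx3, hAx3⟩ := intermediate_value_Icc hx2.1 (hA.mono hsub2) hk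
  refine ⟨x3, hsub2 hx3, ⌊A x2⌋, l, hAx3, ?_⟩
  rw [← hΦx2, abs_sub_comm]
  refine (hinc x3 (hsub2 hx3) x2 hx2' hx3.2).trans ?_
  rw [hAx3]
  have : A x2 - ⌊A x2⌋ ≤ 1 := by linarith [Int.lt_floor_add_one (A x2)]
  nlinarith

/-- choice of the small interval of directions -/
theorem exists_interval {δ η : ℝ} (hδ : 0 < δ) (hδ1 : δ ≤ 1) (hη : 0 < η) :
    ∃ (j : ℕ) (x1 x2 : ℝ), 0 < x1 ∧ x1 < x2 ∧ x2 < δ ∧ ∀ x ∈ Icc x1 x2,
      0 < (Real.pi * (j + 1 / 2) - x) * Real.sin x - Real.cos x ∧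
      (Real.pi * (j + 1 / 2) - x) * Real.sin x - Real.cos x ≤ η * Real.sin x := by
  have hpi := Real.pi_gt_three
  have hsδ : 0 < Real.sin δ := Real.sin_pos_of_pos_of_lt_pi hδ (by linarith)
  obtain ⟨j, hj⟩ := exists_nat_gt (δ + η / 2 + 1 / Real.sin δ)
  have hκ : δ + η / 2 + 1 / Real.sin δ < Real.pi * (j + 1 / 2) := by
    have : (0 : ℝ) ≤ j := Nat.cast_nonneg j
    nlinarith
  set κ := Real.pi * (j + 1 / 2) with hκd
  set W : ℝ → ℝ := fun x => (κ - x) * Real.sin x - Real.cos x - η / 2 * Real.sin x with hW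
  have hWc : Continuous W := by fun_prop
  have hW0 : W 0 < 0 := by simp [hW]
  have hWδ : 0 < W δ := by
    simp only [hW]
    have h1 : 1 / Real.sin δ < κ - δ - η / 2 := by linarith
    rw [div_lt_iff₀ hsδ] at h1
    nlinarith [Real.cos_le_one δ]
  obtain ⟨x0, hx0, hWx0⟩ := intermediate_value_Icc hδ.le hWc.continuousOn ⟨hW0.le, hWδ.le⟩
  have hx00 : 0 < x0 := by
    rcases hx0.1.eq_or_lt with h | h
    · rw [← h] at hWx0
      linarith
    · exact h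
  have hx0δ : x0 < δ := by
    rcases hx0.2.eq_or_lt with h | h
    · rw [h] at hWx0
      linarith
    · exact h
  have hs0 : 0 < Real.sin x0 := Real.sin_pos_of_pos_of_lt_pi hx00 (by linarith)
  have hopen : IsOpen {x : ℝ | (0 < x ∧ x < δ) ∧ (0 < (κ - x) * Real.sin x - Real.cos x ∧
      (κ - x) * Real.sin x - Real.cos x < η * Real.sin x)} := by
    have o1 : IsOpen {x : ℝ | 0 < x ∧ x < δ} := isOpen_Ioo
    have o2 : IsOpen {x : ℝ | 0 < (κ - x) * Real.sin x - Real.cos x} :=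
      isOpen_lt continuous_const (by fun_prop)
    have o3 : IsOpen {x : ℝ | (κ - x) * Real.sin x - Real.cos x < η * Real.sin x} :=
      isOpen_lt (by fun_prop) (by fun_prop)
    exact o1.inter (o2.inter o3)
  have hmem : x0 ∈ {x : ℝ | (0 < x ∧ x < δ) ∧ (0 < (κ - x) * Real.sin x - Real.cos x ∧
      (κ - x) * Real.sin x - Real.cos x < η * Real.sin x)} := by
    simp only [hW] at hWx0
    refine ⟨⟨hx00, hx0δ⟩, ?_, ?_⟩
    · nlinarith
    · nlinarith
  obtain ⟨r, hr, hball⟩ := Metric.isOpen_iff.1 hopen x0 hmem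
  refine ⟨j, x0 - r / 2, x0 + r / 2, ?_, by linarith, ?_, ?_⟩
  · have : x0 - r / 2 ∈ Metric.ball x0 r := by
      rw [Metric.mem_ball, Real.dist_eq]
      rw [abs_lt]
      constructor <;> linarith
    exact (hball this).1.1
  · have : x0 + r / 2 ∈ Metric.ball x0 r := by
      rw [Metric.mem_ball, Real.dist_eq]
      rw [abs_lt]
      constructor <;> linarith
    exact (hball this).1.2
  · intro x hx
    have : x ∈ Metric.ball x0 r := by
      rw [Metric.mem_ball, Real.dist_eq]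
      rw [abs_lt]
      constructor <;> linarith [hx.1, hx.2]
    exact ⟨(hball this).2.1, (hball this).2.2.le⟩

theorem exists_lip {f : ℝ → ℝ} {x1 x2 : ℝ} (hf : ∀ x ∈ Icc x1 x2, ContDiffAt ℝ 1 f x) :
    ∃ M : ℝ, 0 ≤ M ∧ ∀ x ∈ Icc x1 x2, ∀ y ∈ Icc x1 x2, |f y - f x| ≤ M * |y - x| := by
  have hc : ContinuousOn (fun x => fderiv ℝ f x) (Icc x1 x2) := fun x hx =>
    ((hf x hx).fderiv_right (m := 0) (by norm_num)).continuousAt.continuousWithinAt
  obtain ⟨C, hC⟩ := isCompact_Icc.exists_bound_of_continuousOn hc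
  refine ⟨max C 0, le_max_right _ _, fun x hx y hy => ?_⟩
  exact Convex.norm_image_sub_le_of_norm_fderiv_le (𝕜 := ℝ)
    (fun z hz => (hf z hz).differentiableAt (by norm_num))
    (fun z hz => (hC z hz).trans (le_max_left _ _)) (convex_Icc x1 x2) hx hy

end Pool.Agent.H800R2.Ball
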