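import Mathlib

set_option autoImplicit false

open Set Filter Topology

namespace Pool.Agent.H800R2

open scoped RealInnerProductSpace ContDiff

/-- Euclidean space `ℝⁿ`. -/
abbrev Euc (n : ℕ) : Type := EuclideanSpace ℝ (Fin n)

/-- `F` is a `C^∞` defining function of the set `Ω` near the point `x`: its gradient at `x` is not
zero, and near `x` the set `Ω` is given by the inequality `F < 0`. -/
def IsDefFun {n : ℕ} (Ω : Set (Euc n)) (x : Euc n) (F : Euc n → ℝ) : Prop :=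
  ContDiff ℝ ∞ F ∧ gradient F x ≠ 0 ∧ ∀ᶠ y in 𝓝 x, (y ∈ Ω ↔ F y < 0)

/-- `Ω` is a bounded domain with smooth boundary: a bounded, connected (and nonempty), open set that
has a `C^∞` defining function near each of its boundary points. -/
structure IsSmoothDomain {n : ℕ} (Ω : Set (Euc n)) : Prop where
  isOpen : IsOpen Ω
  isConnected : IsConnected Ω
  isBounded : Bornology.IsBounded Ω
  smooth : ∀ x ∈ frontier Ω, ∃ F, IsDefFun Ω x F

/-- `ν` is the outward unit normal of `Ω` at the boundary point `x`: the normalised gradient of a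
defining function. -/
def IsOuterNormal {n : ℕ} (Ω : Set (Euc n)) (x ν : Euc n) : Prop :=
  ∃ F, IsDefFun Ω x F ∧ ν = ‖gradient F x‖⁻¹ • gradient F x

/-- `Photon Ω p v t q`: the photon which is at the point `p` and has velocity `v` at time `0` is at
the point `q` at time `t`. It moves along straight lines in `Ω`; whenever it hits the boundary, it
does so transversally (`0 < ⟪v, ν⟫` for the outward unit normal `ν`) and the velocity `v` is
replaced by `v - 2 ⟪v, ν⟫ ν`. -/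
inductive Photon {n : ℕ} (Ω : Set (Euc n)) : Euc n → Euc n → ℝ → Euc n → Prop
  | fly (p v : Euc n) (t : ℝ) (ht : 0 ≤ t) (hin : ∀ s ∈ Ioc 0 t, p + s • v ∈ Ω) :
      Photon Ω p v t (p + t • v)
  | bounce (p v ν q : Euc n) (τ t : ℝ) (hτ : 0 < τ) (hin : ∀ s ∈ Ioo 0 τ, p + s • v ∈ Ω)
      (hb : p + τ • v ∈ frontier Ω) (hν : IsOuterNormal Ω (p + τ • v) ν) (hv : 0 < ⟪v, ν⟫)
      (h : Photon Ω (p + τ • v) (v - (2 * ⟪v, ν⟫) • ν) t q) :
      Photon Ω p v (τ + t) q

/-- The front at time `t` of the light emitted from `P` in all directions at time `0`. -/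
def front {n : ℕ} (Ω : Set (Euc n)) (P : Euc n) (t : ℝ) : Set (Euc n) :=
  {q | ∃ v : Euc n, ‖v‖ = 1 ∧ Photon Ω P v t q}

/-- The fronts from `P` become dense as `t → ∞`: for each `ε > 0` the front at time `t` is
`ε`-dense in `Ω` for all large `t`. -/
def FrontsBecomeDense {n : ℕ} (Ω : Set (Euc n)) (P : Euc n) : Prop :=
  ∀ ε > 0, ∃ T : ℝ, ∀ t ≥ T, ∀ x ∈ Ω, ∃ q ∈ front Ω P t, dist x q < ε

variable {n : ℕ}

/-- directional derivative of a defining function -/
theorem IsDefFun.slope {Ω : Set (Euc n)} {x : Euc n} {F : Euc n → ℝ} (h : IsDefFun Ω x F)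
    (hx : F x = 0) (u : Euc n) :
    Tendsto (fun s : ℝ => F (x + s • u) / s) (𝓝[>] 0) (𝓝 ⟪gradient F x, u⟫) := by
  have hd : HasFDerivAt F (fderiv ℝ F x) x :=
    (h.1.differentiable (by simp)).differentiableAt.hasFDerivAt
  have hl : HasDerivAt (fun s : ℝ => x + s • u) u 0 := by
    simpa using ((hasDerivAt_id (0 : ℝ)).smul_const u).const_add x
  have hc : HasDerivAt (fun s : ℝ => F (x + s • u)) (fderiv ℝ F x u) 0 :=
    HasFDerivAt.comp_hasDerivAt (x := (0 : ℝ)) (f := fun s : ℝ => x + s • u)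
      (l := F) (l' := fderiv ℝ F x) (by simpa using hd) hl
  have hg : ⟪gradient F x, u⟫ = fderiv ℝ F x u := by
    unfold gradient
    rw [InnerProductSpace.toDual_symm_apply]
  rw [hg]
  have h0 : F (x + (0 : ℝ) • u) = 0 := by simpa using hx
  have h2 := hc.hasDerivWithinAt (s := Ioi 0)
  rw [hasDerivWithinAt_iff_tendsto_slope'] at h2
  · refine h2.congr fun s => ?_
    rw [slope_def_field]
    simp only [h0, sub_zero]
  · simp

theorem IsDefFun.tendsto_line (x u : Euc n) :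
    Tendsto (fun s : ℝ => x + s • u) (𝓝[>] 0) (𝓝 x) := by
  have : Continuous (fun s : ℝ => x + s • u) := by fun_prop
  have h := this.tendsto 0
  simp only [zero_smul, add_zero] at h
  exact h.mono_left nhdsWithin_le_nhds

/-- if `⟪gradient F x, u⟫ < 0` then `x + s u` is in `Ω` for small `s > 0` -/
theorem IsDefFun.mem_of_neg {Ω : Set (Euc n)} {x : Euc n} {F : Euc n → ℝ} (h : IsDefFun Ω x F)
    (hx : F x = 0) {u : Euc n} (hu : ⟪gradient F x, u⟫ < 0) :
    ∀ᶠ s : ℝ in 𝓝[>] 0, x + s • u ∈ Ω := by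
  filter_upwards [(h.slope hx u).eventually (gt_mem_nhds hu), self_mem_nhdsWithin,
    (IsDefFun.tendsto_line x u).eventually h.2.2] with s hs hs0 hs2
  have hs0' : (0 : ℝ) < s := hs0
  refine hs2.2 ?_
  by_contra hcon
  push Not at hcon
  exact absurd hs (not_lt.2 (div_nonneg hcon hs0'.le))

/-- if `⟪gradient F x, u⟫ > 0` then `x + s u` is not in `Ω` for small `s > 0` -/
theorem IsDefFun.not_mem_of_pos {Ω : Set (Euc n)} {x : Euc n} {F : Euc n → ℝ}
    (h : IsDefFun Ω x F) (hx : F x = 0) {u : Euc n} (hu : 0 < ⟪gradient F x, u⟫) :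
    ∀ᶠ s : ℝ in 𝓝[>] 0, x + s • u ∉ Ω := by
  filter_upwards [(h.slope hx u).eventually (lt_mem_nhds hu), self_mem_nhdsWithin,
    (IsDefFun.tendsto_line x u).eventually h.2.2] with s hs hs0 hs2
  have hs0' : (0 : ℝ) < s := hs0
  intro hcon
  exact absurd hs (not_lt.2 (div_nonpos_of_nonpos_of_nonneg (hs2.1 hcon).le hs0'.le))

theorem IsDefFun.eq_zero {Ω : Set (Euc n)} {x : Euc n} {F : Euc n → ℝ} (h : IsDefFun Ω x F)
    (hΩ : IsOpen Ω) (hx : x ∈ frontier Ω) : F x = 0 := by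
  rw [hΩ.frontier_eq] at hx
  have h1 : ¬ F x < 0 := fun hc => hx.2 (h.2.2.self_of_nhds.2 hc)
  refine le_antisymm ?_ (not_lt.1 h1)
  by_contra hcon
  push Not at hcon
  have h2 : ∀ᶠ y in 𝓝 x, 0 < F y := h.1.continuous.continuousAt.eventually (lt_mem_nhds hcon)
  have h3 := mem_closure_iff_frequently.1 hx.1
  obtain ⟨y, hy1, hy2, hy3⟩ := (h3.and_eventually (h2.and h.2.2)).exists
  exact absurd (hy3.1 hy1) (not_lt.2 hy2.le)

/-- the outward unit normal is unique -/
theorem IsDefFun.normal_unique {Ω : Set (Euc n)} {x : Euc n} {F G : Euc n → ℝ}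
    (hF : IsDefFun Ω x F) (hG : IsDefFun Ω x G) (hΩ : IsOpen Ω) (hx : x ∈ frontier Ω) :
    ‖gradient F x‖⁻¹ • gradient F x = ‖gradient G x‖⁻¹ • gradient G x := by
  by_contra hne
  set a := gradient F x with ha
  set b := gradient G x with hb
  have ha0 : 0 < ‖a‖ := norm_pos_iff.2 hF.2.1
  have hb0 : 0 < ‖b‖ := norm_pos_iff.2 hG.2.1
  have ha1 : ‖‖a‖⁻¹ • a‖ = 1 := by
    rw [norm_smul, norm_inv, norm_norm, inv_mul_cancel₀ ha0.ne']
  have hb1 : ‖‖b‖⁻¹ • b‖ = 1 := by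
    rw [norm_smul, norm_inv, norm_norm, inv_mul_cancel₀ hb0.ne']
  have hlt : ⟪‖a‖⁻¹ • a, ‖b‖⁻¹ • b⟫ < 1 := by
    have h1 := real_inner_le_norm (‖a‖⁻¹ • a) (‖b‖⁻¹ • b)
    rw [ha1, hb1, one_mul] at h1
    refine lt_of_le_of_ne h1 fun h2 => hne ?_
    exact (inner_eq_one_iff_of_norm_eq_one ha1 hb1).1 h2
  set u := ‖b‖⁻¹ • b - ‖a‖⁻¹ • a with hu
  have h1 : ⟪‖a‖⁻¹ • a, u⟫ < 0 := by
    rw [hu, inner_sub_right, real_inner_self_eq_norm_sq, ha1]
    linarith
  have h2 : 0 < ⟪‖b‖⁻¹ • b, u⟫ := by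
    rw [hu, inner_sub_right, real_inner_self_eq_norm_sq, hb1, real_inner_comm]
    linarith
  rw [real_inner_smul_left] at h1 h2
  have h1' : ⟪a, u⟫ < 0 := by
    by_contra hcon
    push Not at hcon
    have : 0 ≤ ‖a‖⁻¹ * ⟪a, u⟫ := by positivity
    linarith
  have h2' : 0 < ⟪b, u⟫ := by
    by_contra hcon
    push Not at hcon
    have : ‖b‖⁻¹ * ⟪b, u⟫ ≤ 0 := mul_nonpos_of_nonneg_of_nonpos (by positivity) hcon
    linarith
  obtain ⟨s, hs1, hs2⟩ := ((hF.mem_of_neg (hF.eq_zero hΩ hx) h1').and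
    (hG.not_mem_of_pos (hG.eq_zero hΩ hx) h2')).exists
  exact hs2 hs1

end Pool.Agent.H800R2
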