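import Pool.Agent.H800R2.Front

set_option autoImplicit false

open Set Filter Topology

namespace Pool.Agent.H800R2

open scoped RealInnerProductSpace ContDiff

namespace Room

variable {n : ℕ} (i0 : Fin n)

/-- unit vector in the direction of the axis -/
noncomputable def e : Euc n := EuclideanSpace.single i0 (1 : ℝ)

/-- height -/
def Y (p : Euc n) : ℝ := p i0

/-- squared distance from the axis -/
noncomputable def R (p : Euc n) : ℝ := ‖p‖ ^ 2 - (p i0) ^ 2

/-- ellipsoid -/
noncomputable def Q (p : Euc n) : ℝ := 3 * R i0 p + 4 * (Y i0 p) ^ 2 - 12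

/-- bean -/
noncomputable def G (p : Euc n) : ℝ := (R i0 p - 1) ^ 2 + 2 * (2 * Y i0 p + 1) ^ 2 - 2

/-- the domain -/
def Dom : Set (Euc n) := {p | Q i0 p < 0 ∧ 0 < G i0 p}

/-- the invariant -/
noncomputable def J (p v : Euc n) : ℝ :=
  (Y i0 v) ^ 2 * (1 - ‖p‖ ^ 2) + 2 * Y i0 v * Y i0 p * ⟪p, v⟫ - (Y i0 p) ^ 2 * ‖v‖ ^ 2

/-- lit states -/
def Lit (p v : Euc n) : Prop :=
  (0 ≤ Y i0 p ∧ 0 < J i0 p v) ∨ (-1 / 2 < Y i0 p ∧ Y i0 p < 0 ∧ R i0 p < 1)

variable {i0}

theorem Y_add (p q : Euc n) : Y i0 (p + q) = Y i0 p + Y i0 q := by simp [Y]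
theorem Y_sub (p q : Euc n) : Y i0 (p - q) = Y i0 p - Y i0 q := by simp [Y]
theorem Y_smul (a : ℝ) (q : Euc n) : Y i0 (a • q) = a * Y i0 q := by simp [Y]
theorem Y_e : Y i0 (e i0) = 1 := by simp [Y, e]
theorem inner_e (p : Euc n) : ⟪p, e i0⟫ = Y i0 p := by
  simp [Y, e, EuclideanSpace.inner_single_right]
theorem e_inner (p : Euc n) : ⟪e i0, p⟫ = Y i0 p := by
  simp [Y, e, EuclideanSpace.inner_single_left]
theorem norm_e : ‖e i0‖ = 1 := by simp [e]

theorem R_nonneg (p : Euc n) : 0 ≤ R i0 p := by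
  unfold R
  have h := abs_real_inner_le_norm p (e i0)
  rw [inner_e, norm_e, mul_one] at h
  have := sq_le_sq' (by linarith [neg_abs_le (Y i0 p), abs_le.1 h |>.1]) (abs_le.1 h).2
  unfold Y at this
  linarith

theorem norm_sq_eq (p : Euc n) : ‖p‖ ^ 2 = R i0 p + (Y i0 p) ^ 2 := by
  unfold R Y
  ring

theorem norm_add_smul_sq (p v : Euc n) (s : ℝ) :
    ‖p + s • v‖ ^ 2 = ‖p‖ ^ 2 + 2 * s * ⟪p, v⟫ + s ^ 2 * ‖v‖ ^ 2 := by
  rw [norm_add_sq_real, inner_smul_right, norm_smul, mul_pow, Real.norm_eq_abs, sq_abs]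
  ring

theorem R_line (p v : Euc n) (s : ℝ) :
    R i0 (p + s • v) = R i0 p + 2 * s * (⟪p, v⟫ - Y i0 p * Y i0 v) + s ^ 2 * R i0 v := by
  have h := norm_add_smul_sq p v s
  have h1 := norm_sq_eq (i0 := i0) (p + s • v)
  have h2 := norm_sq_eq (i0 := i0) p
  have h3 := norm_sq_eq (i0 := i0) v
  rw [Y_add, Y_smul] at h1
  rw [h1, h2, h3] at h
  linear_combination h

theorem Y_line (p v : Euc n) (s : ℝ) : Y i0 (p + s • v) = Y i0 p + s * Y i0 v := by
  rw [Y_add, Y_smul]

theorem J_line (p v : Euc n) (s : ℝ) : J i0 (p + s • v) v = J i0 p v := by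
  unfold J
  rw [norm_add_smul_sq, Y_line, inner_add_left, real_inner_smul_left, real_inner_self_eq_norm_sq]
  ring

theorem R_add_e (p : Euc n) (a : ℝ) : R i0 (p + a • e i0) = R i0 p := by
  rw [R_line, inner_e, Y_e]
  have : R i0 (e i0) = 0 := by
    unfold R
    rw [norm_e]
    have := Y_e (i0 := i0)
    unfold Y at this
    rw [this]
    norm_num
  rw [this]
  ring

theorem Y_add_e (p : Euc n) (a : ℝ) : Y i0 (p + a • e i0) = Y i0 p + a := by
  rw [Y_line, Y_e, mul_one]

theorem R_add_hor (p : Euc n) (b : ℝ) :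
    R i0 (p + b • (p - Y i0 p • e i0)) = (1 + b) ^ 2 * R i0 p := by
  have h1 : R i0 (p - Y i0 p • e i0) = R i0 p := by
    have := R_add_e (i0 := i0) p (-Y i0 p)
    rwa [neg_smul, ← sub_eq_add_neg] at this
  rw [R_line, h1, inner_sub_right, real_inner_self_eq_norm_sq, real_inner_smul_right, inner_e,
    Y_sub, Y_smul, Y_e, norm_sq_eq (i0 := i0) p]
  ring

theorem Y_add_hor (p : Euc n) (b : ℝ) : Y i0 (p + b • (p - Y i0 p • e i0)) = Y i0 p := by
  rw [Y_line, Y_sub, Y_smul, Y_e]
  ring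

theorem contDiff_Y : ContDiff ℝ ∞ (Y i0 : Euc n → ℝ) := by
  unfold Y
  fun_prop

theorem contDiff_R : ContDiff ℝ ∞ (R i0 : Euc n → ℝ) := by
  unfold R
  exact (contDiff_norm_sq ℝ).sub (contDiff_Y.pow 2)

theorem contDiff_Q : ContDiff ℝ ∞ (Q i0 : Euc n → ℝ) := by
  unfold Q
  exact ((contDiff_const.mul contDiff_R).add (contDiff_const.mul (contDiff_Y.pow 2))).sub
    contDiff_const

theorem contDiff_G : ContDiff ℝ ∞ (G i0 : Euc n → ℝ) := by
  unfold G
  exact (((contDiff_R.sub contDiff_const).pow 2).add (contDiff_const.mul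
    (((contDiff_const.mul contDiff_Y).add contDiff_const).pow 2))).sub contDiff_const

theorem continuous_Q : Continuous (Q i0 : Euc n → ℝ) := contDiff_Q.continuous
theorem continuous_G : Continuous (G i0 : Euc n → ℝ) := contDiff_G.continuous
theorem continuous_Y : Continuous (Y i0 : Euc n → ℝ) := contDiff_Y.continuous
theorem continuous_R : Continuous (R i0 : Euc n → ℝ) := contDiff_R.continuous

theorem hasGradient_Y (p : Euc n) : HasGradientAt (Y i0) (e i0) p := by
  rw [hasGradientAt_iff_hasFDerivAt]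
  have h : HasFDerivAt (fun p : Euc n => p i0) (EuclideanSpace.proj i0 : Euc n →L[ℝ] ℝ) p :=
    (EuclideanSpace.proj i0 : Euc n →L[ℝ] ℝ).hasFDerivAt
  have h2 : (EuclideanSpace.proj i0 : Euc n →L[ℝ] ℝ) = InnerProductSpace.toDual ℝ (Euc n) (e i0) := by
    ext w
    rw [InnerProductSpace.toDual_apply_apply, e_inner]
    rfl
  rw [← h2]
  exact h

theorem hasGradient_R (p : Euc n) :
    HasGradientAt (R i0) ((2 : ℝ) • (p - Y i0 p • e i0)) p := by
  rw [hasGradientAt_iff_hasFDerivAt]
  have h1 := (hasStrictFDerivAt_norm_sq p).hasFDerivAt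
  have h2 := (hasGradientAt_iff_hasFDerivAt.1 (hasGradient_Y (i0 := i0) p)).pow 2
  have h3 := h1.sub h2
  refine h3.congr_fderiv ?_
  ext w
  simp [inner_sub_left, inner_smul_left, e_inner, Y]
  ring

theorem hasGradient_Q (p : Euc n) :
    HasGradientAt (Q i0) ((2 : ℝ) • ((3 : ℝ) • p + Y i0 p • e i0)) p := by
  rw [hasGradientAt_iff_hasFDerivAt]
  have h1 := (hasGradientAt_iff_hasFDerivAt.1 (hasGradient_R (i0 := i0) p)).const_mul 3
  have h2 := ((hasGradientAt_iff_hasFDerivAt.1 (hasGradient_Y (i0 := i0) p)).pow 2).const_mul 4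
  have h3 := (h1.add h2).sub_const 12
  refine h3.congr_fderiv ?_
  ext w
  simp [inner_sub_left, inner_add_left, inner_smul_left, e_inner, Y]
  ring

theorem hasGradient_G (p : Euc n) :
    HasGradientAt (G i0) ((4 * (R i0 p - 1)) • (p - Y i0 p • e i0) +
      (8 * (2 * Y i0 p + 1)) • e i0) p := by
  rw [hasGradientAt_iff_hasFDerivAt]
  have h1 := ((hasGradientAt_iff_hasFDerivAt.1 (hasGradient_R (i0 := i0) p)).sub_const 1).pow 2
  have h2 := ((((hasGradientAt_iff_hasFDerivAt.1 (hasGradient_Y (i0 := i0) p)).const_mul 2).add_const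
    1).pow 2).const_mul 2
  have h3 := (h1.add h2).sub_const 2
  refine h3.congr_fderiv ?_
  ext w
  simp [inner_sub_left, inner_add_left, inner_smul_left, e_inner, Y]
  ring

/-- the ellipsoid does not meet the bean -/
theorem G_pos_of_Q (p : Euc n) (h : 0 ≤ Q i0 p) : 0 < G i0 p := by
  unfold Q at h
  unfold G
  have hR := R_nonneg (i0 := i0) p
  set r := R i0 p
  set y := Y i0 p
  by_contra hcon
  push Not at hcon
  have h1 : (2 * y + 1) ^ 2 ≤ 1 := by nlinarith [sq_nonneg (r - 1)]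
  have h2 : 2 * y + 1 ≤ 1 := by nlinarith
  have h3 : -1 ≤ 2 * y + 1 := by nlinarith
  have h4 : y ^ 2 ≤ 1 := by nlinarith
  have h5 : 8 / 3 ≤ r := by linarith
  nlinarith [sq_nonneg (2 * y + 1)]

theorem isOpen_Dom : IsOpen (Dom i0 : Set (Euc n)) :=
  (isOpen_lt continuous_Q continuous_const).inter (isOpen_lt continuous_const continuous_G)

theorem closure_Dom_sub (p : Euc n) (hp : p ∈ closure (Dom i0)) : Q i0 p ≤ 0 ∧ 0 ≤ G i0 p := by
  have h : closure (Dom i0) ⊆ {p : Euc n | Q i0 p ≤ 0} ∩ {p | 0 ≤ G i0 p} :=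
    closure_minimal (fun p hp => ⟨hp.1.le, hp.2.le⟩)
      ((isClosed_le continuous_Q continuous_const).inter (isClosed_le continuous_const continuous_G))
  exact h hp

theorem frontier_Dom_sub (p : Euc n) (hp : p ∈ frontier (Dom i0)) :
    (Q i0 p = 0 ∧ 0 < G i0 p) ∨ (G i0 p = 0 ∧ Q i0 p < 0) := by
  rw [isOpen_Dom.frontier_eq] at hp
  obtain ⟨h1, h2⟩ := closure_Dom_sub p hp.1
  rcases h1.lt_or_eq with h | h
  · right
    refine ⟨le_antisymm ?_ h2, h⟩
    by_contra hcon
    exact hp.2 ⟨h, not_le.1 hcon⟩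
  · left
    exact ⟨h, G_pos_of_Q p h.ge⟩

theorem grad_Q (p : Euc n) : gradient (Q i0) p = (2 : ℝ) • ((3 : ℝ) • p + Y i0 p • e i0) :=
  (hasGradient_Q p).gradient

theorem norm_N_sq (p : Euc n) :
    ‖(3 : ℝ) • p + Y i0 p • e i0‖ ^ 2 = 9 * ‖p‖ ^ 2 + 7 * (Y i0 p) ^ 2 := by
  rw [norm_add_smul_sq, norm_smul, mul_pow, real_inner_smul_left, inner_e, norm_e]
  norm_num
  ring

theorem defFun_Q (p : Euc n) (h : Q i0 p = 0) : IsDefFun (Dom i0) p (Q i0) := by
  refine ⟨contDiff_Q, ?_, ?_⟩
  · rw [grad_Q]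
    intro h0
    have h1 : (3 : ℝ) • p + Y i0 p • e i0 = 0 := (smul_eq_zero.1 h0).resolve_left two_ne_zero
    have h2 := norm_N_sq (i0 := i0) p
    rw [h1, norm_zero, norm_sq_eq (i0 := i0) p] at h2
    unfold Q at h
    nlinarith [R_nonneg (i0 := i0) p, sq_nonneg (Y i0 p)]
  · filter_upwards [continuous_G.continuousAt.eventually (lt_mem_nhds (G_pos_of_Q p h.ge))] with y hy
    exact ⟨fun h => h.1, fun h => ⟨h, hy⟩⟩

theorem defFun_G (p : Euc n) (h : G i0 p = 0) : IsDefFun (Dom i0) p (fun p => - G i0 p) := by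
  have hQ : Q i0 p < 0 := by
    by_contra hcon
    exact absurd (G_pos_of_Q p (not_lt.1 hcon)) (by rw [h]; exact lt_irrefl _)
  have hg : gradient (fun p => - G i0 p) p = -((4 * (R i0 p - 1)) • (p - Y i0 p • e i0) +
      (8 * (2 * Y i0 p + 1)) • e i0) := by
    have h1 := hasGradientAt_iff_hasFDerivAt.1 (hasGradient_G (i0 := i0) p)
    have h2 := h1.neg
    rw [← map_neg] at h2
    exact (hasGradientAt_iff_hasFDerivAt.2 h2).gradient
  refine ⟨contDiff_G.neg, ?_, ?_⟩
  · rw [hg, neg_ne_zero]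
    intro h0
    have h1 : ⟪(4 * (R i0 p - 1)) • (p - Y i0 p • e i0) + (8 * (2 * Y i0 p + 1)) • e i0, e i0⟫ = 0 := by
      rw [h0, inner_zero_left]
    have h2 : ⟪(4 * (R i0 p - 1)) • (p - Y i0 p • e i0) + (8 * (2 * Y i0 p + 1)) • e i0, p⟫ = 0 := by
      rw [h0, inner_zero_left]
    rw [inner_add_left, real_inner_smul_left, real_inner_smul_left, inner_sub_left,
      real_inner_smul_left, inner_e, real_inner_self_eq_norm_sq, norm_e] at h1
    rw [inner_add_left, real_inner_smul_left, real_inner_smul_left, inner_sub_left,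
      real_inner_smul_left, e_inner, real_inner_self_eq_norm_sq, norm_sq_eq (i0 := i0)] at h2
    have h3 : 2 * Y i0 p + 1 = 0 := by linarith
    have h4 : (R i0 p - 1) * R i0 p = 0 := by
      rw [h3] at h2
      linear_combination h2 / 4
    unfold G at h
    rw [h3] at h
    rcases mul_eq_zero.1 h4 with h5 | h5
    · rw [h5] at h
      norm_num at h
    · rw [h5] at h
      norm_num at h
  · filter_upwards [continuous_Q.continuousAt.eventually (gt_mem_nhds hQ)] with y hy
    simp only [Left.neg_neg_iff]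
    exact ⟨fun h => h.2, fun h => ⟨hy, h⟩⟩

theorem Lit.reflect {p v ν : Euc n} (h : Lit i0 p v) (hp : p ∈ frontier (Dom i0))
    (hν : IsOuterNormal (Dom i0) p ν) : Lit i0 p (v - (2 * ⟪v, ν⟫) • ν) := by
  rcases h with ⟨hy, hJ⟩ | h
  · rcases frontier_Dom_sub p hp with ⟨hQ, hG⟩ | ⟨hG, hQ⟩
    · left
      refine ⟨hy, ?_⟩
      obtain ⟨F, hF, rfl⟩ := hν
      rw [hF.normal_unique (defFun_Q p hQ) isOpen_Dom hp, grad_Q]
      set N := (3 : ℝ) • p + Y i0 p • e i0 with hN
      have hN2 : ‖N‖ ^ 2 = 36 + 4 * (Y i0 p) ^ 2 := by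
        rw [hN, norm_N_sq, norm_sq_eq (i0 := i0) p]
        unfold Q at hQ
        linear_combination 3 * hQ
      have hN0 : 0 < ‖N‖ := by
        by_contra hcon
        have : ‖N‖ = 0 := le_antisymm (not_lt.1 hcon) (norm_nonneg _)
        rw [this] at hN2
        nlinarith [sq_nonneg (Y i0 p)]
      have hnorm : ‖(2 : ℝ) • N‖⁻¹ • (2 : ℝ) • N = ‖N‖⁻¹ • N := by
        rw [norm_smul, smul_smul]
        congr 1
        norm_num
        field_simp
      rw [hnorm]
      set lam := 2 * (⟪v, N⟫ / ‖N‖ ^ 2) with hlam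
      have hv : v - (2 * ⟪v, ‖N‖⁻¹ • N⟫) • ‖N‖⁻¹ • N = v - lam • N := by
        rw [real_inner_smul_right, smul_smul]
        congr 2
        rw [hlam]
        field_simp
      rw [hv]
      have hvN : ⟪v, N⟫ = 3 * ⟪p, v⟫ + Y i0 p * Y i0 v := by
        rw [hN, inner_add_right, real_inner_smul_right, real_inner_smul_right, inner_e,
          real_inner_comm]
      have hpN : ⟪p, N⟫ = 12 := by
        rw [hN, inner_add_right, real_inner_smul_right, real_inner_smul_right, inner_e,
          real_inner_self_eq_norm_sq, norm_sq_eq (i0 := i0) p]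
        unfold Q at hQ
        linear_combination hQ
      have hYN : Y i0 N = 4 * Y i0 p := by
        rw [hN, Y_add, Y_smul, Y_smul, Y_e]
        ring
      have hlam2 : lam * (36 + 4 * (Y i0 p) ^ 2) = 2 * (3 * ⟪p, v⟫ + Y i0 p * Y i0 v) := by
        rw [hlam, ← hN2, hvN]
        field_simp
      have hnv : ‖v - lam • N‖ ^ 2 = ‖v‖ ^ 2 := by
        have h1 := norm_add_smul_sq v N (-lam)
        rw [neg_smul, ← sub_eq_add_neg] at h1
        rw [h1, hN2, hvN]
        linear_combination lam * hlam2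
      have hP : ‖p‖ ^ 2 = 4 - (Y i0 p) ^ 2 / 3 := by
        rw [norm_sq_eq (i0 := i0) p]
        unfold Q at hQ
        linear_combination hQ / 3
      have hJ2 : J i0 p (v - lam • N) = J i0 p v := by
        unfold J
        rw [hnv, Y_sub, Y_smul, hYN, inner_sub_right, real_inner_smul_right, hpN, hP]
        linear_combination (4 / 3) * lam * (Y i0 p) ^ 2 * hlam2
      rw [hJ2]
      exact hJ
    · exfalso
      unfold G at hG
      set y := Y i0 p with hyy
      have h1 : (R i0 p - 1) ^ 2 + 8 * y * (1 + y) = 0 := by linear_combination hG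
      have h2 : y = 0 := by nlinarith [sq_nonneg (R i0 p - 1)]
      have h3 : (R i0 p - 1) ^ 2 = 0 := by
        rw [h2] at h1
        linear_combination h1
      have h4 : R i0 p = 1 := by
        have := pow_eq_zero_iff (two_ne_zero) |>.1 h3
        linarith
      unfold J at hJ
      rw [norm_sq_eq (i0 := i0) p, h4, ← hyy, h2] at hJ
      norm_num at hJ
  · right
    exact h

/-- one cannot leave the cavity except at the top -/
theorem cavity {y r : ℝ → ℝ} (hy : Continuous y) (hr : Continuous r) {a b : ℝ} (hab : a ≤ b)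
    (h0 : -1 / 2 < y a) (h1 : r a < 1) (hneg : ∀ s ∈ Ioc a b, y s < 0) (hr0 : ∀ s, 0 ≤ r s)
    (hG : ∀ s ∈ Icc a b, 0 ≤ (r s - 1) ^ 2 + 2 * (2 * y s + 1) ^ 2 - 2) :
    -1 / 2 < y b ∧ r b < 1 := by
  by_contra hcon
  have hb : 0 ≤ max (r b - 1) (-1 / 2 - y b) := by
    by_contra h
    push Not at h
    rw [max_lt_iff] at h
    exact hcon ⟨by linarith [h.2], by linarith [h.1]⟩
  have ha : max (r a - 1) (-1 / 2 - y a) < 0 := by
    rw [max_lt_iff]
    constructor <;> linarith
  have hc : ContinuousOn (fun s => max (r s - 1) (-1 / 2 - y s)) (Icc a b) := by fun_prop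
  obtain ⟨s, hs, hs0⟩ := intermediate_value_Icc hab hc ⟨ha.le, hb⟩
  simp only at hs0
  have hsa : s ≠ a := by
    rintro rfl
    rw [hs0] at ha
    exact lt_irrefl _ ha
  have hsneg := hneg s ⟨lt_of_le_of_ne hs.1 hsa.symm, hs.2⟩
  have hGs := hG s hs
  have h2 := le_max_left (r s - 1) (-1 / 2 - y s)
  have h3 := le_max_right (r s - 1) (-1 / 2 - y s)
  rw [hs0] at h2 h3
  have h4 := hr0 s
  rcases max_choice (r s - 1) (-1 / 2 - y s) with h | h
  · rw [hs0] at h
    have : r s - 1 = 0 := h.symm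
    rw [this] at hGs
    nlinarith
  · rw [hs0] at h
    have : 2 * y s + 1 = 0 := by linarith
    rw [this] at hGs
    nlinarith

theorem Lit.fly {p v : Euc n} (h : Lit i0 p v) {τ : ℝ} (hτ : 0 ≤ τ)
    (hG : ∀ s ∈ Icc 0 τ, 0 ≤ G i0 (p + s • v)) : Lit i0 (p + τ • v) v := by
  have hyc : Continuous (fun s : ℝ => Y i0 (p + s • v)) := by
    have := continuous_Y (i0 := i0)
    fun_prop
  have hrc : Continuous (fun s : ℝ => R i0 (p + s • v)) := by
    have := continuous_R (i0 := i0)
    fun_prop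
  rcases le_or_gt 0 (Y i0 (p + τ • v)) with hq | hq
  · rcases h with ⟨hy, hJ⟩ | ⟨hy1, hy2, hr⟩
    · left
      exact ⟨hq, by rwa [J_line]⟩
    · left
      refine ⟨hq, ?_⟩
      rw [Y_line] at hq
      have hv : 0 < Y i0 v := by
        by_contra hcon
        push Not at hcon
        have : τ * Y i0 v ≤ 0 := mul_nonpos_of_nonneg_of_nonpos hτ hcon
        linarith
      set s0 := -Y i0 p / Y i0 v with hs0
      have hs0pos : 0 < s0 := by
        rw [hs0]
        exact div_pos (by linarith) hv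
      have hs0y : Y i0 p + s0 * Y i0 v = 0 := by
        rw [hs0, div_mul_cancel₀ _ hv.ne']
        ring
      have hs0le : s0 ≤ τ := by
        rw [hs0, div_le_iff₀ hv]
        linarith
      have hcav : ∀ s ∈ Ico 0 s0, R i0 (p + s • v) < 1 := by
        intro s hs
        refine (cavity hyc hrc hs.1 (by simpa using hy1) (by simpa using hr) ?_ ?_ ?_).2
        · intro s' hs'
          simp only [Y_line]
          have : s' * Y i0 v < s0 * Y i0 v := mul_lt_mul_of_pos_right (by linarith [hs'.2, hs.2]) hv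
          linarith
        · intro s'
          exact R_nonneg _
        · intro s' hs'
          exact hG s' ⟨hs'.1, by linarith [hs'.2, hs.2]⟩
      have hle : R i0 (p + s0 • v) ≤ 1 := by
        have hmem : s0 ∈ closure (Ico 0 s0) := by
          rw [closure_Ico hs0pos.ne]
          exact ⟨hs0pos.le, le_rfl⟩
        have hcl : closure (Ico 0 s0) ⊆ {s | R i0 (p + s • v) ≤ 1} :=
          closure_minimal (fun s hs => (hcav s hs).le) (isClosed_le hrc continuous_const)
        exact hcl hmem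
      have hJ0 : J i0 (p + τ • v) v = (Y i0 v) ^ 2 * (1 - R i0 (p + s0 • v)) := by
        rw [J_line, ← J_line p v s0]
        unfold J
        rw [norm_sq_eq (i0 := i0) (p + s0 • v), Y_line, hs0y]
        ring
      rw [hJ0]
      rcases hle.lt_or_eq with h1 | h1
      · have : 0 < 1 - R i0 (p + s0 • v) := by linarith
        positivity
      · exfalso
        set p0 := p + s0 • v with hp0
        have hp0y : Y i0 p0 = 0 := by rw [hp0, Y_line, hs0y]
        set B := ⟪p0, v⟫ with hB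
        have hkey : ∀ δ ∈ Ioo 0 s0, 8 * Y i0 v ≤
            δ * (-2 * B + δ * R i0 v) ^ 2 + 8 * δ * (Y i0 v) ^ 2 := by
          intro δ hδ
          have h2 := hG (s0 - δ) ⟨by linarith [hδ.2], by linarith [hδ.1]⟩
          have h3 : p + (s0 - δ) • v = p0 + (-δ) • v := by
            rw [hp0, sub_smul, neg_smul]
            abel
          rw [h3] at h2
          unfold G at h2
          rw [R_line p0 v, Y_line p0 v, hp0y, h1, ← hB] at h2
          have h4 : 0 ≤ δ * (δ * (-2 * B + δ * R i0 v) ^ 2 + 8 * δ * (Y i0 v) ^ 2 - 8 * Y i0 v) := by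
            nlinarith [h2]
          have h5 := nonneg_of_mul_nonneg_right h4 hδ.1
          linarith
        have hcont : Continuous (fun δ : ℝ => δ * (-2 * B + δ * R i0 v) ^ 2 +
            8 * δ * (Y i0 v) ^ 2) := by fun_prop
        have h6 : ∀ᶠ δ in 𝓝[>] (0 : ℝ), δ * (-2 * B + δ * R i0 v) ^ 2 +
            8 * δ * (Y i0 v) ^ 2 < 8 * Y i0 v := by
          have h7 : Tendsto (fun δ : ℝ => δ * (-2 * B + δ * R i0 v) ^ 2 +
            8 * δ * (Y i0 v) ^ 2) (𝓝[>] 0) (𝓝 0) := by
            have := hcont.tendsto 0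
            simp only [zero_mul, mul_zero, add_zero] at this
            exact this.mono_left nhdsWithin_le_nhds
          exact h7.eventually (gt_mem_nhds (by linarith))
        have h8 : ∀ᶠ δ in 𝓝[>] (0 : ℝ), δ ∈ Ioo 0 s0 := Ioo_mem_nhdsGT hs0pos
        obtain ⟨δ, hδ1, hδ2⟩ := (h6.and h8).exists
        linarith [hkey δ hδ2]
  · right
    rcases h with ⟨hy, hJ⟩ | ⟨hy1, hy2, hr⟩
    · have hq' := hq
      rw [Y_line] at hq'
      have hv : Y i0 v < 0 := by
        by_contra hcon
        push Not at hcon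
        have : 0 ≤ τ * Y i0 v := mul_nonneg hτ hcon
        linarith
      set s0 := -Y i0 p / Y i0 v with hs0
      have hs0nn : 0 ≤ s0 := by
        rw [hs0]
        exact div_nonneg_of_nonpos (by linarith) hv.le
      have hs0y : Y i0 p + s0 * Y i0 v = 0 := by
        rw [hs0, div_mul_cancel₀ _ hv.ne]
        ring
      have hs0lt : s0 < τ := by
        by_contra hcon
        push Not at hcon
        have : s0 * Y i0 v ≤ τ * Y i0 v := mul_le_mul_of_nonpos_right hcon hv.le
        linarith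
      have hJ0 : J i0 p v = (Y i0 v) ^ 2 * (1 - R i0 (p + s0 • v)) := by
        rw [← J_line p v s0]
        unfold J
        rw [norm_sq_eq (i0 := i0) (p + s0 • v), Y_line, hs0y]
        ring
      have hR1 : R i0 (p + s0 • v) < 1 := by
        by_contra hcon
        push Not at hcon
        have : (Y i0 v) ^ 2 * (1 - R i0 (p + s0 • v)) ≤ 0 :=
          mul_nonpos_of_nonneg_of_nonpos (sq_nonneg _) (by linarith)
        linarith
      have := cavity hyc hrc hs0lt.le (by simp only [Y_line, hs0y]; norm_num) hR1 ?_ ?_ ?_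
      · exact ⟨this.1, hq, this.2⟩
      · intro s hs
        simp only [Y_line]
        have : s * Y i0 v < s0 * Y i0 v := mul_lt_mul_of_neg_right hs.1 hv
        linarith
      · intro s
        exact R_nonneg _
      · intro s hs
        exact hG s ⟨by linarith [hs.1], hs.2⟩
    · have := cavity hyc hrc hτ (by simpa using hy1) (by simpa using hr) ?_ ?_ ?_
      · exact ⟨this.1, hq, this.2⟩
      · intro s hs
        rw [Y_line] at hq
        simp only [Y_line]
        rcases le_or_gt 0 (Y i0 v) with hv | hv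
        · have : s * Y i0 v ≤ τ * Y i0 v := mul_le_mul_of_nonneg_right hs.2 hv
          linarith
        · have : s * Y i0 v < 0 := mul_neg_of_pos_of_neg hs.1 hv
          linarith
      · intro s
        exact R_nonneg _
      · intro s hs
        exact hG s hs

theorem G_nonneg_closure {p v : Euc n} {τ : ℝ} (hτ : 0 < τ)
    (hin : ∀ s ∈ Ioo 0 τ, p + s • v ∈ Dom i0) : ∀ s ∈ Icc 0 τ, 0 ≤ G i0 (p + s • v) := by
  have hc : Continuous (fun s : ℝ => G i0 (p + s • v)) := by
    have := continuous_G (i0 := i0)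
    fun_prop
  have hcl : closure (Ioo 0 τ) ⊆ {s : ℝ | 0 ≤ G i0 (p + s • v)} :=
    closure_minimal (fun s hs => (hin s hs).2.le) (isClosed_le continuous_const hc)
  rw [closure_Ioo hτ.ne] at hcl
  exact hcl

theorem Lit.photon {p v : Euc n} {t : ℝ} {q : Euc n} (hph : Photon (Dom i0) p v t q)
    (h : Lit i0 p v) : -1 / 2 < Y i0 q := by
  induction hph with
  | fly p v t ht hin =>
    have h1 : Lit i0 (p + t • v) v := by
      rcases ht.eq_or_lt with h0 | h0
      · rw [← h0]
        simpa using h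
      · exact h.fly ht (G_nonneg_closure h0 fun s hs => hin s ⟨hs.1, hs.2.le⟩)
    rcases h1 with h1 | h1
    · linarith [h1.1]
    · exact h1.1
  | bounce p v ν q τ t hτ hin hb hν hv hph ih =>
    exact ih ((h.fly hτ.le (G_nonneg_closure hτ hin)).reflect hb hν)

end Room

end Pool.Agent.H800R2
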