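import Pool.Agent.H800R2.Room

set_option autoImplicit false

open Set Filter Topology

namespace Pool.Agent.H800R2

open scoped RealInnerProductSpace ContDiff

namespace Room

variable {n : ℕ} {i0 : Fin n}

theorem joined_line {p w : Euc n} (h : ∀ θ ∈ Icc (0 : ℝ) 1, p + θ • w ∈ Dom i0) :
    JoinedIn (Dom i0) p (p + w) := by
  refine JoinedIn.of_segment_subset ?_
  rw [segment_eq_image']
  rintro x ⟨θ, hθ, rfl⟩
  have := h θ hθ
  simpa using this

theorem joined_vert {p : Euc n} {a : ℝ} (h : ∀ θ ∈ Icc (0 : ℝ) 1, p + (θ * a) • e i0 ∈ Dom i0) :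
    JoinedIn (Dom i0) p (p + a • e i0) :=
  joined_line fun θ hθ => by
    rw [smul_smul]
    exact h θ hθ

theorem joined_hor {p : Euc n} {b : ℝ}
    (h : ∀ θ ∈ Icc (0 : ℝ) 1, p + (θ * b) • (p - Y i0 p • e i0) ∈ Dom i0) :
    JoinedIn (Dom i0) p (p + b • (p - Y i0 p • e i0)) :=
  joined_line fun θ hθ => by
    rw [smul_smul]
    exact h θ hθ

/-- convexity along a segment -/
theorem line_R_le (p q : Euc n) {θ : ℝ} (hθ : θ ∈ Icc (0 : ℝ) 1) :
    Q i0 (p + θ • (q - p)) ≤ (1 - θ) * Q i0 p + θ * Q i0 q := by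
  have h1 := R_line (i0 := i0) p (q - p) θ
  have h2 := R_line (i0 := i0) p (q - p) 1
  have h3 := R_nonneg (i0 := i0) (q - p)
  rw [one_smul, add_sub_cancel] at h2
  unfold Q
  rw [Y_line, Y_sub, h1]
  have h4 : 0 ≤ θ * (1 - θ) := mul_nonneg hθ.1 (by linarith [hθ.2])
  nlinarith [mul_nonneg h4 h3, mul_nonneg h4 (sq_nonneg (Y i0 q - Y i0 p))]

theorem joined_top {p q : Euc n} (hp : p ∈ Dom i0) (hq : q ∈ Dom i0) (hp1 : 0 < Y i0 p)
    (hq1 : 0 < Y i0 q) : JoinedIn (Dom i0) p q := by
  have h := joined_line (i0 := i0) (p := p) (w := q - p) ?_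
  · simpa using h
  · intro θ hθ
    have h1 := line_R_le (i0 := i0) p q hθ
    have h2 : (1 - θ) * Q i0 p + θ * Q i0 q < 0 := by
      rcases hθ.1.eq_or_lt with h | h
      · rw [← h]
        linarith [hp.1]
      · nlinarith [mul_neg_of_pos_of_neg h hq.1, mul_nonpos_of_nonneg_of_nonpos
          (sub_nonneg.2 hθ.2) hp.1.le]
    refine ⟨by linarith, ?_⟩
    have h3 : 0 < Y i0 (p + θ • (q - p)) := by
      rw [Y_line, Y_sub]
      rcases hθ.1.eq_or_lt with h | h
      · rw [← h]
        linarith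
      · nlinarith [mul_pos h hq1, mul_nonneg (sub_nonneg.2 hθ.2) hp1.le]
    unfold G
    nlinarith [sq_nonneg (R i0 (p + θ • (q - p)) - 1)]

theorem joined_bot {p q : Euc n} (hp : p ∈ Dom i0) (hq : q ∈ Dom i0) (hp1 : Y i0 p < -1)
    (hq1 : Y i0 q < -1) : JoinedIn (Dom i0) p q := by
  have h := joined_line (i0 := i0) (p := p) (w := q - p) ?_
  · simpa using h
  · intro θ hθ
    have h1 := line_R_le (i0 := i0) p q hθ
    have h2 : (1 - θ) * Q i0 p + θ * Q i0 q < 0 := by
      rcases hθ.1.eq_or_lt with h | h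
      · rw [← h]
        linarith [hp.1]
      · nlinarith [mul_neg_of_pos_of_neg h hq.1, mul_nonpos_of_nonneg_of_nonpos
          (sub_nonneg.2 hθ.2) hp.1.le]
    refine ⟨by linarith, ?_⟩
    have h3 : Y i0 (p + θ • (q - p)) < -1 := by
      rw [Y_line, Y_sub]
      rcases hθ.1.eq_or_lt with h | h
      · rw [← h]
        linarith
      · nlinarith [mul_pos h (sub_pos.2 hq1), mul_nonneg (sub_nonneg.2 hθ.2) (sub_pos.2 hp1).le]
    unfold G
    nlinarith [sq_nonneg (R i0 (p + θ • (q - p)) - 1)]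

/-- the point at height `1 / 2` on the axis -/
noncomputable def top (i0 : Fin n) : Euc n := (1 / 2 : ℝ) • e i0

theorem Y_top : Y i0 (top i0) = 1 / 2 := by
  rw [top, Y_smul, Y_e, mul_one]

theorem R_zero : R i0 (0 : Euc n) = 0 := by simp [R]
theorem Y_zero : Y i0 (0 : Euc n) = 0 := by simp [Y]

theorem R_axis (a : ℝ) : R i0 (a • e i0) = 0 := by
  have := R_add_e (i0 := i0) 0 a
  rwa [zero_add, R_zero] at this

theorem top_mem : top i0 ∈ Dom i0 := by
  constructor
  · unfold Q
    rw [Y_top, top, R_axis]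
    norm_num
  · unfold G
    rw [Y_top, top, R_axis]
    norm_num

/-- a point with `R = 5 / 2` can be moved vertically -/
theorem vert_out {p : Euc n} (hR : R i0 p = 5 / 2) (h1 : -21 / 20 ≤ Y i0 p) (h2 : Y i0 p ≤ 1 / 2) :
    JoinedIn (Dom i0) p (top i0) := by
  have h3 : JoinedIn (Dom i0) p (p + (1 / 2 - Y i0 p) • e i0) := by
    refine joined_vert fun θ hθ => ?_
    have hlo : -21 / 20 ≤ Y i0 p + θ * (1 / 2 - Y i0 p) := by
      nlinarith [mul_nonneg hθ.1 (sub_nonneg.2 h2)]
    have hhi : Y i0 p + θ * (1 / 2 - Y i0 p) ≤ 1 / 2 := by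
      nlinarith [mul_nonneg (sub_nonneg.2 hθ.2) (sub_nonneg.2 h2)]
    constructor
    · unfold Q
      rw [R_add_e, Y_add_e, hR]
      nlinarith
    · unfold G
      rw [R_add_e, Y_add_e, hR]
      nlinarith [sq_nonneg (2 * (Y i0 p + θ * (1 / 2 - Y i0 p)) + 1)]
  have h4 : p + (1 / 2 - Y i0 p) • e i0 ∈ Dom i0 := h3.mem.2
  refine h3.trans (joined_top h4 top_mem ?_ ?_)
  · rw [Y_add_e]
    norm_num
  · rw [Y_top]
    norm_num

/-- joining a point of the bottom region to the top -/
theorem joined_bot_top {i1 : Fin n} (hi : i1 ≠ i0) {p : Euc n} (hp : p ∈ Dom i0)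
    (hp1 : Y i0 p < -1) : JoinedIn (Dom i0) p (top i0) := by
  set f : Euc n := EuclideanSpace.single i1 (1 : ℝ) with hf
  set b0 : Euc n := (Real.sqrt (5 / 2)) • f + (-21 / 20 : ℝ) • e i0 with hb0
  have hYf : Y i0 f = 0 := by simp [Y, hf, hi.symm]
  have hnf : ‖f‖ = 1 := by simp [hf]
  have hYb : Y i0 b0 = -21 / 20 := by
    rw [hb0, Y_add_e, Y_smul, hYf]
    ring
  have hRb : R i0 b0 = 5 / 2 := by
    rw [hb0, R_add_e]
    have h1 := norm_sq_eq (i0 := i0) (Real.sqrt (5 / 2) • f)
    rw [Y_smul, hYf, norm_smul, hnf, mul_one, Real.norm_eq_abs, sq_abs,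
      Real.sq_sqrt (by norm_num)] at h1
    linarith
  have hb : b0 ∈ Dom i0 := by
    constructor
    · unfold Q
      rw [hRb, hYb]
      norm_num
    · unfold G
      rw [hRb, hYb]
      norm_num
  refine (joined_bot hp hb hp1 (by rw [hYb]; norm_num)).trans (vert_out hRb ?_ ?_)
  · rw [hYb]
  · rw [hYb]
    norm_num

theorem joined_all {i1 : Fin n} (hi : i1 ≠ i0) {p : Euc n} (hp : p ∈ Dom i0) :
    JoinedIn (Dom i0) p (top i0) := by
  have hpQ := hp.1
  have hpG := hp.2
  unfold Q at hpQ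
  unfold G at hpG
  have hR0 := R_nonneg (i0 := i0) p
  rcases lt_or_ge 0 (Y i0 p) with h1 | h1
  · exact joined_top hp top_mem h1 (by rw [Y_top]; norm_num)
  rcases lt_or_ge (Y i0 p) (-1) with h2 | h2
  · exact joined_bot_top hi hp h2
  have hy1 : (2 * Y i0 p + 1) ^ 2 ≤ 1 := by nlinarith
  rcases lt_or_ge 1 (R i0 p) with h3 | h3
  · -- outer part
    set κ := Real.sqrt (5 / 2) / Real.sqrt (R i0 p) with hκ
    have hsR : 0 < Real.sqrt (R i0 p) := Real.sqrt_pos.2 (by linarith)
    have hκ0 : 0 < κ := by positivity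
    have hκ2 : κ ^ 2 * R i0 p = 5 / 2 := by
      rw [hκ, div_pow, Real.sq_sqrt (by norm_num), Real.sq_sqrt hR0]
      field_simp
    have h4 : JoinedIn (Dom i0) p (p + (κ - 1) • (p - Y i0 p • e i0)) := by
      refine joined_hor fun θ hθ => ?_
      have h5 : (1 + θ * (κ - 1)) ^ 2 * R i0 p - 1 ≥ min (R i0 p) (5 / 2) - 1 ∧
          (1 + θ * (κ - 1)) ^ 2 * R i0 p ≤ max (R i0 p) (5 / 2) := by
        rcases le_or_gt 1 κ with h6 | h6
        · have h7 : 1 ≤ 1 + θ * (κ - 1) := by nlinarith [mul_nonneg hθ.1 (sub_nonneg.2 h6)]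
          have h8 : 1 + θ * (κ - 1) ≤ κ := by
            nlinarith [mul_nonneg (sub_nonneg.2 hθ.2) (sub_nonneg.2 h6)]
          have h9 : 1 ≤ (1 + θ * (κ - 1)) ^ 2 := by nlinarith
          have h10 : (1 + θ * (κ - 1)) ^ 2 ≤ κ ^ 2 := by nlinarith
          constructor
          · have := min_le_left (R i0 p) (5 / 2)
            nlinarith
          · have := le_max_right (R i0 p) (5 / 2)
            nlinarith
        · have h7 : 1 + θ * (κ - 1) ≤ 1 := by nlinarith [mul_nonneg hθ.1 (sub_nonneg.2 h6.le)]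
          have h8 : κ ≤ 1 + θ * (κ - 1) := by
            nlinarith [mul_nonneg (sub_nonneg.2 hθ.2) (sub_nonneg.2 h6.le)]
          have h9 : (1 + θ * (κ - 1)) ^ 2 ≤ 1 := by nlinarith
          have h10 : κ ^ 2 ≤ (1 + θ * (κ - 1)) ^ 2 := by nlinarith
          constructor
          · have := min_le_right (R i0 p) (5 / 2)
            nlinarith
          · have := le_max_left (R i0 p) (5 / 2)
            nlinarith
      obtain ⟨h6, h7⟩ := h5
      constructor
      · unfold Q
        rw [R_add_hor, Y_add_hor]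
        rcases max_choice (R i0 p) (5 / 2) with h8 | h8
        · rw [h8] at h7
          linarith
        · rw [h8] at h7
          nlinarith
      · unfold G
        rw [R_add_hor, Y_add_hor]
        rcases min_choice (R i0 p) (5 / 2) with h8 | h8
        · rw [h8] at h6
          nlinarith
        · rw [h8] at h6
          nlinarith [sq_nonneg (2 * Y i0 p + 1)]
    refine h4.trans (vert_out ?_ ?_ ?_)
    · rw [R_add_hor, ← hκ2]
      ring
    · rw [Y_add_hor]
      linarith
    · rw [Y_add_hor]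
      linarith
  · -- inner part
    have h4 : 1 < 2 * (2 * Y i0 p + 1) ^ 2 := by nlinarith
    rcases lt_or_ge 0 (2 * Y i0 p + 1) with h5 | h5
    · have h6 : JoinedIn (Dom i0) p (p + (1 / 2 - Y i0 p) • e i0) := by
        refine joined_vert fun θ hθ => ?_
        have hlo : Y i0 p ≤ Y i0 p + θ * (1 / 2 - Y i0 p) := by
          have : 0 ≤ θ * (1 / 2 - Y i0 p) := mul_nonneg hθ.1 (by linarith)
          linarith
        have hhi : Y i0 p + θ * (1 / 2 - Y i0 p) ≤ 1 / 2 := by
          have : 0 ≤ (1 - θ) * (1 / 2 - Y i0 p) := mul_nonneg (sub_nonneg.2 hθ.2) (by linarith)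
          linarith
        constructor
        · unfold Q
          rw [R_add_e, Y_add_e]
          generalize Y i0 p + θ * (1 / 2 - Y i0 p) = y' at hlo hhi
          have : y' ^ 2 ≤ 1 := by nlinarith
          linarith
        · unfold G
          rw [R_add_e, Y_add_e]
          generalize Y i0 p + θ * (1 / 2 - Y i0 p) = y' at hlo hhi
          have : (2 * Y i0 p + 1) ^ 2 ≤ (2 * y' + 1) ^ 2 :=
            pow_le_pow_left₀ h5.le (by linarith) 2
          linarith
      refine h6.trans (joined_top h6.mem.2 top_mem ?_ ?_)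
      · rw [Y_add_e]
        norm_num
      · rw [Y_top]
        norm_num
    · have h6 : JoinedIn (Dom i0) p (p + (-5 / 4 - Y i0 p) • e i0) := by
        refine joined_vert fun θ hθ => ?_
        have hlo : Y i0 p + θ * (-5 / 4 - Y i0 p) ≤ Y i0 p := by
          have : 0 ≤ θ * (Y i0 p + 5 / 4) := mul_nonneg hθ.1 (by linarith)
          linarith
        have hhi : -5 / 4 ≤ Y i0 p + θ * (-5 / 4 - Y i0 p) := by
          have : 0 ≤ (1 - θ) * (Y i0 p + 5 / 4) := mul_nonneg (sub_nonneg.2 hθ.2) (by linarith)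
          linarith
        constructor
        · unfold Q
          rw [R_add_e, Y_add_e]
          generalize Y i0 p + θ * (-5 / 4 - Y i0 p) = y' at hlo hhi
          have : y' ^ 2 ≤ (5 / 4) ^ 2 := by
            have h7 : y' ≤ 0 := by linarith
            nlinarith
          linarith
        · unfold G
          rw [R_add_e, Y_add_e]
          generalize Y i0 p + θ * (-5 / 4 - Y i0 p) = y' at hlo hhi
          have h8 : (-(2 * Y i0 p + 1)) ^ 2 ≤ (-(2 * y' + 1)) ^ 2 :=
            pow_le_pow_left₀ (by linarith) (by linarith) 2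
          rw [neg_sq, neg_sq] at h8
          linarith
      refine h6.trans (joined_bot_top hi h6.mem.2 ?_)
      rw [Y_add_e]
      norm_num

theorem isConnected_Dom {i1 : Fin n} (hi : i1 ≠ i0) : IsConnected (Dom i0) := by
  refine IsPathConnected.isConnected ⟨top i0, top_mem, fun {y} hy => (joined_all hi hy).symm⟩

theorem isBounded_Dom : Bornology.IsBounded (Dom i0) := by
  refine (Metric.isBounded_ball (x := (0 : Euc n)) (r := 3)).subset ?_
  intro p hp
  rw [mem_ball_zero_iff]
  have h1 := hp.1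
  unfold Q at h1
  have h2 := norm_sq_eq (i0 := i0) p
  nlinarith [norm_nonneg p, sq_nonneg (Y i0 p), R_nonneg (i0 := i0) p]

theorem isSmoothDomain_Dom {i1 : Fin n} (hi : i1 ≠ i0) : IsSmoothDomain (Dom i0) where
  isOpen := isOpen_Dom
  isConnected := isConnected_Dom hi
  isBounded := isBounded_Dom
  smooth := by
    intro x hx
    rcases frontier_Dom_sub x hx with h | h
    · exact ⟨_, defFun_Q x h.1⟩
    · exact ⟨_, defFun_G x h.1⟩

end Room

end Pool.Agent.H800R2
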