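import Mathlib

set_option autoImplicit false

open Set Filter Topology MeasureTheory

namespace Pool.Agent.H800R2.Stolz

open Real Complex

/-- truncated logarithm -/
theorem lmax_continuous (w : ℂ) {r : ℝ} (hr : 0 < r) :
    Continuous (fun z : ℂ => Real.log (max ‖z - w‖ r)) := by
  refine Continuous.log (by fun_prop) fun z => ?_
  exact (lt_of_lt_of_le hr (le_max_right _ _)).ne'

theorem avg_lmax (x w : ℂ) {a r : ℝ} (ha : 0 < a) (hr : 0 < r) :
    Real.log (max ‖x - w‖ r) ≤ circleAverage (fun z : ℂ => Real.log (max ‖z - w‖ r)) x a := by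
  have hci : CircleIntegrable (fun z : ℂ => Real.log (max ‖z - w‖ r)) x a :=
    (lmax_continuous w hr).continuousOn.circleIntegrable ha.le
  rcases le_or_gt ‖x - w‖ r with h | h
  · rw [max_eq_right h]
    rw [← circleAverage_const (Real.log r) x a]
    refine circleAverage_mono (circleIntegrable_const _ _ _) hci fun z hz => ?_
    exact Real.log_le_log hr (le_max_right _ _)
  · rw [max_eq_left h.le]
    set g : ℂ → ℝ := fun z => if z = w then Real.log r else Real.log ‖z - w‖ with hg
    have hgc : circleAverage g x a = circleAverage (Real.log ‖· - w‖) x a := by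
      refine circleAverage_congr_codiscreteWithin ?_ ha.ne'
      have : {z : ℂ | z ≠ w} ∈ codiscreteWithin (Metric.sphere x |a|) := by
        apply codiscreteWithin_iff_locallyFiniteComplementWithin.2
        intro z hz
        refine ⟨Set.univ, univ_mem, ?_⟩
        apply Set.Subsingleton.finite
        intro z₁ hz₁ z₂ hz₂
        simp_all
      filter_upwards [this] with z hz
      simp only [hg]
      rw [if_neg hz]
    have h1 : Real.log ‖x - w‖ ≤ circleAverage (Real.log ‖· - w‖) x a := by
      rw [circleAverage_log_norm_sub_const_eq_log_radius_add_posLog ha.ne']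
      have hxw : 0 < ‖x - w‖ := hr.trans h
      have h2 : Real.log ‖x - w‖ = Real.log a + Real.log (a⁻¹ * ‖x - w‖) := by
        rw [Real.log_mul (by positivity) hxw.ne', Real.log_inv]
        ring
      rw [h2]
      gcongr
      exact le_max_right _ _
    rw [← hgc] at h1
    refine h1.trans (circleAverage_mono ?_ hci fun z hz => ?_)
    · have h3 : CircleIntegrable (Real.log ‖· - w‖) x a :=
        MeromorphicOn.circleIntegrable_log_norm (fun _ _ => by fun_prop)
      refine h3.congr_codiscreteWithin ?_
      have : {z : ℂ | z ≠ w} ∈ codiscreteWithin (Metric.sphere x |a|) := by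
        apply codiscreteWithin_iff_locallyFiniteComplementWithin.2
        intro z hz
        refine ⟨Set.univ, univ_mem, ?_⟩
        apply Set.Subsingleton.finite
        intro z₁ hz₁ z₂ hz₂
        simp_all
      filter_upwards [this] with z hz
      simp only [hg]
      rw [if_neg hz]
    · simp only [hg]
      split_ifs with h4
      · exact Real.log_le_log hr (le_max_right _ _)
      · exact Real.log_le_log (norm_pos_iff.2 (sub_ne_zero.2 h4)) (le_max_left _ _)

theorem avg_sq (x w : ℂ) (a : ℝ) :
    circleAverage (fun z : ℂ => ‖z - w‖ ^ 2) x a = ‖x - w‖ ^ 2 + a ^ 2 := by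
  set L : ℂ →L[ℝ] ℝ := (2 : ℝ) • innerSL ℝ (x - w) with hL
  have h0 : circleAverage (fun z : ℂ => z - x) x a = 0 := by
    have := circleAverage_of_differentiable_on_off_countable (s := (∅ : Set ℂ)) (c := x) (R := a)
      (f := fun z : ℂ => z - x) countable_empty (by fun_prop) (fun z hz => by fun_prop)
    simpa using this
  have hci : CircleIntegrable (fun z : ℂ => z - x) x a := by
    refine Continuous.continuousOn (by fun_prop) |>.circleIntegrable' 
  have h1 := L.circleAverage_comp_comm (c := x) (R := a) hci
  rw [h0, map_zero] at h1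
  have h2 : circleAverage (fun z : ℂ => ‖z - w‖ ^ 2) x a =
      circleAverage ((fun _ : ℂ => ‖x - w‖ ^ 2 + a ^ 2) + (L ∘ fun z : ℂ => z - x)) x a := by
    refine circleAverage_congr_sphere fun z hz => ?_
    have h3 : ‖z - x‖ = |a| := by simpa using hz
    have h4 : z - w = (x - w) + (z - x) := by ring
    have h5 := norm_add_sq_real (x - w) (z - x)
    simp only [Pi.add_apply, Function.comp_apply, hL, smul_apply,
      innerSL_apply_apply, smul_eq_mul]
    rw [h4, h5, h3, sq_abs]
    ring
  rw [h2, circleAverage_add (circleIntegrable_const _ _ _) ?_, h1, circleAverage_const, add_zero]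
  exact (Continuous.continuousOn (by fun_prop)).circleIntegrable'

end Pool.Agent.H800R2.Stolz
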