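import Pool.Agent.H800R2.StolzA

set_option autoImplicit false

open Set Filter Topology MeasureTheory

namespace Pool.Agent.H800R2.Stolz

open Real Complex

/-- uniform distribution on `(0, 2π]` -/
noncomputable def nu : Measure ℝ := ENNReal.ofReal (2 * π)⁻¹ • volume.restrict (Ioc 0 (2 * π))

instance : IsProbabilityMeasure nu := by
  constructor
  rw [nu, Measure.smul_apply, Measure.restrict_apply MeasurableSet.univ, univ_inter,
    Real.volume_Ioc, sub_zero, smul_eq_mul, ← ENNReal.ofReal_mul (by positivity),
    inv_mul_cancel₀ (by positivity), ENNReal.ofReal_one]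

/-- independent uniform phases -/
noncomputable def PP : Measure (ℕ → ℝ) := Measure.infinitePi (fun _ : ℕ => nu)

instance : IsProbabilityMeasure PP := by
  unfold PP
  infer_instance

theorem measurable_update2 (N : ℕ) :
    Measurable (fun p : (ℕ → ℝ) × ℝ => Function.update p.1 N p.2) := by
  rw [measurable_pi_iff]
  intro i
  by_cases h : i = N
  · subst h
    simpa using measurable_snd
  · have : (fun p : (ℕ → ℝ) × ℝ => Function.update p.1 N p.2 i) = fun p => p.1 i := by
      ext p
      rw [Function.update_of_ne h]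
    rw [this]
    exact (measurable_pi_apply i).comp measurable_fst

/-- resampling one coordinate -/
theorem map_update (N : ℕ) :
    (PP.prod nu).map (fun p : (ℕ → ℝ) × ℝ => Function.update p.1 N p.2) = PP := by
  classical
  refine Measure.eq_infinitePi _ fun s t ht => ?_
  rw [Measure.map_apply (measurable_update2 N) (MeasurableSet.pi s.countable_toSet
    fun i _ => ht i)]
  by_cases hN : N ∈ s
  · have h1 : (fun p : (ℕ → ℝ) × ℝ => Function.update p.1 N p.2) ⁻¹' (Set.pi s t) =
        (Set.pi (s.erase N : Finset ℕ) t) ×ˢ (t N) := by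
      ext ⟨ω, y⟩
      simp only [mem_preimage, Set.mem_pi, mem_prod, Finset.mem_coe, Finset.mem_erase]
      constructor
      · intro h
        refine ⟨fun i hi => ?_, ?_⟩
        · have := h i hi.2
          rwa [Function.update_of_ne hi.1] at this
        · have := h N hN
          rwa [Function.update_self] at this
      · rintro ⟨h1, h2⟩ i hi
        by_cases hiN : i = N
        · subst hiN
          rwa [Function.update_self]
        · rw [Function.update_of_ne hiN]
          exact h1 i ⟨hiN, hi⟩
    rw [h1, Measure.prod_prod, PP, Measure.infinitePi_pi _ (fun i _ => ht i)]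
    exact Finset.prod_erase_mul s _ hN
  · have h1 : (fun p : (ℕ → ℝ) × ℝ => Function.update p.1 N p.2) ⁻¹' (Set.pi s t) =
        (Set.pi s t) ×ˢ (univ : Set ℝ) := by
      ext ⟨ω, y⟩
      simp only [mem_preimage, Set.mem_pi, mem_prod, Finset.mem_coe, mem_univ, and_true]
      refine forall₂_congr fun i hi => ?_
      rw [Function.update_of_ne (fun h => hN (by rw [← h]; exact hi))]
    rw [h1, Measure.prod_prod, measure_univ, mul_one, PP, Measure.infinitePi_pi _ (fun i _ => ht i)]

theorem lintegral_resample (N : ℕ) {F : (ℕ → ℝ) → ENNReal} (hF : Measurable F) :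
    ∫⁻ ω, F ω ∂PP = ∫⁻ ω, ∫⁻ y, F (Function.update ω N y) ∂nu ∂PP := by
  conv_lhs => rw [← map_update N]
  rw [lintegral_map hF (measurable_update2 N), lintegral_prod]
  exact (hF.comp (measurable_update2 N)).aemeasurable

/-- the random walk with steps `a k` and extra rotations `c k` -/
noncomputable def W (a c : ℕ → ℝ) (n : ℕ) (ω : ℕ → ℝ) : ℂ :=
  ∑ k ∈ Finset.range n, a k * Complex.exp ((ω k + c k : ℝ) * I)

theorem W_update (a c : ℕ → ℝ) (n m : ℕ) (hm : m ≤ n) (ω : ℕ → ℝ) (y : ℝ) :
    W a c m (Function.update ω n y) = W a c m ω := by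
  unfold W
  refine Finset.sum_congr rfl fun k hk => ?_
  rw [Function.update_of_ne]
  have := Finset.mem_range.1 hk
  omega

theorem W_succ_update (a c : ℕ → ℝ) (n : ℕ) (ω : ℕ → ℝ) (y : ℝ) :
    W a c (n + 1) (Function.update ω n y) = circleMap (W a c n ω) (a n) (y + c n) := by
  have h := W_update a c n n le_rfl ω y
  unfold W at h ⊢
  rw [Finset.sum_range_succ, h, Function.update_self, circleMap]

theorem measurable_W (a c : ℕ → ℝ) (n : ℕ) : Measurable (W a c n) := by
  unfold W
  fun_prop

theorem lintegral_nu {G : ℂ → ℝ} (hG : Continuous G) (hG0 : ∀ z, 0 ≤ G z) (x : ℂ) (a c : ℝ) :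
    ∫⁻ y, ENNReal.ofReal (G (circleMap x a (y + c))) ∂nu = ENNReal.ofReal (circleAverage G x a) := by
  have hcont : Continuous (fun y : ℝ => G (circleMap x a (y + c))) := by
    have := continuous_circleMap x a
    fun_prop
  rw [nu, lintegral_smul_measure, ← ofReal_integral_eq_lintegral_ofReal, smul_eq_mul,
    ← ENNReal.ofReal_mul (by positivity)]
  · rw [circleAverage_eq_integral_add c, intervalIntegral.integral_of_le (by positivity),
      smul_eq_mul]
  · exact (hcont.integrableOn_Icc).mono_set Ioc_subset_Icc_self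
  · exact Eventually.of_forall fun y => hG0 _

/-- one step of the walk on an event that depends on the first `n` coordinates only -/
theorem one_step (a c : ℕ → ℝ) (n : ℕ) {D : Set (ℕ → ℝ)} (hD : MeasurableSet D)
    (hDn : ∀ ω y, Function.update ω n y ∈ D ↔ ω ∈ D) {G : ℂ → ℝ} (hG : Continuous G)
    (hG0 : ∀ z, 0 ≤ G z) :
    ∫⁻ ω in D, ENNReal.ofReal (G (W a c (n + 1) ω)) ∂PP =
      ∫⁻ ω in D, ENNReal.ofReal (circleAverage G (W a c n ω) (a n)) ∂PP := by
  have hm : Measurable (fun ω => ENNReal.ofReal (G (W a c (n + 1) ω))) :=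
    (hG.measurable.comp (measurable_W a c (n + 1))).ennreal_ofReal
  rw [← lintegral_indicator hD, ← lintegral_indicator hD, lintegral_resample n (hm.indicator hD)]
  refine lintegral_congr fun ω => ?_
  by_cases hω : ω ∈ D
  · rw [indicator_of_mem hω, ← lintegral_nu hG hG0 _ _ (c n)]
    refine lintegral_congr fun y => ?_
    rw [indicator_of_mem ((hDn ω y).2 hω), W_succ_update]
  · rw [indicator_of_notMem hω]
    have : ∀ y, D.indicator (fun ω => ENNReal.ofReal (G (W a c (n + 1) ω)))
        (Function.update ω n y) = 0 := fun y =>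
      indicator_of_notMem (fun h => hω ((hDn ω y).1 h)) _
    simp [this]

end Pool.Agent.H800R2.Stolz
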