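import Pool.Agent.H800R2.StolzB

set_option autoImplicit false

open Set Filter Topology MeasureTheory

namespace Pool.Agent.H800R2.Stolz

open Real Complex

/-- the potential -/
noncomputable def G1 (w : ℂ) (r R : ℝ) (z : ℂ) : ℝ :=
  Real.log R - Real.log (max ‖z - w‖ r) + ‖z - w‖ ^ 2 / R ^ 2

theorem G1_continuous (w : ℂ) {r : ℝ} (R : ℝ) (hr : 0 < r) : Continuous (G1 w r R) := by
  unfold G1
  have := lmax_continuous w hr
  fun_prop

theorem G1_nonneg (w : ℂ) {r R : ℝ} (hr : 0 < r) (hrR : r ≤ R) (z : ℂ) : 0 ≤ G1 w r R z := by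
  have hR : 0 < R := hr.trans_le hrR
  unfold G1
  rcases le_or_gt ‖z - w‖ r with h | h
  · rw [max_eq_right h]
    have := Real.log_le_log hr hrR
    have h2 : 0 ≤ ‖z - w‖ ^ 2 / R ^ 2 := by positivity
    linarith
  · rw [max_eq_left h.le]
    have hs : 0 < ‖z - w‖ / R := div_pos (hr.trans h) hR
    have h1 := Real.log_le_sub_one_of_pos hs
    rw [Real.log_div (hr.trans h).ne' hR.ne'] at h1
    rw [← div_pow]
    nlinarith [sq_nonneg (‖z - w‖ / R - 1 / 2)]

theorem G1_hit (w : ℂ) {r R : ℝ} (z : ℂ) (h : ‖z - w‖ ≤ r) :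
    Real.log R - Real.log r ≤ G1 w r R z := by
  unfold G1
  rw [max_eq_right h]
  have h2 : 0 ≤ ‖z - w‖ ^ 2 / R ^ 2 := by positivity
  linarith

theorem G1_avg (w : ℂ) {r R a : ℝ} (hr : 0 < r) (ha : 0 < a) (x : ℂ) :
    circleAverage (G1 w r R) x a ≤ G1 w r R x + a ^ 2 / R ^ 2 := by
  have h1 := avg_lmax x w ha hr
  have h2 := avg_sq x w a
  have e : G1 w r R = fun z => (Real.log R - Real.log (max ‖z - w‖ r)) +
      (R ^ 2)⁻¹ • (‖z - w‖ ^ 2) := by
    ext z
    unfold G1
    rw [smul_eq_mul]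
    ring
  have hc1 : CircleIntegrable (fun z : ℂ => Real.log (max ‖z - w‖ r)) x a :=
    (lmax_continuous w hr).continuousOn.circleIntegrable ha.le
  have hc2 : CircleIntegrable (fun z : ℂ => ‖z - w‖ ^ 2) x a :=
    (Continuous.continuousOn (by fun_prop)).circleIntegrable ha.le
  have hc3 : CircleIntegrable (fun z : ℂ => (R ^ 2)⁻¹ • (‖z - w‖ ^ 2)) x a :=
    (Continuous.continuousOn (by fun_prop)).circleIntegrable ha.le
  have hc4 : CircleIntegrable (fun z : ℂ => Real.log R - Real.log (max ‖z - w‖ r)) x a :=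
    (continuous_const.sub (lmax_continuous w hr)).continuousOn.circleIntegrable ha.le
  rw [e, circleAverage_fun_add hc4 hc3, circleAverage_fun_sub (circleIntegrable_const _ _ _) hc1,
    circleAverage_const, circleAverage_fun_smul, h2, smul_eq_mul]
  simp only [smul_eq_mul]
  have h3 : (R ^ 2)⁻¹ * (‖x - w‖ ^ 2 + a ^ 2) = (R ^ 2)⁻¹ * ‖x - w‖ ^ 2 + a ^ 2 / R ^ 2 := by
    rw [div_eq_inv_mul]
    ring
  linarith

/-- sum of the squares of the steps -/
noncomputable def sg (a : ℕ → ℝ) (n : ℕ) : ℝ := ∑ k ∈ Finset.range n, a k ^ 2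

theorem sg_succ (a : ℕ → ℝ) (n : ℕ) : sg a (n + 1) = sg a n + a n ^ 2 := by
  unfold sg
  rw [Finset.sum_range_succ]

theorem sg_nonneg (a : ℕ → ℝ) (n : ℕ) : 0 ≤ sg a n := Finset.sum_nonneg fun k _ => sq_nonneg _

/-- not hit up to time `n` -/
def D1 (a c : ℕ → ℝ) (w : ℂ) (r : ℝ) (n : ℕ) : Set (ℕ → ℝ) :=
  {ω | ∀ m ≤ n, r < ‖W a c m ω - w‖}

theorem measurableSet_D1 (a c : ℕ → ℝ) (w : ℂ) (r : ℝ) (n : ℕ) :
    MeasurableSet (D1 a c w r n) := by
  have : D1 a c w r n = ⋂ m ∈ Finset.range (n + 1), {ω | r < ‖W a c m ω - w‖} := by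
    ext ω
    simp [D1]
  rw [this]
  refine Finset.measurableSet_biInter _ fun m _ => ?_
  exact measurableSet_lt measurable_const ((measurable_W a c m).sub_const w).norm

theorem D1_update (a c : ℕ → ℝ) (w : ℂ) (r : ℝ) (n : ℕ) (ω : ℕ → ℝ) (y : ℝ) :
    Function.update ω n y ∈ D1 a c w r n ↔ ω ∈ D1 a c w r n := by
  unfold D1
  simp only [mem_ofPred_eq]
  refine forall₂_congr fun m hm => ?_
  rw [W_update a c n m hm]

/-- **Hitting estimate.** -/
theorem hitting (a c : ℕ → ℝ) (ha : ∀ n, 0 < a n) (w : ℂ) {r R : ℝ} (hr : 0 < r) (hrR : r ≤ R)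
    (n : ℕ) :
    ∫⁻ ω in D1 a c w r n, ENNReal.ofReal (G1 w r R (W a c n ω)) ∂PP +
      ENNReal.ofReal (Real.log R - Real.log r) * PP (D1 a c w r n)ᶜ ≤
      ENNReal.ofReal (G1 w r R 0 + sg a n / R ^ 2) := by
  have hR : 0 < R := hr.trans_le hrR
  induction n with
  | zero =>
    have hW : ∀ ω, W a c 0 ω = 0 := fun ω => by simp [W]
    have hs : sg a 0 = 0 := by simp [sg]
    rw [hs, zero_div, add_zero]
    simp only [hW]
    rw [lintegral_const, Measure.restrict_apply MeasurableSet.univ, univ_inter]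
    by_cases h : r < ‖(0 : ℂ) - w‖
    · have hD : D1 a c w r 0 = univ := by
        ext ω
        simp only [D1, Nat.le_zero, mem_ofPred_eq, mem_univ, iff_true]
        rintro m rfl
        rw [hW]
        exact h
      rw [hD, compl_univ, measure_empty, mul_zero, add_zero, measure_univ, mul_one]
    · have hD : D1 a c w r 0 = ∅ := by
        ext ω
        simp only [D1, Nat.le_zero, mem_ofPred_eq, mem_empty_iff_false, iff_false]
        intro h2
        have := h2 0 rfl
        rw [hW] at this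
        exact h this
      rw [hD, compl_empty, measure_empty, mul_zero, zero_add, measure_univ, mul_one]
      exact ENNReal.ofReal_le_ofReal (G1_hit w _ (not_lt.1 h))
  | succ n ih =>
    set D := D1 a c w r n with hDdef
    set H : Set (ℕ → ℝ) := {ω | ‖W a c (n + 1) ω - w‖ ≤ r} with hH
    have hDm : MeasurableSet D := measurableSet_D1 a c w r n
    have hHm : MeasurableSet H :=
      measurableSet_le ((measurable_W a c (n + 1)).sub_const w).norm measurable_const
    have hD' : D1 a c w r (n + 1) = D \ H := by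
      ext ω
      simp only [hDdef, hH, D1, mem_ofPred_eq, Set.mem_sdiff, not_le]
      constructor
      · intro h
        exact ⟨fun m hm => h m (by omega), h (n + 1) le_rfl⟩
      · rintro ⟨h1, h2⟩ m hm
        rcases Nat.lt_or_ge m (n + 1) with h3 | h3
        · exact h1 m (by omega)
        · have : m = n + 1 := by omega
          rw [this]
          exact h2
    have hcompl : (D \ H)ᶜ = Dᶜ ∪ (D ∩ H) := by
      ext ω
      simp only [mem_compl_iff, Set.mem_sdiff, mem_union, mem_inter_iff]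
      tauto
    set g : (ℕ → ℝ) → ENNReal := fun ω => ENNReal.ofReal (G1 w r R (W a c (n + 1) ω)) with hg
    have h1 : ENNReal.ofReal (Real.log R - Real.log r) * PP (D ∩ H) ≤ ∫⁻ ω in D ∩ H, g ω ∂PP := by
      rw [← setLIntegral_const]
      refine setLIntegral_mono' (hDm.inter hHm) fun ω hω => ?_
      exact ENNReal.ofReal_le_ofReal (G1_hit w _ hω.2)
    have h2 : ∫⁻ ω in D, g ω ∂PP = ∫⁻ ω in D ∩ H, g ω ∂PP + ∫⁻ ω in D \ H, g ω ∂PP :=
      (lintegral_inter_add_sdiff g D hHm).symm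
    have h3 : ∫⁻ ω in D, g ω ∂PP ≤ ∫⁻ ω in D, ENNReal.ofReal (G1 w r R (W a c n ω)) ∂PP +
        ENNReal.ofReal (a n ^ 2 / R ^ 2) := by
      rw [hg, one_step a c n hDm (fun ω y => D1_update a c w r n ω y) (G1_continuous w R hr)
        (G1_nonneg w hr hrR)]
      have h4 : ∀ ω, ENNReal.ofReal (circleAverage (G1 w r R) (W a c n ω) (a n)) ≤
          ENNReal.ofReal (G1 w r R (W a c n ω)) + ENNReal.ofReal (a n ^ 2 / R ^ 2) := by
        intro ω
        rw [← ENNReal.ofReal_add (G1_nonneg w hr hrR _) (by positivity)]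
        exact ENNReal.ofReal_le_ofReal (G1_avg w hr (ha n) _)
      refine (lintegral_mono h4).trans ?_
      rw [lintegral_add_right _ measurable_const, lintegral_const,
        Measure.restrict_apply MeasurableSet.univ, univ_inter]
      gcongr
      calc ENNReal.ofReal (a n ^ 2 / R ^ 2) * PP D ≤ ENNReal.ofReal (a n ^ 2 / R ^ 2) * 1 := by
            gcongr
            exact prob_le_one
        _ = _ := mul_one _
    rw [hD', hcompl]
    calc ∫⁻ ω in D \ H, g ω ∂PP + ENNReal.ofReal (Real.log R - Real.log r) * PP (Dᶜ ∪ (D ∩ H))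
        ≤ ∫⁻ ω in D \ H, g ω ∂PP + ENNReal.ofReal (Real.log R - Real.log r) *
          (PP Dᶜ + PP (D ∩ H)) := by
          gcongr
          exact measure_union_le _ _
      _ = (ENNReal.ofReal (Real.log R - Real.log r) * PP (D ∩ H) + ∫⁻ ω in D \ H, g ω ∂PP) +
          ENNReal.ofReal (Real.log R - Real.log r) * PP Dᶜ := by ring
      _ ≤ (∫⁻ ω in D ∩ H, g ω ∂PP + ∫⁻ ω in D \ H, g ω ∂PP) +
          ENNReal.ofReal (Real.log R - Real.log r) * PP Dᶜ := by gcongr
      _ = ∫⁻ ω in D, g ω ∂PP + ENNReal.ofReal (Real.log R - Real.log r) * PP Dᶜ := by rw [h2]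
      _ ≤ (∫⁻ ω in D, ENNReal.ofReal (G1 w r R (W a c n ω)) ∂PP +
          ENNReal.ofReal (a n ^ 2 / R ^ 2)) +
          ENNReal.ofReal (Real.log R - Real.log r) * PP Dᶜ := by gcongr
      _ = (∫⁻ ω in D, ENNReal.ofReal (G1 w r R (W a c n ω)) ∂PP +
          ENNReal.ofReal (Real.log R - Real.log r) * PP Dᶜ) +
          ENNReal.ofReal (a n ^ 2 / R ^ 2) := by ring
      _ ≤ ENNReal.ofReal (G1 w r R 0 + sg a n / R ^ 2) + ENNReal.ofReal (a n ^ 2 / R ^ 2) := by
          gcongr
      _ = ENNReal.ofReal (G1 w r R 0 + sg a (n + 1) / R ^ 2) := by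
          rw [← ENNReal.ofReal_add ?_ (by positivity), sg_succ]
          · congr 1
            ring
          · have := G1_nonneg w hr hrR 0
            have h5 : 0 ≤ sg a n := Finset.sum_nonneg fun k _ => sq_nonneg _
            positivity

/-- bounded up to time `n` -/
def D2 (a c : ℕ → ℝ) (K : ℝ) (n : ℕ) : Set (ℕ → ℝ) := {ω | ∀ m ≤ n, ‖W a c m ω‖ ≤ K}

theorem measurableSet_D2 (a c : ℕ → ℝ) (K : ℝ) (n : ℕ) : MeasurableSet (D2 a c K n) := by
  have : D2 a c K n = ⋂ m ∈ Finset.range (n + 1), {ω | ‖W a c m ω‖ ≤ K} := by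
    ext ω
    simp [D2]
  rw [this]
  refine Finset.measurableSet_biInter _ fun m _ => ?_
  exact measurableSet_le (measurable_W a c m).norm measurable_const

theorem D2_update (a c : ℕ → ℝ) (K : ℝ) (n : ℕ) (ω : ℕ → ℝ) (y : ℝ) :
    Function.update ω n y ∈ D2 a c K n ↔ ω ∈ D2 a c K n := by
  unfold D2
  simp only [mem_ofPred_eq]
  refine forall₂_congr fun m hm => ?_
  rw [W_update a c n m hm]

theorem norm_W_succ_le (a c : ℕ → ℝ) (n : ℕ) (ω : ℕ → ℝ) :
    ‖W a c (n + 1) ω‖ ≤ ‖W a c n ω‖ + |a n| := by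
  unfold W
  rw [Finset.sum_range_succ]
  refine (norm_add_le _ _).trans ?_
  rw [norm_mul, Complex.norm_exp_ofReal_mul_I, mul_one, Complex.norm_real, Real.norm_eq_abs]

theorem exit_estimate (a c : ℕ → ℝ) (ha0 : ∀ n, 0 ≤ a n) (ha : ∀ n, a n ≤ 1) {K : ℝ} (hK : 0 ≤ K)
    (n : ℕ) :
    ENNReal.ofReal (sg a n) * PP (D2 a c K n) ≤
      ∫⁻ ω in D2 a c K n, ENNReal.ofReal (‖W a c n ω‖ ^ 2) ∂PP +
      ENNReal.ofReal ((K + 1) ^ 2) * PP (D2 a c K n)ᶜ := by
  -- a stronger statement with the sum of `a k ^ 2 * P (D k)`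
  have key : ∀ n, ∑ k ∈ Finset.range n, ENNReal.ofReal (a k ^ 2) * PP (D2 a c K k) ≤
      ∫⁻ ω in D2 a c K n, ENNReal.ofReal (‖W a c n ω‖ ^ 2) ∂PP +
      ENNReal.ofReal ((K + 1) ^ 2) * PP (D2 a c K n)ᶜ := by
    intro n
    induction n with
    | zero => simp
    | succ n ih =>
      set D := D2 a c K n with hDdef
      set H : Set (ℕ → ℝ) := {ω | K < ‖W a c (n + 1) ω‖} with hH
      have hDm : MeasurableSet D := measurableSet_D2 a c K n
      have hHm : MeasurableSet H :=
        measurableSet_lt measurable_const (measurable_W a c (n + 1)).norm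
      have hD' : D2 a c K (n + 1) = D \ H := by
        ext ω
        simp only [hDdef, hH, D2, mem_ofPred_eq, Set.mem_sdiff, not_lt]
        constructor
        · intro h
          exact ⟨fun m hm => h m (by omega), h (n + 1) le_rfl⟩
        · rintro ⟨h1, h2⟩ m hm
          rcases Nat.lt_or_ge m (n + 1) with h3 | h3
          · exact h1 m (by omega)
          · have : m = n + 1 := by omega
            rw [this]
            exact h2
      have hcompl : (D \ H)ᶜ = Dᶜ ∪ (D ∩ H) := by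
        ext ω
        simp only [mem_compl_iff, Set.mem_sdiff, mem_union, mem_inter_iff]
        tauto
      have hdisj : Disjoint Dᶜ (D ∩ H) := by
        rw [Set.disjoint_left]
        intro ω h1 h2
        exact h1 h2.1
      set g : (ℕ → ℝ) → ENNReal := fun ω => ENNReal.ofReal (‖W a c (n + 1) ω‖ ^ 2) with hg
      have h1 : ∫⁻ ω in D ∩ H, g ω ∂PP ≤ ENNReal.ofReal ((K + 1) ^ 2) * PP (D ∩ H) := by
        rw [← setLIntegral_const]
        refine setLIntegral_mono' (hDm.inter hHm) fun ω hω => ?_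
        refine ENNReal.ofReal_le_ofReal ?_
        have h2 := norm_W_succ_le a c n ω
        have h3 : ‖W a c n ω‖ ≤ K := hω.1 n le_rfl
        rw [abs_of_nonneg (ha0 n)] at h2
        exact pow_le_pow_left₀ (norm_nonneg _) (by linarith [ha n]) 2
      have h2 : ∫⁻ ω in D, g ω ∂PP = ∫⁻ ω in D ∩ H, g ω ∂PP + ∫⁻ ω in D \ H, g ω ∂PP :=
        (lintegral_inter_add_sdiff g D hHm).symm
      have h3 : ∫⁻ ω in D, g ω ∂PP = ∫⁻ ω in D, ENNReal.ofReal (‖W a c n ω‖ ^ 2) ∂PP +
          ENNReal.ofReal (a n ^ 2) * PP D := by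
        rw [hg, one_step a c n hDm (fun ω y => D2_update a c K n ω y)
          (G := fun z => ‖z‖ ^ 2) (by fun_prop) (fun z => by positivity)]
        have h4 : ∀ ω, ENNReal.ofReal (circleAverage (fun z => ‖z‖ ^ 2) (W a c n ω) (a n)) =
            ENNReal.ofReal (‖W a c n ω‖ ^ 2) + ENNReal.ofReal (a n ^ 2) := by
          intro ω
          rw [← ENNReal.ofReal_add (by positivity) (by positivity)]
          have := avg_sq (W a c n ω) 0 (a n)
          simp only [sub_zero] at this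
          rw [this]
        simp only [h4]
        rw [lintegral_add_right _ measurable_const, lintegral_const,
          Measure.restrict_apply MeasurableSet.univ, univ_inter]
      rw [Finset.sum_range_succ, hD', hcompl, measure_union hdisj (hDm.inter hHm)]
      calc ∑ k ∈ Finset.range n, ENNReal.ofReal (a k ^ 2) * PP (D2 a c K k) +
            ENNReal.ofReal (a n ^ 2) * PP D
          ≤ (∫⁻ ω in D, ENNReal.ofReal (‖W a c n ω‖ ^ 2) ∂PP +
            ENNReal.ofReal ((K + 1) ^ 2) * PP Dᶜ) + ENNReal.ofReal (a n ^ 2) * PP D := by gcongr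
        _ = ∫⁻ ω in D, g ω ∂PP + ENNReal.ofReal ((K + 1) ^ 2) * PP Dᶜ := by
            rw [h3]
            ring
        _ ≤ (ENNReal.ofReal ((K + 1) ^ 2) * PP (D ∩ H) + ∫⁻ ω in D \ H, g ω ∂PP) +
            ENNReal.ofReal ((K + 1) ^ 2) * PP Dᶜ := by
            rw [h2]
            gcongr
        _ = _ := by ring
  refine le_trans ?_ (key n)
  have hanti : ∀ k ∈ Finset.range n, D2 a c K n ⊆ D2 a c K k := by
    intro k hk
    refine fun ω hω m hm => hω m ?_
    have := Finset.mem_range.1 hk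
    omega
  unfold sg
  rw [ENNReal.ofReal_sum_of_nonneg (fun k _ => sq_nonneg _), Finset.sum_mul]
  exact Finset.sum_le_sum fun k hk => by
    gcongr
    exact hanti k hk

/-- the walk is a.s. unbounded -/
theorem unbounded_ae (a c : ℕ → ℝ) (ha0 : ∀ n, 0 ≤ a n) (ha : ∀ n, a n ≤ 1)
    (hs : Tendsto (sg a) atTop atTop) :
    ∀ᵐ ω ∂PP, ∀ K : ℕ, ∃ n, (K : ℝ) < ‖W a c n ω‖ := by
  rw [ae_all_iff]
  intro K
  have h0 : PP (⋂ n, D2 a c K n) = 0 := by
    by_contra hne
    have hpos : 0 < (PP (⋂ n, D2 a c K n)).toReal :=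
      ENNReal.toReal_pos hne (measure_ne_top _ _)
    obtain ⟨n, hn⟩ := (hs.eventually (eventually_gt_atTop
      ((2 * ((K : ℝ) + 1) ^ 2) / (PP (⋂ n, D2 a c K n)).toReal))).exists
    have h1 := exit_estimate a c ha0 ha (Nat.cast_nonneg K) n
    have h2 : ∫⁻ ω in D2 a c K n, ENNReal.ofReal (‖W a c n ω‖ ^ 2) ∂PP ≤
        ENNReal.ofReal (((K : ℝ) + 1) ^ 2) := by
      calc ∫⁻ ω in D2 a c K n, ENNReal.ofReal (‖W a c n ω‖ ^ 2) ∂PP
          ≤ ∫⁻ _ in D2 a c K n, ENNReal.ofReal (((K : ℝ) + 1) ^ 2) ∂PP := by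
            refine setLIntegral_mono' (measurableSet_D2 a c K n) fun ω hω => ?_
            refine ENNReal.ofReal_le_ofReal ?_
            have : ‖W a c n ω‖ ≤ K := hω n le_rfl
            exact pow_le_pow_left₀ (norm_nonneg _) (by linarith) 2
        _ = ENNReal.ofReal (((K : ℝ) + 1) ^ 2) * PP (D2 a c K n) := setLIntegral_const _ _
        _ ≤ ENNReal.ofReal (((K : ℝ) + 1) ^ 2) * 1 := by
            gcongr
            exact prob_le_one
        _ = _ := mul_one _
    have h3 : ENNReal.ofReal (((K : ℝ) + 1) ^ 2) * PP (D2 a c K n)ᶜ ≤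
        ENNReal.ofReal (((K : ℝ) + 1) ^ 2) := by
      calc _ ≤ ENNReal.ofReal (((K : ℝ) + 1) ^ 2) * 1 := by
            gcongr
            exact prob_le_one
        _ = _ := mul_one _
    have h4 : ENNReal.ofReal (sg a n) * PP (⋂ n, D2 a c K n) ≤
        ENNReal.ofReal (2 * ((K : ℝ) + 1) ^ 2) := by
      calc ENNReal.ofReal (sg a n) * PP (⋂ n, D2 a c K n)
          ≤ ENNReal.ofReal (sg a n) * PP (D2 a c K n) := by
            gcongr
            exact iInter_subset _ n
        _ ≤ _ := h1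
        _ ≤ ENNReal.ofReal (((K : ℝ) + 1) ^ 2) + ENNReal.ofReal (((K : ℝ) + 1) ^ 2) :=
            add_le_add h2 h3
        _ = _ := by
            rw [← ENNReal.ofReal_add (by positivity) (by positivity)]
            congr 1
            ring
    have h5 : sg a n * (PP (⋂ n, D2 a c K n)).toReal ≤ 2 * ((K : ℝ) + 1) ^ 2 := by
      have h6 := ENNReal.toReal_mono ENNReal.ofReal_ne_top h4
      rw [ENNReal.toReal_mul, ENNReal.toReal_ofReal (sg_nonneg a n), ENNReal.toReal_ofReal
        (by positivity)] at h6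
      exact h6
    rw [div_lt_iff₀ hpos] at hn
    linarith
  rw [ae_iff]
  refine le_antisymm ((measure_mono ?_).trans h0.le) bot_le
  intro ω hω
  simp only [mem_ofPred_eq, not_exists, not_lt] at hω
  rw [mem_iInter]
  intro n m _
  exact hω m

end Pool.Agent.H800R2.Stolz
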