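import Pool.Agent.H800R2.StolzC

set_option autoImplicit false

open Set Filter Topology MeasureTheory

namespace Pool.Agent.H800R2.Stolz

open Real Complex

/-- the coefficients -/
noncomputable def av (n : ℕ) : ℝ := 1 / Real.sqrt (n + 1)

theorem av_pos (n : ℕ) : 0 < av n := by
  unfold av
  positivity

theorem av_sq (n : ℕ) : av n ^ 2 = ((n : ℝ) + 1)⁻¹ := by
  unfold av
  rw [div_pow, Real.sq_sqrt (by positivity), one_pow, one_div]

theorem av_le_one (n : ℕ) : av n ≤ 1 := by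
  have h := av_sq n
  have h1 : ((n : ℝ) + 1)⁻¹ ≤ 1 := inv_le_one_of_one_le₀ (by
    have : (0 : ℝ) ≤ n := Nat.cast_nonneg n
    linarith)
  have := av_pos n
  nlinarith

theorem sg_av (n : ℕ) : sg av n = (harmonic n : ℝ) := by
  unfold sg harmonic
  push_cast
  refine Finset.sum_congr rfl fun k _ => ?_
  rw [av_sq]

theorem tendsto_sg_av : Tendsto (sg av) atTop atTop := by
  have h1 : Tendsto (fun n : ℕ => Real.log ((n + 1 : ℕ) : ℝ)) atTop atTop :=
    Real.tendsto_log_atTop.comp (tendsto_natCast_atTop_atTop.comp (tendsto_add_atTop_nat 1))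
  refine tendsto_atTop_mono (fun n => ?_) h1
  rw [sg_av]
  exact log_add_one_le_harmonic n

/-- block ends -/
def NN (j : ℕ) : ℕ := 4 ^ (4 ^ j)

theorem NN_strictMono : StrictMono NN := by
  intro i j h
  unfold NN
  exact Nat.pow_lt_pow_right (by norm_num) (Nat.pow_lt_pow_right (by norm_num) h)

theorem exists_block {J n : ℕ} (h : NN J ≤ n) : ∃ j, J ≤ j ∧ NN j ≤ n ∧ n ≤ NN (j + 1) := by
  classical
  have hex : ∃ j, n < NN (j + 1) := by
    refine ⟨n, ?_⟩
    have := NN_strictMono.id_le (n + 1)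
    simp only [id] at this
    omega
  refine ⟨Nat.find hex, ?_, ?_, (Nat.find_spec hex).le⟩
  · by_contra hcon
    push Not at hcon
    have h1 := Nat.find_spec hex
    have h2 : NN (Nat.find hex + 1) ≤ NN J := NN_strictMono.monotone hcon
    omega
  · rcases Nat.eq_zero_or_pos (Nat.find hex) with h0 | h0
    · rw [h0]
      exact (NN_strictMono.monotone (Nat.zero_le J)).trans h
    · have h1 := Nat.find_min hex (Nat.sub_lt h0 one_pos)
      have e : Nat.find hex - 1 + 1 = Nat.find hex := by omega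
      rw [e] at h1
      exact not_lt.1 h1

theorem av_le_of_block {j n : ℕ} (h : NN j ≤ n) : av n ≤ (2 ^ (4 ^ j) : ℝ)⁻¹ := by
  unfold av
  rw [one_div]
  refine inv_anti₀ (by positivity) (Real.le_sqrt_of_sq_le ?_)
  have h1 : ((2 : ℝ) ^ (4 ^ j)) ^ 2 = ((NN j : ℕ) : ℝ) := by
    unfold NN
    rw [← pow_mul, mul_comm, pow_mul]
    push_cast
    norm_num
  rw [h1]
  have : ((NN j : ℕ) : ℝ) ≤ n := by exact_mod_cast h
  linarith

theorem sg_block (j : ℕ) : sg av (NN (j + 1)) ≤ 64 * 4 ^ j := by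
  rw [sg_av]
  refine (harmonic_le_one_add_log _).trans ?_
  unfold NN
  push_cast
  rw [Real.log_pow]
  have h4 : Real.log 4 ≤ 2 := by
    have : Real.log 4 = 2 * Real.log 2 := by
      rw [show (4 : ℝ) = 2 ^ 2 by norm_num, Real.log_pow]
      norm_num
    have := Real.log_two_lt_d9
    linarith
  have h5 : (1 : ℝ) ≤ 4 ^ j := one_le_pow₀ (by norm_num)
  push_cast
  rw [pow_succ]
  nlinarith

theorem hit_prob (c : ℕ → ℝ) {w : ℂ} (hw : w ≠ 0) (C : ℕ) (hC : 1 ≤ C) :
    ∃ j0 : ℕ, ∃ K : ℝ, 0 ≤ K ∧ ∀ j ≥ j0,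
      PP (D1 av c w (C * (2 ^ (4 ^ j) : ℝ)⁻¹) (NN (j + 1)))ᶜ ≤
        ENNReal.ofReal ((j + K) * 4 / 4 ^ j) := by
  have hwn : 0 < ‖w‖ := norm_pos_iff.2 hw
  -- eventually: `C ≤ 2 ^ (4 ^ j) * ...`
  have hlim : Tendsto (fun j : ℕ => (4 : ℝ) ^ j) atTop atTop :=
    tendsto_pow_atTop_atTop_of_one_lt (by norm_num)
  obtain ⟨j0, hj0⟩ := (hlim.eventually (eventually_ge_atTop (8 * Real.log C))).exists_forall_of_atTop
  refine ⟨j0, 4 + |Real.log ‖w‖| + ‖w‖ ^ 2, by positivity, fun j hj => ?_⟩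
  have hj4 := hj0 j hj
  have hCr : (1 : ℝ) ≤ C := by exact_mod_cast hC
  have hC0 : (0 : ℝ) < C := by linarith
  set r : ℝ := C * (2 ^ (4 ^ j) : ℝ)⁻¹ with hr
  set R : ℝ := 2 ^ (j + 3) with hR
  have hr0 : 0 < r := by positivity
  have hR0 : 0 < R := by positivity
  have h4j : (1 : ℝ) ≤ 4 ^ j := one_le_pow₀ (by norm_num)
  have hlog2 : 1 / 2 < Real.log 2 := by
    have := Real.log_two_gt_d9
    linarith
  have hlog2' : Real.log 2 < 1 := by
    have := Real.log_two_lt_d9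
    linarith
  have hlogr : Real.log r = Real.log C - 4 ^ j * Real.log 2 := by
    rw [hr, Real.log_mul hC0.ne' (by positivity), Real.log_inv, Real.log_pow]
    push_cast
    ring
  have hlogC : 0 ≤ Real.log C := Real.log_nonneg hCr
  have hlogr' : (4 : ℝ) ^ j / 4 ≤ - Real.log r := by
    rw [hlogr]
    nlinarith
  have hlogR : Real.log R = (j + 3) * Real.log 2 := by
    rw [hR, Real.log_pow]
    push_cast
    ring
  have hjn : (0 : ℝ) ≤ j := Nat.cast_nonneg j
  have hlogR0 : 0 ≤ Real.log R := by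
    rw [hlogR]
    positivity
  have hlogR1 : Real.log R ≤ j + 3 := by
    rw [hlogR]
    nlinarith
  have hrR : r ≤ R := by
    rw [← Real.log_le_log_iff hr0 hR0]
    linarith
  have hR2 : R ^ 2 = 64 * 4 ^ j := by
    rw [hR, ← pow_mul, mul_comm, pow_mul]
    norm_num
    rw [pow_add]
    norm_num
    ring
  have h1 := hitting av c av_pos w hr0 hrR (NN (j + 1))
  have h2 : ENNReal.ofReal (Real.log R - Real.log r) * PP (D1 av c w r (NN (j + 1)))ᶜ ≤
      ENNReal.ofReal (G1 w r R 0 + sg av (NN (j + 1)) / R ^ 2) := le_trans le_add_self h1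
  have h3 : G1 w r R 0 + sg av (NN (j + 1)) / R ^ 2 ≤ j + (4 + |Real.log ‖w‖| + ‖w‖ ^ 2) := by
    have h4 : sg av (NN (j + 1)) / R ^ 2 ≤ 1 := by
      rw [hR2]
      exact div_le_one_of_le₀ (sg_block j) (by positivity)
    have h5 : G1 w r R 0 ≤ Real.log R - Real.log ‖w‖ + ‖w‖ ^ 2 := by
      unfold G1
      rw [zero_sub, norm_neg]
      have h6 : Real.log ‖w‖ ≤ Real.log (max ‖w‖ r) := Real.log_le_log hwn (le_max_left _ _)
      have h7 : ‖w‖ ^ 2 / R ^ 2 ≤ ‖w‖ ^ 2 := by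
        apply div_le_self (by positivity)
        rw [hR2]
        nlinarith
      linarith
    have h6 := neg_abs_le (Real.log ‖w‖)
    linarith
  set p := PP (D1 av c w r (NN (j + 1)))ᶜ with hp
  have hpt : p ≠ ⊤ := measure_ne_top _ _
  have hden : 0 < Real.log R - Real.log r := by
    have : (0 : ℝ) < 4 ^ j := by positivity
    linarith
  have h8 : (Real.log R - Real.log r) * p.toReal ≤ j + (4 + |Real.log ‖w‖| + ‖w‖ ^ 2) := by
    have h9 := ENNReal.toReal_mono ENNReal.ofReal_ne_top h2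
    rw [ENNReal.toReal_mul, ENNReal.toReal_ofReal hden.le, ENNReal.toReal_ofReal] at h9
    · exact h9.trans h3
    · have := G1_nonneg w hr0 hrR 0
      have := sg_nonneg av (NN (j + 1))
      positivity
  rw [← ENNReal.ofReal_toReal hpt]
  refine ENNReal.ofReal_le_ofReal ?_
  rw [le_div_iff₀ (by positivity)]
  have h10 : (4 : ℝ) ^ j / 4 ≤ Real.log R - Real.log r := by linarith
  have h11 : (4 : ℝ) ^ j / 4 * p.toReal ≤ (Real.log R - Real.log r) * p.toReal :=
    mul_le_mul_of_nonneg_right h10 ENNReal.toReal_nonneg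
  nlinarith

theorem avoid_ae (c : ℕ → ℝ) {w : ℂ} (hw : w ≠ 0) :
    ∀ᵐ ω ∂PP, ∀ C : ℕ, ∀ᶠ n in atTop, C * av n < ‖W av c n ω - w‖ := by
  rw [ae_all_iff]
  intro C
  -- enough for `C + 1`
  obtain ⟨j0, K, hK, hj0⟩ := hit_prob c hw (C + 1) (by omega)
  have hsum : Summable (fun j : ℕ => ((j + j0 : ℕ) + K) * 4 / 4 ^ (j + j0)) := by
    have h1 : Summable (fun j : ℕ => ((j : ℝ) + K) * 4 / 4 ^ j) := by
      have h2 : Summable (fun j : ℕ => (j : ℝ) ^ 1 * (1 / 4) ^ j) :=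
        summable_pow_mul_geometric_of_norm_lt_one 1 (by norm_num)
      have h3 : Summable (fun j : ℕ => ((1 : ℝ) / 4) ^ j) :=
        summable_geometric_of_lt_one (by norm_num) (by norm_num)
      refine ((h2.add (h3.mul_left K)).mul_left 4).congr fun j => ?_
      rw [one_div, inv_pow]
      field_simp
    exact (summable_nat_add_iff j0).2 h1
  have hbc := ae_eventually_notMem (μ := PP) (s := fun j : ℕ =>
    (D1 av c w (((C + 1 : ℕ) : ℝ) * (2 ^ (4 ^ (j + j0)) : ℝ)⁻¹) (NN (j + j0 + 1)))ᶜ) (by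
      refine ne_top_of_le_ne_top ?_ (ENNReal.tsum_le_tsum fun j => hj0 (j + j0) (by omega))
      rw [← ENNReal.ofReal_tsum_of_nonneg (fun j => by positivity) hsum]
      exact ENNReal.ofReal_ne_top)
  filter_upwards [hbc] with ω hω
  obtain ⟨J, hJ⟩ := eventually_atTop.1 hω
  rw [eventually_atTop]
  refine ⟨NN (J + j0), fun n hn => ?_⟩
  obtain ⟨j, hj1, hj2, hj3⟩ := exists_block hn
  have h1 := hJ (j - j0) (by omega)
  rw [notMem_compl_iff, Nat.sub_add_cancel (by omega)] at h1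
  have h2 := h1 n hj3
  refine lt_of_le_of_lt ?_ h2
  have h3 := av_le_of_block hj2
  have h4 : (0 : ℝ) ≤ (2 ^ (4 ^ j) : ℝ)⁻¹ := by positivity
  push_cast
  have h5 : (C : ℝ) * av n ≤ C * (2 ^ (4 ^ j) : ℝ)⁻¹ :=
    mul_le_mul_of_nonneg_left h3 (Nat.cast_nonneg C)
  linarith

end Pool.Agent.H800R2.Stolz
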