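import Mathlib

set_option autoImplicit false

open Set Filter Topology MeasureTheory

namespace Pool.Agent.H800R2.Stolz

/-- The Stolz angle at the boundary point `P` with constants `C` and `δ`. -/
def stolz (P : ℂ) (C δ : ℝ) : Set ℂ := {z | ‖z‖ < 1 ∧ ‖z - P‖ < C * (1 - ‖z‖) ∧ ‖z - P‖ < δ}

/-- `P` is of type (a) for `f`: within every Stolz angle at `P`, `f` has a finite limit at `P`. -/
def TypeA (f : ℂ → ℂ) (P : ℂ) : Prop :=
  ∀ C > 1, ∀ δ > 0, ∃ w : ℂ, Tendsto f (𝓝[stolz P C δ] P) (𝓝 w)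

/-- The set of all values `w` that `f` takes infinitely often as `z → P` within `S`: there are
distinct points `z k` of `S` with `z k → P` and `f (z k) = w`. -/
def V (f : ℂ → ℂ) (P : ℂ) (S : Set ℂ) : Set ℂ :=
  {w | ∃ z : ℕ → ℂ, Function.Injective z ∧ (∀ k, z k ∈ S) ∧ Tendsto z atTop (𝓝 P) ∧
    ∀ k, f (z k) = w}

end Pool.Agent.H800R2.Stolz
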