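import Pool.Agent.H800R2.StolzD

set_option autoImplicit false

open Set Filter Topology MeasureTheory

namespace Pool.Agent.H800R2.Stolz

open Real Complex

/-- the exponents -/
def qv : ℕ → ℕ
  | 0 => 1
  | n + 1 => 2 * (n + 1) * (n + 2) * qv n

theorem qv_succ (n : ℕ) : qv (n + 1) = 2 * (n + 1) * (n + 2) * qv n := rfl

theorem qv_pos (n : ℕ) : 0 < qv n := by
  induction n with
  | zero => simp [qv]
  | succ n ih =>
    rw [qv_succ]
    positivity

theorem two_qv_le (n : ℕ) : 2 * qv n ≤ qv (n + 1) := by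
  rw [qv_succ]
  exact Nat.mul_le_mul_right _ (by nlinarith)

theorem qv_mono : Monotone qv := monotone_nat_of_le_succ fun n => by
  have := two_qv_le n
  omega

theorem pow_mul_qv_le (n k : ℕ) : 2 ^ k * qv n ≤ qv (n + k) := by
  induction k with
  | zero => simp
  | succ k ih =>
    have h := two_qv_le (n + k)
    rw [pow_succ, ← add_assoc]
    nlinarith

theorem self_le_qv (n : ℕ) : n ≤ qv n := by
  have h := pow_mul_qv_le 0 n
  simp only [qv, mul_one, zero_add] at h
  exact (Nat.lt_two_pow_self).le.trans h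

/-- terms of the series -/
noncomputable def term (ω : ℕ → ℝ) (z : ℂ) (k : ℕ) : ℂ :=
  av k * Complex.exp (ω k * I) * z ^ qv k

/-- the function -/
noncomputable def F (ω : ℕ → ℝ) (z : ℂ) : ℂ := ∑' k, term ω z k

theorem norm_term (ω : ℕ → ℝ) (z : ℂ) (k : ℕ) : ‖term ω z k‖ = av k * ‖z‖ ^ qv k := by
  unfold term
  rw [norm_mul, norm_mul, Complex.norm_real, Complex.norm_exp_ofReal_mul_I, norm_pow, mul_one,
    Real.norm_of_nonneg (av_pos k).le]

theorem norm_term_le (ω : ℕ → ℝ) (z : ℂ) (k : ℕ) : ‖term ω z k‖ ≤ ‖z‖ ^ qv k := by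
  rw [norm_term]
  exact mul_le_of_le_one_left (by positivity) (av_le_one k)

theorem norm_term_le_pow {r : ℝ} (hr : r ≤ 1) (ω : ℕ → ℝ) {z : ℂ} (hz : ‖z‖ ≤ r) (k : ℕ) :
    ‖term ω z k‖ ≤ r ^ k := by
  refine (norm_term_le ω z k).trans ?_
  have hr0 : 0 ≤ r := (norm_nonneg _).trans hz
  calc ‖z‖ ^ qv k ≤ r ^ qv k := pow_le_pow_left₀ (norm_nonneg _) hz _
    _ ≤ r ^ k := pow_le_pow_of_le_one hr0 hr (self_le_qv k)

theorem summable_term (ω : ℕ → ℝ) {z : ℂ} (hz : ‖z‖ < 1) : Summable (term ω z) :=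
  Summable.of_norm_bounded (summable_geometric_of_lt_one (norm_nonneg z) hz)
    (norm_term_le_pow hz.le ω le_rfl)

theorem F_differentiable (ω : ℕ → ℝ) : DifferentiableOn ℂ (F ω) (Metric.ball 0 1) := by
  intro z hz
  rw [mem_ball_zero_iff] at hz
  obtain ⟨r, hr1, hr2⟩ := exists_between hz
  have hr0 : 0 ≤ r := (norm_nonneg _).trans hr1.le
  have h : DifferentiableOn ℂ (fun w => ∑' k, term ω w k) (Metric.ball 0 r) := by
    refine differentiableOn_tsum_of_summable_norm (u := fun k => r ^ k)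
      (summable_geometric_of_lt_one hr0 hr2) (fun k => ?_) Metric.isOpen_ball (fun k w hw => ?_)
    · unfold term
      fun_prop
    · rw [mem_ball_zero_iff] at hw
      exact norm_term_le_pow hr2.le ω hw.le k
  have hz' : z ∈ Metric.ball (0 : ℂ) r := by rwa [mem_ball_zero_iff]
  exact (h.differentiableAt (Metric.isOpen_ball.mem_nhds hz')).differentiableWithinAt

theorem norm_pow_sub_pow_le {z ζ : ℂ} (hz : ‖z‖ ≤ 1) (hζ : ‖ζ‖ ≤ 1) (q : ℕ) :
    ‖z ^ q - ζ ^ q‖ ≤ q * ‖z - ζ‖ := by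
  induction q with
  | zero => simp
  | succ q ih =>
    have e : z ^ (q + 1) - ζ ^ (q + 1) = z ^ q * (z - ζ) + (z ^ q - ζ ^ q) * ζ := by ring
    rw [e]
    refine (norm_add_le _ _).trans ?_
    rw [norm_mul, norm_mul, norm_pow]
    have h1 : ‖z‖ ^ q ≤ 1 := pow_le_one₀ (norm_nonneg _) hz
    have h2 : ‖z‖ ^ q * ‖z - ζ‖ ≤ ‖z - ζ‖ := mul_le_of_le_one_left (norm_nonneg _) h1
    have h3 : ‖z ^ q - ζ ^ q‖ * ‖ζ‖ ≤ ‖z ^ q - ζ ^ q‖ := mul_le_of_le_one_right (norm_nonneg _) hζ
    push_cast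
    linarith

theorem pow_le_inv {x : ℝ} (hx0 : 0 ≤ x) (hx1 : x < 1) {q : ℕ} (hq : 0 < q) :
    x ^ q ≤ 1 / (q * (1 - x)) := by
  have ht : 0 < 1 - x := by linarith
  have hqr : (0 : ℝ) < q := by exact_mod_cast hq
  have h1 : 1 + (q : ℝ) * (1 - x) ≤ (1 + (1 - x)) ^ q :=
    one_add_mul_le_pow (by linarith) q
  have h2 : x ^ q * (1 + (1 - x)) ^ q ≤ 1 := by
    rw [← mul_pow]
    exact pow_le_one₀ (mul_nonneg hx0 (by linarith)) (by nlinarith)
  rw [le_div_iff₀ (by positivity)]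
  have h3 : 0 ≤ x ^ q := by positivity
  nlinarith

/-- thresholds -/
noncomputable def tau (n : ℕ) : ℝ := av (n + 1) / ((n + 1) * qv n)

theorem tau_pos (n : ℕ) : 0 < tau n := by
  unfold tau
  have := av_pos (n + 1)
  have h2 : (0 : ℝ) < qv n := by exact_mod_cast qv_pos n
  positivity

theorem tau_le (n : ℕ) : tau n ≤ 1 / (n + 1) := by
  unfold tau
  have h2 : (1 : ℝ) ≤ qv n := by exact_mod_cast qv_pos n
  have h3 := av_le_one (n + 1)
  have h4 := av_pos (n + 1)
  rw [div_le_div_iff₀ (by positivity) (by positivity)]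
  have : (0 : ℝ) ≤ n := Nat.cast_nonneg n
  nlinarith

theorem tendsto_tau : Tendsto tau atTop (𝓝 0) :=
  squeeze_zero (fun n => (tau_pos n).le) tau_le tendsto_one_div_add_atTop_nhds_zero_nat

theorem av_anti {m n : ℕ} (h : m ≤ n) : av n ≤ av m := by
  unfold av
  have : (m : ℝ) ≤ n := by exact_mod_cast h
  gcongr

theorem tau_succ_lt (n : ℕ) : tau (n + 1) < tau n := by
  unfold tau
  have h1 : av (n + 1 + 1) ≤ av (n + 1) := av_anti (by omega)
  have h2 : (0 : ℝ) < qv n := by exact_mod_cast qv_pos n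
  have h3 : 2 * (qv n : ℝ) ≤ qv (n + 1) := by exact_mod_cast two_qv_le n
  have h4 := av_pos (n + 1 + 1)
  have h5 := av_pos (n + 1)
  have h7 : (0 : ℝ) < qv (n + 1) := by exact_mod_cast qv_pos (n + 1)
  push_cast
  rw [div_lt_div_iff₀ (by positivity) (by positivity)]
  have h6 : ((n : ℝ) + 1) * qv n < ((n : ℝ) + 1 + 1) * qv (n + 1) := by
    have : (0 : ℝ) ≤ n := Nat.cast_nonneg n
    nlinarith
  calc av (n + 1 + 1) * (((n : ℝ) + 1) * qv n) < av (n + 1 + 1) * (((n : ℝ) + 1 + 1) * qv (n + 1)) :=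
        mul_lt_mul_of_pos_left h6 h4
    _ ≤ av (n + 1) * (((n : ℝ) + 1 + 1) * qv (n + 1)) := by gcongr

theorem W_eq (ω : ℕ → ℝ) (θ : ℝ) (n : ℕ) :
    W av (fun k => qv k * θ) n ω = ∑ k ∈ Finset.range n, term ω (Complex.exp (θ * I)) k := by
  unfold W term
  refine Finset.sum_congr rfl fun k _ => ?_
  rw [mul_assoc, ← Complex.exp_nat_mul, ← Complex.exp_add]
  congr 2
  push_cast
  ring

/-- approximation of the function in a Stolz angle by the partial sums at the boundary point -/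
theorem approx (ω : ℕ → ℝ) (θ : ℝ) {z : ℂ} (hz : ‖z‖ < 1) {C : ℝ} (hC : 0 ≤ C)
    (hzC : ‖z - Complex.exp (θ * I)‖ ≤ C * (1 - ‖z‖)) (m : ℕ) (h1 : tau (m + 1) ≤ 1 - ‖z‖)
    (h2 : 1 - ‖z‖ ≤ tau m) :
    ‖F ω z - W av (fun k => qv k * θ) (m + 1) ω‖ ≤ (C + 2) * av (m + 1) := by
  set ζ := Complex.exp (θ * I) with hζ
  have hζ1 : ‖ζ‖ = 1 := Complex.norm_exp_ofReal_mul_I θ
  set t := 1 - ‖z‖ with ht
  have ht0 : 0 < t := by linarith
  have hs := summable_term ω hz
  have hsplit := hs.sum_add_tsum_nat_add (m + 1)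
  have hs2 : Summable (fun k => term ω z (k + (m + 1))) := (summable_nat_add_iff (m + 1)).2 hs
  have hsplit2 := hs2.sum_add_tsum_nat_add 1
  rw [Finset.sum_range_one, zero_add] at hsplit2
  have e : F ω z - W av (fun k => qv k * θ) (m + 1) ω =
      ∑ k ∈ Finset.range (m + 1), (term ω z k - term ω ζ k) + term ω z (m + 1) +
      ∑' k, term ω z (k + 1 + (m + 1)) := by
    unfold F
    rw [← hsplit, ← hsplit2, W_eq, Finset.sum_sub_distrib]
    ring
  rw [e]
  -- first part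
  have b1 : ‖∑ k ∈ Finset.range (m + 1), (term ω z k - term ω ζ k)‖ ≤ C * av (m + 1) := by
    have h3 : ∀ k ∈ Finset.range (m + 1), ‖term ω z k - term ω ζ k‖ ≤ qv m * (C * t) := by
      intro k hk
      have e2 : term ω z k - term ω ζ k = av k * Complex.exp (ω k * I) * (z ^ qv k - ζ ^ qv k) := by
        unfold term
        ring
      rw [e2, norm_mul, norm_mul, Complex.norm_real, Complex.norm_exp_ofReal_mul_I, mul_one,
        Real.norm_of_nonneg (av_pos k).le]
      have h4 := norm_pow_sub_pow_le hz.le hζ1.le (qv k)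
      have h5 : (qv k : ℝ) ≤ qv m := by
        exact_mod_cast qv_mono (by have := Finset.mem_range.1 hk; omega)
      calc av k * ‖z ^ qv k - ζ ^ qv k‖ ≤ 1 * ‖z ^ qv k - ζ ^ qv k‖ := by
            gcongr
            exact av_le_one k
        _ ≤ qv k * ‖z - ζ‖ := by rw [one_mul]; exact h4
        _ ≤ qv m * (C * t) := by gcongr
    refine (norm_sum_le_of_le _ h3).trans ?_
    rw [Finset.sum_const, Finset.card_range, nsmul_eq_mul]
    have h6 : ((m : ℝ) + 1) * qv m * tau m = av (m + 1) := by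
      unfold tau
      have : (0 : ℝ) < qv m := by exact_mod_cast qv_pos m
      field_simp
    calc ((m + 1 : ℕ) : ℝ) * (qv m * (C * t)) = C * (((m : ℝ) + 1) * qv m * t) := by
          push_cast
          ring
      _ ≤ C * (((m : ℝ) + 1) * qv m * tau m) := by gcongr
      _ = C * av (m + 1) := by rw [h6]
  have b2 : ‖term ω z (m + 1)‖ ≤ av (m + 1) := by
    rw [norm_term]
    exact mul_le_of_le_one_right (av_pos _).le (pow_le_one₀ (norm_nonneg _) hz.le)
  have b3 : ‖∑' k, term ω z (k + 1 + (m + 1))‖ ≤ av (m + 1) := by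
    have hq2 : (0 : ℝ) < qv (m + 2) := by exact_mod_cast qv_pos (m + 2)
    have h3 : ∀ k : ℕ, ‖term ω z (k + 1 + (m + 1))‖ ≤ 1 / (qv (m + 2) * t) * (1 / 2) ^ k := by
      intro k
      have h4 : (2 : ℝ) ^ k * qv (m + 2) ≤ qv (k + 1 + (m + 1)) := by
        have := pow_mul_qv_le (m + 2) k
        rw [show m + 2 + k = k + 1 + (m + 1) by ring] at this
        exact_mod_cast this
      have h5 : 0 < qv (k + 1 + (m + 1)) := qv_pos _
      refine (norm_term_le ω z _).trans ((pow_le_inv (norm_nonneg z) hz h5).trans ?_)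
      rw [← ht]
      have h6 : 1 / (qv (m + 2) * t) * (1 / 2) ^ k = 1 / (2 ^ k * qv (m + 2) * t) := by
        rw [one_div_pow]
        field_simp
      rw [h6]
      gcongr
    have hg : HasSum (fun k : ℕ => 1 / (qv (m + 2) * t) * (1 / 2 : ℝ) ^ k)
        (1 / (qv (m + 2) * t) * 2) := hasSum_geometric_two.mul_left _
    refine (tsum_of_norm_bounded hg h3).trans ?_
    -- `2 / (q (m+2) t) ≤ av (m + 1)`
    have h7 : 1 / (qv (m + 2) * t) * 2 ≤ 1 / (qv (m + 2) * tau (m + 1)) * 2 := by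
      have := tau_pos (m + 1)
      gcongr
    refine h7.trans ?_
    have h8 : (qv (m + 2) : ℝ) * tau (m + 1) = 2 * (m + 3) * av (m + 2) := by
      unfold tau
      rw [qv_succ]
      have : (0 : ℝ) < qv (m + 1) := by exact_mod_cast qv_pos (m + 1)
      push_cast
      field_simp
      ring
    rw [h8]
    have h9 : av (m + 2) ^ 2 = (((m : ℝ) + 3))⁻¹ := by
      rw [av_sq]
      push_cast
      congr 1
      ring
    have h10 := av_pos (m + 2)
    have h11 : 1 / (2 * ((m : ℝ) + 3) * av (m + 2)) * 2 = av (m + 2) := by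
      have h12 : ((m : ℝ) + 3) * av (m + 2) ^ 2 = 1 := by
        rw [h9]
        exact mul_inv_cancel₀ (by positivity)
      field_simp
      linarith
    rw [h11]
    exact av_anti (by omega)
  calc _ ≤ ‖∑ k ∈ Finset.range (m + 1), (term ω z k - term ω ζ k) + term ω z (m + 1)‖ +
        ‖∑' k, term ω z (k + 1 + (m + 1))‖ := norm_add_le _ _
    _ ≤ (‖∑ k ∈ Finset.range (m + 1), (term ω z k - term ω ζ k)‖ + ‖term ω z (m + 1)‖) +
        ‖∑' k, term ω z (k + 1 + (m + 1))‖ := by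
        gcongr
        exact norm_add_le _ _
    _ ≤ (C * av (m + 1) + av (m + 1)) + av (m + 1) := by gcongr
    _ = _ := by ring

/-- existence of the right index -/
theorem exists_index {t : ℝ} (ht : 0 < t) (M : ℕ) (hM : ∀ n ≤ M, t < tau n) :
    ∃ m, M ≤ m ∧ tau (m + 1) ≤ t ∧ t ≤ tau m := by
  classical
  have hex : ∃ n, tau n ≤ t :=
    ((tendsto_tau.eventually (gt_mem_nhds ht)).exists).imp fun n hn => hn.le
  have h1 := Nat.find_spec hex
  have h2 : M < Nat.find hex := by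
    by_contra hcon
    push Not at hcon
    exact absurd (hM _ hcon) (not_lt.2 h1)
  refine ⟨Nat.find hex - 1, by omega, ?_, ?_⟩
  · rw [Nat.sub_add_cancel (by omega)]
    exact h1
  · have := Nat.find_min hex (Nat.sub_lt (by omega : 0 < Nat.find hex) one_pos)
    exact (not_le.1 this).le

end Pool.Agent.H800R2.Stolz
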