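import Pool.Agent.H800R2.StolzE
import Pool.Agent.H800R2.StolzDefs

set_option autoImplicit false

open Set Filter Topology MeasureTheory

namespace Pool.Agent.H800R2.Stolz

open Real Complex

/-- deterministic part: values taken infinitely often are close to infinitely many partial sums -/
theorem V_subset (ω : ℕ → ℝ) (θ : ℝ) {C δ : ℝ} (hC : 1 < C) :
    V (F ω) (Complex.exp (θ * I)) (stolz (Complex.exp (θ * I)) C δ) ⊆
      {w | ¬ ∀ K : ℕ, ∀ᶠ n in atTop, K * av n < ‖W av (fun k => qv k * θ) n ω - w‖} := by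
  rintro w ⟨z, -, hzS, hzt, hzw⟩
  simp only [mem_ofPred_eq, not_forall]
  refine ⟨⌈C + 2⌉₊, ?_⟩
  rw [not_eventually]
  rw [frequently_atTop]
  intro M
  set ζ := Complex.exp (θ * I) with hζ
  have hζ1 : ‖ζ‖ = 1 := Complex.norm_exp_ofReal_mul_I θ
  have hlim : Tendsto (fun k => 1 - ‖z k‖) atTop (𝓝 0) := by
    have := (tendsto_const_nhds (x := (1 : ℝ))).sub hzt.norm
    rwa [hζ1, sub_self] at this
  have hev : ∀ᶠ k in atTop, ∀ n ∈ Finset.range (M + 1), 1 - ‖z k‖ < tau n := by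
    rw [Finset.eventually_all]
    intro n _
    exact hlim.eventually (gt_mem_nhds (tau_pos n))
  obtain ⟨k, hk⟩ := hev.exists
  have hzk := hzS k
  have ht0 : 0 < 1 - ‖z k‖ := by linarith [hzk.1]
  obtain ⟨m, hm1, hm2, hm3⟩ := exists_index ht0 M (fun n hn => hk n (by simpa using Nat.lt_succ_of_le hn))
  refine ⟨m + 1, by omega, ?_⟩
  rw [not_lt, ← hzw k, norm_sub_rev]
  refine (approx ω θ hzk.1 (by linarith) hzk.2.1.le m hm2 hm3).trans ?_
  have := av_pos (m + 1)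
  gcongr
  exact Nat.le_ceil _

/-- deterministic part: unbounded partial sums exclude type (a) -/
theorem not_typeA (ω : ℕ → ℝ) (θ : ℝ)
    (h : ∀ K : ℕ, ∃ n, (K : ℝ) < ‖W av (fun k => qv k * θ) n ω‖) :
    ¬ TypeA (F ω) (Complex.exp (θ * I)) := by
  intro hA
  obtain ⟨w, hw⟩ := hA 2 (by norm_num) 2 (by norm_num)
  set ζ := Complex.exp (θ * I) with hζ
  have hζ1 : ‖ζ‖ = 1 := Complex.norm_exp_ofReal_mul_I θ
  set z : ℕ → ℂ := fun m => ((1 - tau (m + 1) : ℝ) : ℂ) * ζ with hz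
  have htau1 : ∀ m, tau (m + 1) ≤ 1 / 2 := fun m => by
    refine (tau_le (m + 1)).trans ?_
    rw [div_le_div_iff₀ (by positivity) (by norm_num)]
    push_cast
    have : (0 : ℝ) ≤ m := Nat.cast_nonneg m
    linarith
  have hzn : ∀ m, ‖z m‖ = 1 - tau (m + 1) := fun m => by
    simp only [hz]
    rw [norm_mul, Complex.norm_real, hζ1, mul_one, Real.norm_of_nonneg (by linarith [htau1 m])]
  have hzd : ∀ m, ‖z m - ζ‖ = tau (m + 1) := fun m => by
    have e : z m - ζ = ((-tau (m + 1) : ℝ) : ℂ) * ζ := by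
      simp only [hz]
      push_cast
      ring
    rw [e, norm_mul, Complex.norm_real, hζ1, mul_one, norm_neg,
      Real.norm_of_nonneg (tau_pos _).le]
  have hzS : ∀ m, z m ∈ stolz ζ 2 2 := fun m => by
    have h1 := tau_pos (m + 1)
    have h2 := htau1 m
    refine ⟨by rw [hzn]; linarith, by rw [hzn, hzd]; linarith, by rw [hzd]; linarith⟩
  have hzt : Tendsto z atTop (𝓝 ζ) := by
    rw [tendsto_iff_norm_sub_tendsto_zero]
    simp only [hzd]
    exact tendsto_tau.comp (tendsto_add_atTop_nat 1)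
  have hzt2 : Tendsto z atTop (𝓝[stolz ζ 2 2] ζ) :=
    tendsto_nhdsWithin_iff.2 ⟨hzt, Eventually.of_forall hzS⟩
  have hf := (hw.comp hzt2).norm
  obtain ⟨B, hB⟩ := hf.bddAbove_range
  obtain ⟨n, hn⟩ := h ⌈max B 0 + 4⌉₊
  have hn' : max B 0 + 4 < ‖W av (fun k => qv k * θ) n ω‖ := lt_of_le_of_lt (Nat.le_ceil _) hn
  rcases Nat.eq_zero_or_pos n with h0 | h0
  · rw [h0] at hn'
    simp only [W, Finset.range_zero, Finset.sum_empty, norm_zero] at hn'
    have := le_max_right B 0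
    linarith
  · obtain ⟨m, rfl⟩ : ∃ m, n = m + 1 := ⟨n - 1, by omega⟩
    have h1 := approx ω θ (z := z m) (by rw [hzn]; linarith [tau_pos (m + 1)]) (C := 1) (by norm_num)
      (by rw [← hζ, hzd, hzn]; linarith) m (by rw [hzn]; linarith)
      (by rw [hzn]; linarith [tau_succ_lt m])
    have h2 : ‖F ω (z m)‖ ≤ B := hB ⟨m, rfl⟩
    have h3 : ‖W av (fun k => qv k * θ) (m + 1) ω‖ ≤ ‖F ω (z m)‖ +
        ‖F ω (z m) - W av (fun k => qv k * θ) (m + 1) ω‖ := by
      have e : W av (fun k => qv k * θ) (m + 1) ω = F ω (z m) -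
          (F ω (z m) - W av (fun k => qv k * θ) (m + 1) ω) := by ring
      conv_lhs => rw [e]
      exact norm_sub_le _ _
    have h4 := av_le_one (m + 1)
    have h5 := le_max_left B 0
    linarith

theorem measurable_W3 (n : ℕ) :
    Measurable (fun p : (ℕ → ℝ) × ℝ => W av (fun k => qv k * p.2) n p.1) := by
  unfold W
  refine Finset.measurable_sum _ fun k _ => ?_
  have h1 : Measurable (fun p : (ℕ → ℝ) × ℝ => p.1 k) := (measurable_pi_apply k).comp measurable_fst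
  have h2 : Measurable (fun p : (ℕ → ℝ) × ℝ => ((p.1 k + qv k * p.2 : ℝ) : ℂ)) :=
    Complex.measurable_ofReal.comp (h1.add (measurable_snd.const_mul _))
  exact (Complex.measurable_exp.comp (h2.mul_const I)).const_mul _

theorem good1 : ∀ᵐ ω ∂PP, ∀ᵐ θ : ℝ, ∀ K : ℕ, ∃ n,
    (K : ℝ) < ‖W av (fun k => qv k * θ) n ω‖ := by
  have m1 : MeasurableSet {p : (ℕ → ℝ) × ℝ | ∀ K : ℕ, ∃ n,
      (K : ℝ) < ‖W av (fun k => qv k * p.2) n p.1‖} := by
    simp only [ofPred_forall, ofPred_exists]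
    refine MeasurableSet.iInter fun K => MeasurableSet.iUnion fun n => ?_
    exact measurableSet_lt measurable_const (measurable_W3 n).norm
  refine (Measure.ae_ae_comm (μ := PP) (ν := (volume : Measure ℝ)) m1).2 ?_
  exact Eventually.of_forall fun θ => unbounded_ae av _ (fun n => (av_pos n).le) av_le_one
    tendsto_sg_av

theorem measurable_W4 (n : ℕ) :
    Measurable (fun p : (ℕ → ℝ) × (ℝ × ℂ) => W av (fun k => qv k * p.2.1) n p.1) := by
  unfold W
  refine Finset.measurable_sum _ fun k _ => ?_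
  have h1 : Measurable (fun p : (ℕ → ℝ) × (ℝ × ℂ) => p.1 k) :=
    (measurable_pi_apply k).comp measurable_fst
  have h3 : Measurable (fun p : (ℕ → ℝ) × (ℝ × ℂ) => p.2.1) := measurable_fst.comp measurable_snd
  have h2 : Measurable (fun p : (ℕ → ℝ) × (ℝ × ℂ) => ((p.1 k + qv k * p.2.1 : ℝ) : ℂ)) :=
    Complex.measurable_ofReal.comp (h1.add (h3.const_mul _))
  exact (Complex.measurable_exp.comp (h2.mul_const I)).const_mul _

/-- the good event -/
def Gd (ω : ℕ → ℝ) (q : ℝ × ℂ) : Prop := ∀ K : ℕ, ∀ᶠ n in atTop,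
    K * av n < ‖W av (fun k => qv k * q.1) n ω - q.2‖

theorem good2 : ∀ᵐ ω ∂PP, ∀ᵐ q : ℝ × ℂ, Gd ω q := by
  have m2 : MeasurableSet {p : (ℕ → ℝ) × (ℝ × ℂ) | Gd p.1 p.2} := by
    simp only [Gd, eventually_atTop, ofPred_forall, ofPred_exists]
    refine MeasurableSet.iInter fun K => MeasurableSet.iUnion fun N => MeasurableSet.iInter fun n =>
      MeasurableSet.iInter fun _ => ?_
    have h2 : Measurable (fun p : (ℕ → ℝ) × (ℝ × ℂ) => p.2.2) := measurable_snd.comp measurable_snd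
    exact measurableSet_lt measurable_const ((measurable_W4 n).sub h2).norm
  refine (Measure.ae_ae_comm (μ := PP) (ν := (volume : Measure (ℝ × ℂ))) (p := Gd) m2).2 ?_
  have h3 : ∀ᵐ q : ℝ × ℂ, q.2 ≠ 0 := by
    have h5 : volume {q : ℝ × ℂ | ¬ q.2 ≠ 0} = 0 := by
      have : {q : ℝ × ℂ | ¬ q.2 ≠ 0} = univ ×ˢ ({0} : Set ℂ) := by
        ext q
        simp
      rw [this, Measure.volume_eq_prod, Measure.prod_prod]
      simp
    exact h5
  filter_upwards [h3] with q hq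
  exact avoid_ae _ hq

theorem exists_good : ∃ ω : ℕ → ℝ, ∀ᵐ θ : ℝ,
    (∀ K : ℕ, ∃ n, (K : ℝ) < ‖W av (fun k => qv k * θ) n ω‖) ∧
    ∀ᵐ w : ℂ, ∀ K : ℕ, ∀ᶠ n in atTop, K * av n < ‖W av (fun k => qv k * θ) n ω - w‖ := by
  obtain ⟨ω, h1, h2⟩ := (good1.and good2).exists
  refine ⟨ω, h1.and ?_⟩
  rw [Measure.volume_eq_prod] at h2
  exact Measure.ae_ae_of_ae_prod h2

theorem main : ∃ f : ℂ → ℂ, DifferentiableOn ℂ f (Metric.ball 0 1) ∧
    ∀ᵐ θ : ℝ, ¬ TypeA f (Complex.exp (θ * I)) ∧ ∀ C > 1, ∀ δ > 0,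
      volume (V f (Complex.exp (θ * I)) (stolz (Complex.exp (θ * I)) C δ)) = 0 := by
  obtain ⟨ω, hω⟩ := exists_good
  refine ⟨F ω, F_differentiable ω, ?_⟩
  filter_upwards [hω] with θ hθ
  refine ⟨not_typeA ω θ hθ.1, fun C hC δ _ => ?_⟩
  refine measure_mono_null (V_subset ω θ hC) ?_
  exact hθ.2

end Pool.Agent.H800R2.Stolz
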